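import Pool.Agent.Lib.MP_1dedaf_gt.Mg.G001

/-!
# TASK LB C0b: the regular directions are admissible

Unit vectors (`dir_norm`); for `i ≠ j` write `j = i + l`, `0 < l < n`: `<dir j, rot (dir i)> = sin (2π l / n)` with `n ∤ l`, `n` odd, so `2 l / n` is
not an integer and the sine is not `0`; positively spanning: for `x = ‖x‖ (cos φ, sin φ) ≠ 0` (`0 ≤ φ < 2π`) some `2π i/n` is at distance
`≤ π/n < π/2` from `φ` modulo `2π`, and `<x, dir i> = ‖x‖ cos (φ - 2π i/n) > 0`.
-/

set_option autoImplicit false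

open MeasureTheory Set Filter Topology

namespace Pool.Agent.Lib.MP_1dedaf_gt.LB

private theorem C0b_dir (n : ℕ) [NeZero n] (k : ℤ) :
    dir n (k : ZMod n) = !₂[Real.cos (dl n * k), Real.sin (dl n * k)] := by
  have hn : (n : ℝ) ≠ 0 := Nat.cast_ne_zero.2 (NeZero.ne n)
  have h1 : (((k : ZMod n).val : ℕ) : ℤ) = k % n := ZMod.val_intCast k
  have h2 : (((k : ZMod n).val : ℕ) : ℝ) = (k : ℝ) - n * ((k / n : ℤ) : ℝ) := by
    have h3 : (((k : ZMod n).val : ℕ) : ℤ) = k - n * (k / n) := by
      rw [h1, Int.emod_def]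
    have h4 := congrArg (fun m : ℤ => (m : ℝ)) h3
    push_cast at h4
    exact h4
  have h5 : dl n * (((k : ZMod n).val : ℕ) : ℝ) = dl n * k - ((k / n : ℤ) : ℝ) * (2 * Real.pi) := by
    rw [h2]
    unfold dl
    field_simp
  unfold dir
  rw [h5, Real.cos_sub_int_mul_two_pi, Real.sin_sub_int_mul_two_pi]

private theorem C0b_inner (x : E2) (a b : ℝ) : inner ℝ x !₂[a, b] = x 0 * a + x 1 * b := by
  simp [PiLp.inner_apply, Fin.sum_univ_two]
  ring

theorem dir_adm (n : ℕ) [NeZero n] (hn : Odd n) (h3 : 3 ≤ n) : Adm (dir n) := by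
  have hn0 : (0 : ℝ) < n := by
    have : 0 < n := by omega
    exact_mod_cast this
  have hpi := Real.pi_pos
  refine ⟨dir_norm n, ?_, ?_⟩
  · intro i j hij h0
    set l := (j - i).val with hl
    have hj : j = i + (l : ZMod n) := by
      rw [hl, ZMod.natCast_zmod_val]
      ring
    have hl0 : l ≠ 0 := by
      intro h
      rw [h] at hj
      apply hij
      rw [hj]
      simp
    have hln : l < n := ZMod.val_lt _
    rw [hj, (dir_inner n i l).2.1] at h0
    obtain ⟨k, hk⟩ := Real.sin_eq_zero_iff.1 h0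
    have h4 : (k : ℝ) * n = 2 * l := by
      unfold dl at hk
      have h5 : (k : ℝ) * Real.pi * n = l * (2 * Real.pi) := by
        rw [hk]
        field_simp
      have h6 : ((k : ℝ) * n - 2 * l) * Real.pi = 0 := by linarith
      rcases mul_eq_zero.1 h6 with h7 | h7
      · linarith
      · exact absurd h7 hpi.ne'
    have h5 : k * (n : ℤ) = 2 * (l : ℤ) := by exact_mod_cast h4
    have h6 : (n : ℤ) ∣ 2 * (l : ℤ) := ⟨k, by rw [← h5]; ring⟩
    have h7 : n ∣ 2 * l := by exact_mod_cast h6
    have h8 : n ∣ l := by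
      refine Nat.Coprime.dvd_of_dvd_mul_left ?_ h7
      exact hn.coprime_two_right
    have := Nat.le_of_dvd (Nat.pos_of_ne_zero hl0) h8
    omega
  · intro x hx
    set z : ℂ := ⟨x 0, x 1⟩ with hz
    have hz0 : z ≠ 0 := by
      intro h
      apply hx
      have h1 : z.re = 0 := by rw [h]; rfl
      have h2 : z.im = 0 := by rw [h]; rfl
      ext i
      fin_cases i
      · exact h1
      · exact h2
    have hδ : 0 < dl n := by
      unfold dl
      positivity
    set k : ℤ := round (z.arg / dl n) with hk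
    refine ⟨(k : ZMod n), ?_⟩
    rw [C0b_dir, C0b_inner]
    have hre : x 0 = ‖z‖ * Real.cos z.arg := (Complex.norm_mul_cos_arg z).symm
    have him : x 1 = ‖z‖ * Real.sin z.arg := (Complex.norm_mul_sin_arg z).symm
    have h1 : x 0 * Real.cos (dl n * k) + x 1 * Real.sin (dl n * k) =
        ‖z‖ * Real.cos (z.arg - dl n * k) := by
      rw [hre, him, Real.cos_sub]
      ring
    rw [h1]
    refine mul_pos (norm_pos_iff.2 hz0) (Real.cos_pos_of_mem_Ioo ?_)
    have h2 : |z.arg / dl n - k| ≤ 1 / 2 := abs_sub_round _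
    have h4 : |z.arg - dl n * k| ≤ dl n / 2 := by
      have h5 : z.arg - dl n * k = dl n * (z.arg / dl n - k) := by
        field_simp
      rw [h5, abs_mul, abs_of_pos hδ]
      have := mul_le_mul_of_nonneg_left h2 hδ.le
      linarith
    have h6 : dl n / 2 < Real.pi / 2 := by
      unfold dl
      have h7 : (2 : ℝ) < n := by exact_mod_cast (by omega : 2 < n)
      have h8 : 2 * Real.pi / n < Real.pi := by
        rw [div_lt_iff₀ hn0]
        nlinarith
      linarith
    have h9 := abs_le.1 h4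
    exact ⟨by linarith [h9.1], by linarith [h9.2]⟩

end Pool.Agent.Lib.MP_1dedaf_gt.LB
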