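import Pool.Agent.Lib.MP_1dedaf_gt.Mg.G001

/-!
# TASK LB C0c: the regular directions are nested and dense

(`dir_nest`) take `i' = 3 * i.val`: `dl (3^(j+1)) * (3 i) = dl (3^j) * i` (and `3 * i.val < 3^(j+1)`). (`dir_dense`) `v = (cos φ, sin φ)`, `0 ≤ φ < 2π`; with
`i = ⌊φ 3^j / (2π)⌋ < 3^j` the angle `dl * i` differs from `φ` by at most `2π/3^j`, and `‖dir i - v‖ ≤ |angle difference| * 2`.
-/

set_option autoImplicit false

open MeasureTheory Set Filter Topology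

namespace Pool.Agent.Lib.MP_1dedaf_gt.LB

theorem dir_nest (j : ℕ) (i : ZMod (3 ^ j)) : ∃ i' : ZMod (3 ^ (j + 1)), dir (3 ^ (j + 1)) i' = dir (3 ^ j) i := by
  have hne : NeZero (3 ^ j) := ⟨by positivity⟩
  have hlt : i.val < 3 ^ j := ZMod.val_lt i
  refine ⟨((3 * i.val : ℕ) : ZMod (3 ^ (j + 1))), ?_⟩
  have hv : (((3 * i.val : ℕ) : ZMod (3 ^ (j + 1)))).val = 3 * i.val := by
    rw [ZMod.val_natCast, Nat.mod_eq_of_lt]
    rw [pow_succ]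
    omega
  have ha : dl (3 ^ (j + 1)) * (((((3 * i.val : ℕ) : ZMod (3 ^ (j + 1)))).val : ℕ) : ℝ) = dl (3 ^ j) * (i.val : ℝ) := by
    rw [hv]
    unfold dl
    push_cast
    rw [pow_succ]
    field_simp
  unfold dir
  rw [ha]

private theorem C0c_angle (v : E2) (hv : ‖v‖ = 1) :
    ∃ φ : ℝ, 0 ≤ φ ∧ φ < 2 * Real.pi ∧ v 0 = Real.cos φ ∧ v 1 = Real.sin φ := by
  have h2 : v 0 ^ 2 + v 1 ^ 2 = 1 := by
    have h := EuclideanSpace.norm_sq_eq v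
    rw [hv, Fin.sum_univ_two] at h
    simp only [Real.norm_eq_abs, sq_abs] at h
    linarith
  set z : ℂ := ⟨v 0, v 1⟩ with hz
  have hz1 : ‖z‖ = 1 := by
    rw [Complex.norm_def, Complex.normSq_mk]
    rw [show v 0 * v 0 + v 1 * v 1 = 1 by nlinarith]
    exact Real.sqrt_one
  have hz0 : z ≠ 0 := by
    intro h
    rw [h, norm_zero] at hz1
    exact zero_ne_one hz1
  have hc : Real.cos z.arg = v 0 := by
    rw [Complex.cos_arg hz0, hz1, div_one]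
  have hs : Real.sin z.arg = v 1 := by
    rw [Complex.sin_arg, hz1, div_one]
  have hp := Real.pi_pos
  by_cases h0 : 0 ≤ z.arg
  · exact ⟨z.arg, h0, lt_of_le_of_lt (Complex.arg_le_pi z) (by linarith), hc.symm, hs.symm⟩
  · push Not at h0
    refine ⟨z.arg + 2 * Real.pi, ?_, by linarith, ?_, ?_⟩
    · have := Complex.neg_pi_lt_arg z
      linarith
    · rw [Real.cos_add_two_pi, hc]
    · rw [Real.sin_add_two_pi, hs]

theorem dir_dense (v : E2) (hv : ‖v‖ = 1) (ε : ℝ) (hε : 0 < ε) : ∃ J : ℕ, ∀ j, J ≤ j → ∃ i : ZMod (3 ^ j), ‖dir (3 ^ j) i - v‖ < ε := by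
  obtain ⟨φ, h0, h2, hc, hs⟩ := C0c_angle v hv
  have hp := Real.pi_pos
  obtain ⟨J, hJ⟩ := exists_pow_lt_of_lt_one (show 0 < ε / (2 * Real.pi) by positivity)
    (show (1 / 3 : ℝ) < 1 by norm_num)
  refine ⟨J, fun j hj => ?_⟩
  have h3 : (0:ℝ) < 3 ^ j := by positivity
  set x : ℝ := φ * 3 ^ j / (2 * Real.pi) with hx
  have hx0 : 0 ≤ x := by positivity
  have hx1 : x < 3 ^ j := by
    rw [hx, div_lt_iff₀ (by positivity)]
    nlinarith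
  have hm1 : ((⌊x⌋₊ : ℕ) : ℝ) ≤ x := Nat.floor_le hx0
  have hm2 : x < ((⌊x⌋₊ : ℕ) : ℝ) + 1 := Nat.lt_floor_add_one x
  have hm3 : ⌊x⌋₊ < 3 ^ j := by
    have : ((⌊x⌋₊ : ℕ) : ℝ) < ((3 ^ j : ℕ) : ℝ) := by
      push_cast
      linarith
    exact_mod_cast this
  refine ⟨((⌊x⌋₊ : ℕ) : ZMod (3 ^ j)), ?_⟩
  have hval : (((⌊x⌋₊ : ℕ) : ZMod (3 ^ j))).val = ⌊x⌋₊ := by
    rw [ZMod.val_natCast, Nat.mod_eq_of_lt hm3]
  set a : ℝ := dl (3 ^ j) * ((⌊x⌋₊ : ℕ) : ℝ) with ha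
  have hdl : dl (3 ^ j) = 2 * Real.pi / 3 ^ j := by
    unfold dl
    push_cast
    rfl
  have hφ : φ = dl (3 ^ j) * x := by
    rw [hdl, hx]
    field_simp
  have hdlpos : 0 < dl (3 ^ j) := by
    rw [hdl]
    positivity
  have hd1 : 0 ≤ φ - a := by
    rw [hφ, ha]
    nlinarith
  have hd2 : φ - a ≤ dl (3 ^ j) := by
    rw [hφ, ha]
    nlinarith
  have hdl2 : dl (3 ^ j) < ε := by
    rw [hdl]
    have h4 : (1 / 3 : ℝ) ^ j ≤ (1 / 3 : ℝ) ^ J := pow_le_pow_of_le_one (by norm_num) (by norm_num) hj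
    have h5 : (1 / 3 : ℝ) ^ j < ε / (2 * Real.pi) := lt_of_le_of_lt h4 hJ
    rw [lt_div_iff₀ (by positivity)] at h5
    rw [one_div_pow, one_div_mul_eq_div] at h5
    exact h5
  have hnorm : ‖dir (3 ^ j) ((⌊x⌋₊ : ℕ) : ZMod (3 ^ j)) - v‖ ^ 2 ≤ (φ - a) ^ 2 := by
    rw [EuclideanSpace.norm_sq_eq, Fin.sum_univ_two]
    simp only [Real.norm_eq_abs, sq_abs]
    have e0 : (dir (3 ^ j) ((⌊x⌋₊ : ℕ) : ZMod (3 ^ j)) - v) 0 = Real.cos a - Real.cos φ := by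
      rw [PiLp.sub_apply, hc]
      unfold dir
      rw [hval]
      simp [ha]
    have e1 : (dir (3 ^ j) ((⌊x⌋₊ : ℕ) : ZMod (3 ^ j)) - v) 1 = Real.sin a - Real.sin φ := by
      rw [PiLp.sub_apply, hs]
      unfold dir
      rw [hval]
      simp [ha]
    rw [e0, e1]
    have h6 := Real.one_sub_sq_div_two_le_cos (x := φ - a)
    rw [Real.cos_sub] at h6
    nlinarith [Real.sin_sq_add_cos_sq a, Real.sin_sq_add_cos_sq φ]
  have h7 : ‖dir (3 ^ j) ((⌊x⌋₊ : ℕ) : ZMod (3 ^ j)) - v‖ ≤ φ - a :=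
    le_of_sq_le_sq hnorm hd1
  linarith

end Pool.Agent.Lib.MP_1dedaf_gt.LB
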