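import Pool.Agent.Lib.MP_1dedaf_gt.Mg.G052
import Pool.Agent.Lib.MP_1dedaf_gt.Mg.G040

/-!
# TASK LB E1a: the gauge function of a body

Mathlib: `gauge_le_one_iff_mem_closure`, `gauge_pos`, `Convex.lipschitzWith_gauge` (a ball around `0` is in `B`), Rademacher's theorem
`LipschitzWith.ae_differentiableAt`. (`inner_le_gauge`) for `x ≠ 0` the point `(gauge B x)⁻¹ • x` is in `B`, so `<x, u> / gauge B x ≤ hs B u`.
(`gauge_bounds`) `B` contains a ball and is contained in a ball around `0`.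
-/

set_option autoImplicit false

open MeasureTheory Set Filter Topology

namespace Pool.Agent.Lib.MP_1dedaf_gt.LB

private theorem E1a_nhds {B : Set E2} (hB : Body B) : B ∈ 𝓝 (0 : E2) := mem_interior_iff_mem_nhds.mp hB.zero

private theorem E1a_abs {B : Set E2} (hB : Body B) : Absorbent ℝ B := absorbent_nhds_zero (E1a_nhds hB)

theorem gauge_le_one_iff' {B : Set E2} (hB : Body B) (x : E2) : gauge B x ≤ 1 ↔ x ∈ B := by
  rw [gauge_le_one_iff_mem_closure hB.conv (E1a_nhds hB), hB.comp.isClosed.closure_eq]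

theorem gauge_cont' {B : Set E2} (hB : Body B) : Continuous (gauge B) := by
  exact continuous_gauge hB.conv (E1a_nhds hB)

theorem gauge_pos' {B : Set E2} (hB : Body B) {x : E2} (hx : x ≠ 0) : 0 < gauge B x := by
  exact (gauge_pos (E1a_abs hB) (NormedSpace.isVonNBounded_of_isBounded ℝ hB.comp.isBounded)).mpr hx

theorem gauge_bounds {B : Set E2} (hB : Body B) : ∃ a b : ℝ, 0 < a ∧ 0 < b ∧ ∀ x : E2, a * ‖x‖ ≤ gauge B x ∧ gauge B x ≤ b * ‖x‖ := by
  obtain ⟨r, hr0, hr⟩ := Metric.mem_nhds_iff.mp (E1a_nhds hB)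
  obtain ⟨R, hR0, hR⟩ := hB.comp.isBounded.subset_closedBall_lt 0 0
  refine ⟨1 / R, 1 / r, by positivity, by positivity, fun x => ⟨?_, ?_⟩⟩
  · have h := le_gauge_of_subset_closedBall (x := x) (E1a_abs hB) hR0.le hR
    calc 1 / R * ‖x‖ = ‖x‖ / R := by ring
      _ ≤ gauge B x := h
  · have h := mul_gauge_le_norm (x := x) hr
    rw [one_div, ← div_eq_inv_mul, le_div_iff₀ hr0]
    linarith

theorem inner_le_gauge {B : Set E2} (hB : Body B) (x u : E2) : inner ℝ x u ≤ gauge B x * hs B u := by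
  rcases eq_or_ne x 0 with rfl | hx
  · simp
  · have hg := gauge_pos' hB hx
    have hmem : (gauge B x)⁻¹ • x ∈ B := by
      rw [← gauge_le_one_iff' hB, gauge_smul_of_nonneg (inv_nonneg.mpr hg.le), smul_eq_mul,
        inv_mul_cancel₀ hg.ne']
    have h := inner_le_hs hB.comp hmem u
    rw [real_inner_smul_left] at h
    rwa [inv_mul_le_iff₀ hg] at h

theorem good_ae {B : Set E2} (hB : Body B) : ∀ᵐ x ∂(volume : Measure E2), Good B x := by
  obtain ⟨C, hC⟩ := hB.conv.lipschitz_gauge (E1a_nhds hB)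
  have h1 : ∀ᵐ x ∂(volume : Measure E2), DifferentiableAt ℝ (gauge B) x := hC.ae_differentiableAt
  have h2 : ∀ᵐ x ∂(volume : Measure E2), x ≠ 0 := by
    rw [ae_iff]
    simp
  filter_upwards [h1, h2] with x hx1 hx2
  exact ⟨hx2, hx1⟩

end Pool.Agent.Lib.MP_1dedaf_gt.LB
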