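import Pool.Agent.Lib.MP_1dedaf_gt.Mg.G001
import Pool.Agent.Lib.MP_1dedaf_gt.Mg.G040

/-!
# TASK LB S0b: Wulff shapes

Proofs. (`Wu_hs`) `K = Wu (hs K)`: Hahn-Banach (a point outside the closed convex set `K` is strictly separated,
`geometric_hahn_banach_closed_point`, normalise the functional, `InnerProductSpace.toDual`). (`Wu_body`) for `f` continuous and
positive on the unit circle: `Wu f` is an intersection of closed half planes, `min f > 0` gives a ball inside,
`‖x‖ = <x, x/‖x‖> ≤ f (x/‖x‖) ≤ max f` gives boundedness. (`hs_Wu_le`) definition and `hs_le`.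
-/

set_option autoImplicit false

open MeasureTheory Set Filter Topology

namespace Pool.Agent.Lib.MP_1dedaf_gt.LB

theorem Wu_hs {K : Set E2} (hK : Body K) : Wu (hs K) = K := by
  apply Set.Subset.antisymm
  · intro x hx
    by_contra hxK
    obtain ⟨f, c, hfc, hcx⟩ := geometric_hahn_banach_closed_point hK.conv hK.comp.isClosed hxK
    have h0 : (0 : E2) ∈ K := interior_subset hK.zero
    have hc0 : 0 < c := by simpa using hfc 0 h0
    set w : E2 := (InnerProductSpace.toDual ℝ E2).symm f with hw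
    have hfw : ∀ y : E2, inner ℝ y w = f y := by
      intro y
      rw [real_inner_comm, hw]
      exact InnerProductSpace.toDual_symm_apply
    have hw0 : w ≠ 0 := by
      intro h
      have h1 := hfw x
      rw [h, inner_zero_right] at h1
      linarith
    have hwp : 0 < ‖w‖ := norm_pos_iff.mpr hw0
    have hv : ‖(‖w‖⁻¹ • w)‖ = 1 := by
      rw [norm_smul, norm_inv, norm_norm, inv_mul_cancel₀ hwp.ne']
    have h1 : inner ℝ x (‖w‖⁻¹ • w) ≤ hs K (‖w‖⁻¹ • w) := hx _ hv
    have h2 : hs K (‖w‖⁻¹ • w) ≤ ‖w‖⁻¹ * c := by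
      apply hs_le ⟨0, h0⟩
      intro y hy
      rw [real_inner_smul_right, hfw y]
      exact mul_le_mul_of_nonneg_left (hfc y hy).le (inv_nonneg.mpr hwp.le)
    rw [real_inner_smul_right, hfw x] at h1
    have h3 : ‖w‖⁻¹ * c < ‖w‖⁻¹ * f x := mul_lt_mul_of_pos_left hcx (inv_pos.mpr hwp)
    linarith
  · intro x hx u _
    exact inner_le_hs hK.comp hx u

theorem Wu_body {f : E2 → ℝ} (hf : ContinuousOn f (Metric.sphere 0 1)) (hp : ∀ u : E2, ‖u‖ = 1 → 0 < f u) : Body (Wu f) := by
  have hcs : IsCompact (Metric.sphere (0 : E2) 1) := isCompact_sphere 0 1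
  have hne : (Metric.sphere (0 : E2) 1).Nonempty := by
    refine ⟨EuclideanSpace.single (0 : Fin 2) (1 : ℝ), ?_⟩
    simp
  refine ⟨?_, ?_, ?_⟩
  · intro x hx y hy a b ha hb hab u hu
    rw [inner_add_left, real_inner_smul_left, real_inner_smul_left]
    have h1 := mul_le_mul_of_nonneg_left (hx u hu) ha
    have h2 := mul_le_mul_of_nonneg_left (hy u hu) hb
    have h3 : f u = a * f u + b * f u := by rw [← add_mul, hab, one_mul]
    linarith
  · obtain ⟨v, hv, hmax⟩ := hcs.exists_isMaxOn hne hf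
    apply Metric.isCompact_of_isClosed_isBounded
    · have : Wu f = ⋂ u : E2, ⋂ _ : ‖u‖ = 1, {x : E2 | inner ℝ x u ≤ f u} := by
        ext x
        simp [Wu]
      rw [this]
      apply isClosed_iInter
      intro u
      apply isClosed_iInter
      intro _
      exact isClosed_le (by fun_prop) continuous_const
    · rw [isBounded_iff_forall_norm_le]
      refine ⟨f v, fun x hx => ?_⟩
      have hvp : 0 < f v := hp v (by simpa using hv)
      by_cases hx0 : x = 0
      · rw [hx0, norm_zero]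
        exact hvp.le
      · have hxp : 0 < ‖x‖ := norm_pos_iff.mpr hx0
        have hn : ‖(‖x‖⁻¹ • x)‖ = 1 := by
          rw [norm_smul, norm_inv, norm_norm, inv_mul_cancel₀ hxp.ne']
        have h1 := hx _ hn
        have h2 : f (‖x‖⁻¹ • x) ≤ f v := hmax (by simpa using hn)
        rw [real_inner_smul_right, real_inner_self_eq_norm_sq] at h1
        have h3 : ‖x‖⁻¹ * ‖x‖ ^ 2 = ‖x‖ := by
          field_simp
        linarith
  · obtain ⟨v, hv, hmin⟩ := hcs.exists_isMinOn hne hf
    have hvp : 0 < f v := hp v (by simpa using hv)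
    rw [mem_interior_iff_mem_nhds, Metric.mem_nhds_iff]
    refine ⟨f v, hvp, fun x hx u hu => ?_⟩
    have hx' : ‖x‖ < f v := by simpa using hx
    have h1 : inner ℝ x u ≤ ‖x‖ * ‖u‖ := real_inner_le_norm x u
    have h2 : f v ≤ f u := hmin (by simpa using hu)
    rw [hu, mul_one] at h1
    linarith

theorem hs_Wu_le {f : E2 → ℝ} (hf : ContinuousOn f (Metric.sphere 0 1)) (hp : ∀ u : E2, ‖u‖ = 1 → 0 < f u) {u : E2}
    (hu : ‖u‖ = 1) : hs (Wu f) u ≤ f u := by
  apply hs_le ⟨0, interior_subset (Wu_body hf hp).zero⟩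
  intro y hy
  exact hy u hu

end Pool.Agent.Lib.MP_1dedaf_gt.LB
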