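import Pool.Agent.Lib.MP_1dedaf_gt.Mg.G001
import Pool.Agent.Lib.MP_1dedaf_gt.Mg.G040

/-!
# TASK LB S0c: areas, Minkowski sums

Proofs. (`ar_pos`) interior not empty, compact. (`ar_mono`) finite measure. (`ar_smul`) `Measure.addHaar_smul`, dimension 2 (for `r = 0` both
sides vanish). (`smul_body`, `add_body`) sums and dilates of compact convex sets are compact and convex, `0` is interior (a neighbourhood of
`0` in `K` is in `K + C`); the support function of a sum is the sum (supremum over pairs).
(`eq_of_ar`) if `x ∈ C`, `x ∉ K` then, `K` being closed, a ball `ball x ε` misses `K`; `C` has an interior point `z` and the points of the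
segment from `z` to `x` (without `x`) are interior (`Convex.openSegment_interior_self_subset_interior` or similar), so `C ∩ ball x ε` has a
nonempty interior and `ar K + (positive) ≤ ar C`.
-/

set_option autoImplicit false

open MeasureTheory Set Filter Topology

namespace Pool.Agent.Lib.MP_1dedaf_gt.LB

open scoped Pointwise

private lemma S0c_ne {K : Set E2} (hK : Body K) : K.Nonempty := ⟨0, interior_subset hK.zero⟩

theorem ar_pos {K : Set E2} (hK : Body K) : 0 < ar K := by
  unfold ar
  refine ENNReal.toReal_pos ?_ hK.comp.measure_lt_top.ne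
  have h1 : 0 < volume (interior K) := isOpen_interior.measure_pos volume ⟨0, hK.zero⟩
  exact (lt_of_lt_of_le h1 (measure_mono interior_subset)).ne'

theorem ar_mono {K C : Set E2} (hC : Body C) (h : K ⊆ C) : ar K ≤ ar C := by
  unfold ar
  exact ENNReal.toReal_mono hC.comp.measure_lt_top.ne (measure_mono h)

theorem ar_smul {K : Set E2} {r : ℝ} (hr : 0 ≤ r) : ar (r • K) = r ^ 2 * ar K := by
  unfold ar
  rw [Measure.addHaar_smul]
  have h2 : Module.finrank ℝ E2 = 2 := by simp
  rw [h2, ENNReal.toReal_mul, abs_of_nonneg (by positivity), ENNReal.toReal_ofReal (by positivity)]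

theorem smul_body {K : Set E2} (hK : Body K) {r : ℝ} (hr : 0 < r) : Body (r • K) ∧ ∀ u, hs (r • K) u = r * hs K u := by
  refine ⟨⟨hK.conv.smul r, hK.comp.smul r, ?_⟩, ?_⟩
  · rw [interior_smul₀ hr.ne' K]
    exact ⟨0, hK.zero, by simp⟩
  · intro u
    have hcr : IsCompact (r • K) := hK.comp.smul r
    have hne : (r • K).Nonempty := (S0c_ne hK).smul_set
    apply le_antisymm
    · apply hs_le hne
      rintro y ⟨z, hz, rfl⟩
      show inner ℝ (r • z) u ≤ r * hs K u
      rw [real_inner_smul_left]
      exact mul_le_mul_of_nonneg_left (inner_le_hs hK.comp hz u) hr.le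
    · obtain ⟨y, hy, hyu⟩ := hs_attained hK.comp (S0c_ne hK) u
      rw [← hyu, ← real_inner_smul_left]
      exact inner_le_hs hcr (Set.smul_mem_smul_set hy) u

theorem add_body {K C : Set E2} (hK : Body K) (hC : Body C) : Body (K + C) ∧ ∀ u, hs (K + C) u = hs K u + hs C u := by
  refine ⟨⟨hK.conv.add hC.conv, hK.comp.add hC.comp, ?_⟩, ?_⟩
  · have h1 : interior K ⊆ K + C := by
      intro x hx
      exact ⟨x, interior_subset hx, 0, interior_subset hC.zero, by simp⟩
    exact interior_maximal h1 isOpen_interior hK.zero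
  · intro u
    have hcr : IsCompact (K + C) := hK.comp.add hC.comp
    have hne : (K + C).Nonempty := (S0c_ne hK).add (S0c_ne hC)
    apply le_antisymm
    · apply hs_le hne
      rintro y ⟨a, ha, b, hb, rfl⟩
      show inner ℝ (a + b) u ≤ _
      rw [inner_add_left]
      exact add_le_add (inner_le_hs hK.comp ha u) (inner_le_hs hC.comp hb u)
    · obtain ⟨a, ha, hau⟩ := hs_attained hK.comp (S0c_ne hK) u
      obtain ⟨b, hb, hbu⟩ := hs_attained hC.comp (S0c_ne hC) u
      rw [← hau, ← hbu, ← inner_add_left]
      exact inner_le_hs hcr (Set.add_mem_add ha hb) u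

/-- A body inside a body of the same area is equal to it. -/
theorem eq_of_ar {K C : Set E2} (hK : Body K) (hC : Body C) (h : K ⊆ C) (ha : ar C ≤ ar K) : K = C := by
  apply Set.Subset.antisymm h
  intro x hx
  by_contra hxK
  have hopen : IsOpen (Kᶜ) := hK.comp.isClosed.isOpen_compl
  -- the open set interior C ∩ Kᶜ is not empty
  have hcl : x ∈ closure (interior C) := by
    have hce : closure (interior C) = closure C :=
      hC.conv.closure_interior_eq_closure_of_nonempty_interior ⟨0, hC.zero⟩
    rw [hce]
    exact subset_closure hx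
  obtain ⟨y, hyK, hyC⟩ := mem_closure_iff.1 hcl Kᶜ hopen hxK
  have hU : IsOpen (Kᶜ ∩ interior C) := hopen.inter isOpen_interior
  have hpos : 0 < volume (Kᶜ ∩ interior C) := hU.measure_pos volume ⟨y, hyK, hyC⟩
  have hsub : K ∪ (Kᶜ ∩ interior C) ⊆ C := by
    rintro z (hz | hz)
    · exact h hz
    · exact interior_subset hz.2
  have hdisj : Disjoint K (Kᶜ ∩ interior C) := by
    rw [Set.disjoint_left]
    intro z hz hz'
    exact hz'.1 hz
  have hsum : volume K + volume (Kᶜ ∩ interior C) ≤ volume C := by
    rw [← measure_union hdisj hU.measurableSet]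
    exact measure_mono hsub
  have hCf : volume C ≠ ⊤ := hC.comp.measure_lt_top.ne
  have hKf : volume K ≠ ⊤ := hK.comp.measure_lt_top.ne
  have hle : volume C ≤ volume K := (ENNReal.toReal_le_toReal hCf hKf).1 ha
  have h2 : volume K + volume (Kᶜ ∩ interior C) ≤ volume K + 0 := by
    rw [add_zero]; exact hsum.trans hle
  have h3 : volume (Kᶜ ∩ interior C) ≤ 0 := (ENNReal.add_le_add_iff_left hKf).1 h2
  exact absurd (lt_of_lt_of_le hpos h3) (lt_irrefl _)

end Pool.Agent.Lib.MP_1dedaf_gt.LB
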