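import Pool.Agent.Lib.MP_1dedaf_gt.Mg.G001
import Pool.Agent.Lib.MP_1dedaf_gt.Mg.G051

/-!
# TASK LB D0: the centering tilt

Proof. Let `ball 0 (2r) ⊆ K`, `Λ c = ∫_K exp <c, x> dx`, continuous. For `c ≠ 0` the disc of radius `r/2` around `r c/‖c‖` is in `K` and
`<c, x> ≥ (r/2) ‖c‖` on it, so `Λ c ≥ (area of the disc) exp (r ‖c‖ / 2)` tends to infinity as `‖c‖ → ∞`. So `Λ` has a minimum at some `θ`; it is differentiable with
`DΛ(θ) v = ∫_K exp <θ, x> <v, x>` (differentiation under the integral), so `<v, ∫_K exp <θ,x> • x> = 0` for all `v`.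
(`tilt_le`) `1 ≤ exp <θ,x> ·(...)`: `1 = exp <θ,x> exp(-<θ,x>) ≥ exp <θ,x> (1 - <θ,x>)`, integrate:
`area ≥ ∫ exp <θ,x> - <θ, ∫ exp <θ,x> • x> = ∫ exp <θ,x>`.
(`jensen_area`) if `∫_K x = 0` then `∫_K exp <c,x> ≥ ∫_K (1 + <c,x>) = area`.
-/

set_option autoImplicit false

open MeasureTheory Set Filter Topology

namespace Pool.Agent.Lib.MP_1dedaf_gt.LB

private theorem D0_int {K : Set E2} (hK : Body K) {F : Type*} [NormedAddCommGroup F] {f : E2 → F} (hf : Continuous f) :
    IntegrableOn f K := hf.continuousOn.integrableOn_compact hK.comp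

private theorem D0_low {K : Set E2} (hK : Body K) : ∃ V : ℝ, 0 < V ∧ ∀ c : E2, V * ‖c‖ ≤ ∫ x in K, Real.exp (inner ℝ c x) := by
  obtain ⟨s, hs0, hs⟩ := Metric.mem_nhds_iff.1 (mem_interior_iff_mem_nhds.1 hK.zero)
  obtain ⟨r, hr⟩ : ∃ r, r = s / 2 := ⟨_, rfl⟩
  have hr0 : 0 < r := by rw [hr]; linarith
  have hV0 : 0 < volume.real (Metric.ball (0 : E2) (r / 2)) := by
    apply ENNReal.toReal_pos
    · exact (Metric.measure_ball_pos volume (0 : E2) (by linarith)).ne'
    · exact measure_ball_lt_top.ne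
  refine ⟨volume.real (Metric.ball (0 : E2) (r / 2)) * (r / 2), by positivity, ?_⟩
  intro c
  have hpos : ∀ x : E2, 0 ≤ Real.exp (inner ℝ c x) := fun x => (Real.exp_pos _).le
  rcases eq_or_ne c 0 with hc | hc
  · rw [hc, norm_zero, mul_zero]
    exact integral_nonneg fun x => (Real.exp_pos _).le
  have hc0 : 0 < ‖c‖ := norm_pos_iff.2 hc
  obtain ⟨p, hp⟩ : ∃ p : E2, p = (r / ‖c‖) • c := ⟨_, rfl⟩
  have hpn : ‖p‖ = r := by
    rw [hp, norm_smul, Real.norm_of_nonneg (by positivity)]
    field_simp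
  have hsub : Metric.ball p (r / 2) ⊆ K := by
    intro x hx
    apply hs
    rw [Metric.mem_ball, dist_zero_right]
    rw [Metric.mem_ball, dist_eq_norm] at hx
    have e : x = (x - p) + p := by abel
    calc ‖x‖ = ‖(x - p) + p‖ := by rw [← e]
      _ ≤ ‖x - p‖ + ‖p‖ := norm_add_le _ _
      _ < s := by rw [hpn]; linarith
  have hin : ∀ x ∈ Metric.ball p (r / 2), r / 2 * ‖c‖ ≤ Real.exp (inner ℝ c x) := by
    intro x hx
    rw [Metric.mem_ball, dist_eq_norm] at hx
    have e1 : inner ℝ c x = inner ℝ c p + inner ℝ c (x - p) := by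
      rw [← inner_add_right]; congr 1; abel
    have e2 : inner ℝ c p = r * ‖c‖ := by
      rw [hp, inner_smul_right, real_inner_self_eq_norm_sq]
      field_simp
    have e3 : -(‖c‖ * (r / 2)) ≤ inner ℝ c (x - p) := by
      have h1 := abs_real_inner_le_norm c (x - p)
      have h2 : ‖c‖ * ‖x - p‖ ≤ ‖c‖ * (r / 2) := mul_le_mul_of_nonneg_left hx.le hc0.le
      have h3 := (abs_le.1 h1).1
      linarith
    have e4 : r / 2 * ‖c‖ ≤ inner ℝ c x := by rw [e1, e2]; linarith
    have e5 := Real.add_one_le_exp (inner ℝ c x)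
    linarith
  have hcont : Continuous (fun x : E2 => Real.exp (inner ℝ c x)) := by fun_prop
  calc volume.real (Metric.ball (0 : E2) (r / 2)) * (r / 2) * ‖c‖
      = ∫ _ in Metric.ball p (r / 2), r / 2 * ‖c‖ := by
        rw [setIntegral_const, smul_eq_mul]
        have : volume.real (Metric.ball p (r / 2)) = volume.real (Metric.ball (0 : E2) (r / 2)) := by
          unfold Measure.real
          rw [Measure.addHaar_ball_center]
        rw [this]; ring
    _ ≤ ∫ x in Metric.ball p (r / 2), Real.exp (inner ℝ c x) := by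
        apply setIntegral_mono_on _ _ measurableSet_ball hin
        · exact integrableOn_const measure_ball_lt_top.ne
        · exact (D0_int hK hcont).mono_set hsub
    _ ≤ ∫ x in K, Real.exp (inner ℝ c x) :=
        setIntegral_mono_set (D0_int hK hcont) (Eventually.of_forall hpos) (Eventually.of_forall hsub)

theorem exists_tilt {K : Set E2} (hK : Body K) : ∃ θ : E2, ∫ x in K, Real.exp (inner ℝ θ x) • x = 0 := by
  obtain ⟨V, hV0, hV⟩ := D0_low hK
  obtain ⟨Λ, hΛ⟩ : ∃ Λ : E2 → ℝ, Λ = fun c => ∫ x in K, Real.exp (inner ℝ c x) := ⟨_, rfl⟩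
  have hcΛ : Continuous Λ := by
    rw [hΛ]
    apply continuous_parametric_integral_of_continuous _ hK.comp
    fun_prop
  have hmin : ∃ θ, ∀ c, Λ θ ≤ Λ c := by
    obtain ⟨M, hM⟩ : ∃ M, M = Λ 0 / V := ⟨_, rfl⟩
    have hΛ0 : 0 ≤ Λ 0 := by
      rw [hΛ]
      exact integral_nonneg fun x => (Real.exp_pos _).le
    have hM0 : 0 ≤ M := by rw [hM]; positivity
    obtain ⟨θ, hθ, hmin⟩ := (isCompact_closedBall (0 : E2) M).exists_isMinOn ⟨0, Metric.mem_closedBall_self hM0⟩
      hcΛ.continuousOn
    refine ⟨θ, fun c => ?_⟩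
    by_cases hc : c ∈ Metric.closedBall (0 : E2) M
    · exact hmin hc
    · rw [Metric.mem_closedBall, dist_zero_right, not_le] at hc
      have h1 : Λ θ ≤ Λ 0 := hmin (Metric.mem_closedBall_self hM0)
      have h2 : V * ‖c‖ ≤ Λ c := by rw [hΛ]; exact hV c
      have h3 : Λ 0 = V * M := by rw [hM]; field_simp
      have h4 := mul_lt_mul_of_pos_left hc hV0
      linarith
  obtain ⟨θ, hθ⟩ := hmin
  refine ⟨θ, ?_⟩
  obtain ⟨R, hR⟩ := hK.comp.isBounded.exists_norm_le
  have hcx : Continuous (fun x : E2 => Real.exp (inner ℝ θ x) • x) := by fun_prop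
  have hmeas : MeasurableSet K := hK.comp.measurableSet
  have hfin : volume K ≠ ⊤ := hK.comp.measure_lt_top.ne
  have : IsFiniteMeasure (volume.restrict K) := ⟨by rw [Measure.restrict_apply_univ]; exact hK.comp.measure_lt_top⟩
  -- the derivative in the direction v
  have hder : ∀ v : E2, inner ℝ v (∫ x in K, Real.exp (inner ℝ θ x) • x) = 0 := by
    intro v
    have hd := hasDerivAt_integral_of_dominated_loc_of_deriv_le (μ := volume.restrict K) (𝕜 := ℝ)
      (F := fun (t : ℝ) (x : E2) => Real.exp (inner ℝ (θ + t • v) x))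
      (F' := fun (t : ℝ) (x : E2) => Real.exp (inner ℝ (θ + t • v) x) * inner ℝ v x) (x₀ := (0 : ℝ))
      (s := Metric.ball (0 : ℝ) 1) (bound := fun _ => Real.exp ((‖θ‖ + ‖v‖) * R) * (‖v‖ * R))
      (Metric.ball_mem_nhds _ one_pos) ?_ ?_ ?_ ?_ ?_ ?_
    · have hd2 := hd.2
      simp only [zero_smul, add_zero] at hd2
      have hloc : IsLocalMin (fun t : ℝ => ∫ x in K, Real.exp (inner ℝ (θ + t • v) x)) 0 := by
        apply Eventually.of_forall
        intro t
        have h1 := hθ (θ + t • v)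
        rw [hΛ] at h1
        simpa using h1
      have h0 := hloc.hasDerivAt_eq_zero hd2
      rw [← integral_inner (D0_int hK hcx), ← h0]
      apply integral_congr_ae
      refine Eventually.of_forall fun x => ?_
      simp only [inner_smul_right]
    · refine Eventually.of_forall fun t => ?_
      have : Continuous (fun x : E2 => Real.exp (inner ℝ (θ + t • v) x)) := by fun_prop
      exact this.aestronglyMeasurable
    · have : Continuous (fun x : E2 => Real.exp (inner ℝ (θ + (0 : ℝ) • v) x)) := by fun_prop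
      exact D0_int hK this
    · have : Continuous (fun x : E2 => Real.exp (inner ℝ (θ + (0 : ℝ) • v) x) * inner ℝ v x) := by fun_prop
      exact this.aestronglyMeasurable
    · rw [ae_restrict_iff' hmeas]
      refine Eventually.of_forall fun x hx t ht => ?_
      have hxR := hR x hx
      have hR0 : 0 ≤ R := (norm_nonneg _).trans hxR
      rw [Metric.mem_ball, dist_zero_right, Real.norm_eq_abs] at ht
      rw [Real.norm_eq_abs, abs_mul, abs_of_pos (Real.exp_pos _)]
      have h1 : inner ℝ (θ + t • v) x ≤ (‖θ‖ + ‖v‖) * R := by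
        refine (real_inner_le_norm _ _).trans ?_
        have h2 : ‖θ + t • v‖ ≤ ‖θ‖ + ‖v‖ := by
          refine (norm_add_le _ _).trans ?_
          rw [norm_smul, Real.norm_eq_abs]
          have : |t| * ‖v‖ ≤ 1 * ‖v‖ := mul_le_mul_of_nonneg_right ht.le (norm_nonneg _)
          linarith
        exact mul_le_mul h2 hxR (norm_nonneg _) (by positivity)
      have h3 : |inner ℝ v x| ≤ ‖v‖ * R :=
        (abs_real_inner_le_norm _ _).trans (mul_le_mul_of_nonneg_left hxR (norm_nonneg _))
      exact mul_le_mul (Real.exp_le_exp.2 h1) h3 (abs_nonneg _) (Real.exp_pos _).le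
    · exact integrable_const _
    · refine Eventually.of_forall fun x t _ => ?_
      have h1 : HasDerivAt (fun t : ℝ => inner ℝ (θ + t • v) x) (inner ℝ v x) t := by
        have h2 : (fun t : ℝ => inner ℝ (θ + t • v) x) = fun t => inner ℝ θ x + t * inner ℝ v x := by
          funext t
          rw [inner_add_left, inner_smul_left]
          simp
        rw [h2]
        simpa using ((hasDerivAt_id t).mul_const (inner ℝ v x)).const_add (inner ℝ θ x)
      exact h1.exp
  have h := hder (∫ x in K, Real.exp (inner ℝ θ x) • x)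
  exact inner_self_eq_zero.1 h

theorem tilt_le {K : Set E2} (hK : Body K) {θ : E2} (hθ : ∫ x in K, Real.exp (inner ℝ θ x) • x = 0) :
    ∫ x in K, Real.exp (inner ℝ θ x) ≤ ar K := by
  have hcx : Continuous (fun x : E2 => Real.exp (inner ℝ θ x) • x) := by fun_prop
  have hc1 : Continuous (fun x : E2 => Real.exp (inner ℝ θ x)) := by fun_prop
  have hc2 : Continuous (fun x : E2 => inner ℝ θ (Real.exp (inner ℝ θ x) • x)) := by fun_prop
  have h1 : ∫ x in K, inner ℝ θ (Real.exp (inner ℝ θ x) • x) = 0 := by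
    rw [integral_inner (D0_int hK hcx), hθ, inner_zero_right]
  have h2 : ∫ x in K, (Real.exp (inner ℝ θ x) - inner ℝ θ (Real.exp (inner ℝ θ x) • x)) ≤ ∫ _ in K, (1 : ℝ) := by
    apply setIntegral_mono_on (D0_int hK (hc1.sub hc2)) (D0_int hK continuous_const) hK.comp.measurableSet
    intro x _
    show Real.exp (inner ℝ θ x) - inner ℝ θ (Real.exp (inner ℝ θ x) • x) ≤ 1
    rw [inner_smul_right]
    have h3 := Real.add_one_le_exp (-(inner ℝ θ x))
    have h4 : Real.exp (inner ℝ θ x) * Real.exp (-(inner ℝ θ x)) = 1 := by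
      rw [← Real.exp_add]; simp
    have h5 := mul_le_mul_of_nonneg_left h3 (Real.exp_pos (inner ℝ θ x)).le
    rw [h4] at h5
    linarith
  rw [integral_sub (D0_int hK hc1) (D0_int hK hc2), h1, sub_zero, setIntegral_const, smul_eq_mul, mul_one] at h2
  exact h2

theorem jensen_area {K : Set E2} (hK : Body K) (h0 : ∫ x in K, x = 0) (c : E2) :
    ar K ≤ ∫ x in K, Real.exp (inner ℝ c x) := by
  have hc1 : Continuous (fun x : E2 => Real.exp (inner ℝ c x)) := by fun_prop
  have hc2 : Continuous (fun x : E2 => inner ℝ c x) := by fun_prop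
  have h1 : ∫ x in K, inner ℝ c x = 0 := by
    have h := integral_inner (𝕜 := ℝ) (D0_int hK (continuous_id : Continuous (fun x : E2 => x))) c
    simp only [id] at h
    rw [h0, inner_zero_right] at h
    exact h
  have h2 : ∫ x in K, ((1 : ℝ) + inner ℝ c x) ≤ ∫ x in K, Real.exp (inner ℝ c x) := by
    apply setIntegral_mono_on (D0_int hK (continuous_const.add hc2)) (D0_int hK hc1) hK.comp.measurableSet
    intro x _
    show (1 : ℝ) + inner ℝ c x ≤ Real.exp (inner ℝ c x)
    have h3 := Real.add_one_le_exp (inner ℝ c x)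
    linarith
  rw [integral_add (D0_int hK continuous_const) (D0_int hK hc2), h1, add_zero, setIntegral_const, smul_eq_mul,
    mul_one] at h2
  exact h2

end Pool.Agent.Lib.MP_1dedaf_gt.LB
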