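import Pool.Agent.Lib.MP_1dedaf_gt.Mg.G052
import Pool.Agent.Lib.MP_1dedaf_gt.Mg.G051

/-!
# TASK LB E4a: lower bound for the tilted areas of an almost centered body

Proof. `κ = exp (-R) / 2`: `exp y ≥ 1 + y + κ y²` for `|y| ≤ R`. Let `q > 0` be such that `∫_{ball 0 r} <c, x>² ≥ q ‖c‖²` for all `c` (the ball of radius `r/4` around
`(r/2) c/‖c‖` is in `ball 0 r` and `<c,x> ≥ (r/4) ‖c‖` there), `a = ar (ball 0 r) ≤ ar M`, `g = ∫_M x`. For `‖c‖ ≤ 1`:
`∫_M exp <c,x> ≥ ar M + <c, g> + κ q ‖c‖² ≥ ar M - ‖c‖ ‖g‖ + κ q ‖c‖² ≥ ar M - ‖g‖²/(4 κ q)`. If `‖g‖² / (4 κ q a) ≤ 1/2` then by `log (1 - y) ≥ - 2 y`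
(`0 ≤ y ≤ 1/2`) `log ∫_M exp <c,x> ≥ log (ar M) - ‖g‖²/(2 κ q a)`. For `‖c‖ = 1` and `‖g‖ ≤ κ q`: `∫_M exp <c,x> ≥ ar M`. For `‖c‖ ≥ 1` put `e = c/‖c‖`,
`z = exp <e,x>`: `exp <c,x> = z^‖c‖ ≥ 1 + ‖c‖ (z - 1)` (Bernoulli), so `∫_M exp <c,x> ≥ ar M + ‖c‖ (∫_M exp <e,x> - ar M) ≥ ar M`.
-/

set_option autoImplicit false

open MeasureTheory Set Filter Topology

namespace Pool.Agent.Lib.MP_1dedaf_gt.LB

private lemma E4a_exp {R y : ℝ} (hR : 0 < R) (hy : |y| ≤ R) : 1 + y + 1 / (4 * (1 + R)) * y ^ 2 ≤ Real.exp y := by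
  have hk : (0:ℝ) < 1 / (4 * (1 + R)) := by positivity
  rcases le_or_gt (-2) y with h | h
  · have h1 : 1 + y / 2 ≤ Real.exp (y / 2) := by
      have := Real.add_one_le_exp (y / 2)
      linarith
    have h0 : 0 ≤ 1 + y / 2 := by linarith
    have h2 : (1 + y / 2) ^ 2 ≤ Real.exp (y / 2) ^ 2 := pow_le_pow_left₀ h0 h1 2
    have h3 : Real.exp (y / 2) ^ 2 = Real.exp y := by
      rw [← Real.exp_nat_mul]; congr 1; push_cast; ring
    have h4 : 1 / (4 * (1 + R)) ≤ 1 / 4 := by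
      apply one_div_le_one_div_of_le <;> linarith
    have h5 : 1 / (4 * (1 + R)) * y ^ 2 ≤ 1 / 4 * y ^ 2 := mul_le_mul_of_nonneg_right h4 (sq_nonneg y)
    rw [h3] at h2
    nlinarith
  · have hy1 : -y ≤ R := (neg_le_abs y).trans hy
    have h1 : 1 / (4 * (1 + R)) * y ^ 2 ≤ -y / 4 := by
      rw [div_mul_eq_mul_div, one_mul, div_le_div_iff₀ (by positivity) (by norm_num)]
      nlinarith
    have := Real.exp_pos y
    linarith

private lemma E4a_int {M : Set E2} (hM : Body M) {f : E2 → ℝ} (hf : Continuous f) : IntegrableOn f M :=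
  hf.continuousOn.integrableOn_compact hM.comp

/-- The second moment of a disc. -/
private lemma E4a_moment (r : ℝ) (hr : 0 < r) : ∃ q : ℝ, 0 < q ∧ ∀ M : Set E2, Body M → Metric.ball 0 r ⊆ M → ∀ c : E2,
    q * ‖c‖ ^ 2 ≤ ∫ x in M, (inner ℝ c x) ^ 2 := by
  have hvol : 0 < (volume (Metric.ball (0:E2) (r / 4))).toReal := by
    apply ENNReal.toReal_pos
    · exact (Metric.measure_ball_pos volume (0:E2) (by positivity : (0:ℝ) < r / 4)).ne'
    · exact measure_ball_lt_top.ne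
  refine ⟨(r / 4) ^ 2 * (volume (Metric.ball (0:E2) (r / 4))).toReal, by positivity, ?_⟩
  intro M hM hrM c
  rcases eq_or_ne c 0 with rfl | hc
  · simp
  have hcn : 0 < ‖c‖ := norm_pos_iff.mpr hc
  set p : E2 := (r / 2 / ‖c‖) • c with hp
  have hsub : Metric.ball p (r / 4) ⊆ M := by
    refine Subset.trans ?_ hrM
    intro x hx
    rw [Metric.mem_ball, dist_zero_right]
    rw [Metric.mem_ball, dist_eq_norm] at hx
    have h1 : ‖p‖ = r / 2 := by
      rw [hp, norm_smul, Real.norm_of_nonneg (by positivity)]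
      field_simp
    calc ‖x‖ = ‖(x - p) + p‖ := by rw [sub_add_cancel]
      _ ≤ ‖x - p‖ + ‖p‖ := norm_add_le _ _
      _ < r := by rw [h1]; linarith
  have hcont : Continuous (fun x : E2 => (inner ℝ c x : ℝ) ^ 2) := by fun_prop
  have hI := E4a_int hM hcont
  calc (r / 4) ^ 2 * (volume (Metric.ball (0:E2) (r / 4))).toReal * ‖c‖ ^ 2
      = ∫ x in Metric.ball p (r / 4), ((r / 4) * ‖c‖) ^ 2 := by
        rw [setIntegral_const, smul_eq_mul, measureReal_def]
        have : volume (Metric.ball p (r / 4)) = volume (Metric.ball (0:E2) (r / 4)) := by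
          rw [Measure.addHaar_ball_center]
        rw [this]
        ring
    _ ≤ ∫ x in Metric.ball p (r / 4), (inner ℝ c x) ^ 2 := by
        apply setIntegral_mono_on
        · exact integrableOn_const (measure_ball_lt_top.ne)
        · exact hI.mono_set hsub
        · exact measurableSet_ball
        · intro x hx
          rw [Metric.mem_ball, dist_eq_norm] at hx
          have h1 : (inner ℝ c p : ℝ) = r / 2 * ‖c‖ := by
            rw [hp, inner_smul_right, real_inner_self_eq_norm_sq]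
            field_simp
          have h2 : (inner ℝ c x : ℝ) = inner ℝ c p + inner ℝ c (x - p) := by
            rw [← inner_add_right, add_sub_cancel]
          have h3 : |(inner ℝ c (x - p) : ℝ)| ≤ ‖c‖ * ‖x - p‖ := abs_real_inner_le_norm _ _
          have h4 : -(‖c‖ * (r / 4)) ≤ inner ℝ c (x - p) := by
            have := neg_le_of_abs_le h3
            have h5 : ‖c‖ * ‖x - p‖ ≤ ‖c‖ * (r / 4) := mul_le_mul_of_nonneg_left hx.le hcn.le
            linarith
          have h6 : r / 4 * ‖c‖ ≤ inner ℝ c x := by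
            rw [h2, h1]; linarith
          exact pow_le_pow_left₀ (by positivity) h6 2
    _ ≤ ∫ x in M, (inner ℝ c x) ^ 2 := by
        apply setIntegral_mono_set hI
        · exact Filter.Eventually.of_forall (fun x => sq_nonneg _)
        · exact hsub.eventuallyLE

/-- The quadratic lower bound for short vectors `c`. -/
private lemma E4a_short {R q : ℝ} (hR : 0 < R) {M : Set E2} (hM : Body M) (hMR : M ⊆ Metric.closedBall 0 R)
    {c : E2} (hq : q * ‖c‖ ^ 2 ≤ ∫ x in M, (inner ℝ c x) ^ 2) (hc : ‖c‖ ≤ 1) :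
    ar M - ‖c‖ * ‖∫ x in M, x‖ + 1 / (4 * (1 + R)) * q * ‖c‖ ^ 2 ≤ ∫ x in M, Real.exp (inner ℝ c x) := by
  have hk : (0:ℝ) < 1 / (4 * (1 + R)) := by positivity
  have c1 : Continuous (fun x : E2 => (inner ℝ c x : ℝ)) := by fun_prop
  have c2 : Continuous (fun x : E2 => (inner ℝ c x : ℝ) ^ 2) := by fun_prop
  have c3 : Continuous (fun x : E2 => Real.exp (inner ℝ c x : ℝ)) := by fun_prop
  have i0 : IntegrableOn (fun _ : E2 => (1:ℝ)) M := E4a_int hM continuous_const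
  have i1 := E4a_int hM c1
  have i2 := E4a_int hM c2
  have i3 := E4a_int hM c3
  have hid : IntegrableOn (fun x : E2 => x) M := continuous_id.continuousOn.integrableOn_compact hM.comp
  have h1 : ∫ x in M, ((1 + inner ℝ c x) + 1 / (4 * (1 + R)) * (inner ℝ c x : ℝ) ^ 2) ≤ ∫ x in M, Real.exp (inner ℝ c x) := by
    apply setIntegral_mono_on ((i0.add i1).add (i2.const_mul _)) i3 hM.comp.measurableSet
    intro x hx
    apply E4a_exp hR
    have hx' : ‖x‖ ≤ R := by
      have := hMR hx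
      rwa [Metric.mem_closedBall, dist_zero_right] at this
    calc |(inner ℝ c x : ℝ)| ≤ ‖c‖ * ‖x‖ := abs_real_inner_le_norm _ _
      _ ≤ 1 * R := mul_le_mul hc hx' (norm_nonneg _) zero_le_one
      _ = R := one_mul R
  have h2 : ∫ x in M, ((1 + inner ℝ c x) + 1 / (4 * (1 + R)) * (inner ℝ c x : ℝ) ^ 2) =
      ar M + inner ℝ c (∫ x in M, x) + 1 / (4 * (1 + R)) * ∫ x in M, (inner ℝ c x : ℝ) ^ 2 := by
    have e1 := integral_add (μ := volume.restrict M) (i0.add i1) (i2.const_mul (1 / (4 * (1 + R))))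
    have e2 := integral_add (μ := volume.restrict M) i0 i1
    have e3 : ∫ x in M, (1:ℝ) = ar M := by
      rw [setIntegral_const, smul_eq_mul, mul_one, measureReal_def, ar]
    have e4 : ∫ x in M, (inner ℝ c x : ℝ) = inner ℝ c (∫ x in M, x) := integral_inner hid c
    simp only [Pi.add_apply] at e1
    rw [e1, e2, e3, e4, integral_const_mul]
  have h3 : -(‖c‖ * ‖∫ x in M, x‖) ≤ inner ℝ c (∫ x in M, x) := neg_le_of_abs_le (abs_real_inner_le_norm _ _)
  have h4 := mul_le_mul_of_nonneg_left hq hk.le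
  rw [h2] at h1
  linarith

theorem tilt_lower (r R : ℝ) (hr : 0 < r) (hR : 0 < R) : ∃ C g0 : ℝ, 0 < C ∧ 0 < g0 ∧ ∀ M : Set E2, Body M →
    Metric.ball 0 r ⊆ M → M ⊆ Metric.closedBall 0 R → ‖∫ x in M, x‖ ≤ g0 → ∀ c : E2,
      Real.log (ar M) - C * ‖∫ x in M, x‖ ^ 2 ≤ Real.log (∫ x in M, Real.exp (inner ℝ c x)) := by
  obtain ⟨q, hq, hqM⟩ := E4a_moment r hr
  have hk : (0:ℝ) < 1 / (4 * (1 + R)) := by positivity
  obtain ⟨κ, hκ⟩ : ∃ κ : ℝ, κ = 1 / (4 * (1 + R)) := ⟨_, rfl⟩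
  have hκ0 : 0 < κ := by rw [hκ]; exact hk
  obtain ⟨a, ha⟩ : ∃ a : ℝ, a = (volume (Metric.ball (0:E2) r)).toReal := ⟨_, rfl⟩
  have ha0 : 0 < a := by
    rw [ha]
    apply ENNReal.toReal_pos
    · exact (Metric.measure_ball_pos volume (0:E2) hr).ne'
    · exact measure_ball_lt_top.ne
  refine ⟨1 / (2 * κ * q * a), min (κ * q) (min 1 (2 * κ * q * a)), by positivity, by positivity, ?_⟩
  intro M hM hrM hMR hg c
  obtain ⟨G, hG⟩ : ∃ G : ℝ, G = ‖∫ x in M, x‖ := ⟨_, rfl⟩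
  have hG0 : 0 ≤ G := by rw [hG]; exact norm_nonneg _
  rw [← hG] at hg ⊢
  have hg1 : G ≤ κ * q := hg.trans (min_le_left _ _)
  have hg2 : G ≤ 1 := hg.trans ((min_le_right _ _).trans (min_le_left _ _))
  have hg3 : G ≤ 2 * κ * q * a := hg.trans ((min_le_right _ _).trans (min_le_right _ _))
  have haM : a ≤ ar M := by
    rw [ha, ar]
    exact ENNReal.toReal_mono hM.comp.measure_lt_top.ne (measure_mono hrM)
  have hM0 : 0 < ar M := ha0.trans_le haM
  have hC0 : 0 ≤ 1 / (2 * κ * q * a) * G ^ 2 := by positivity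
  rcases le_or_gt ‖c‖ 1 with hc | hc
  · have h1 := E4a_short hR hM hMR (hqM M hM hrM c) hc
    rw [← hκ, ← hG] at h1
    have h2 : -(G ^ 2 / (4 * κ * q)) ≤ -(‖c‖ * G) + κ * q * ‖c‖ ^ 2 := by
      have h3 : 0 ≤ (2 * κ * q * ‖c‖ - G) ^ 2 / (4 * κ * q) := by positivity
      have h4 : (2 * κ * q * ‖c‖ - G) ^ 2 / (4 * κ * q) = κ * q * ‖c‖ ^ 2 - ‖c‖ * G + G ^ 2 / (4 * κ * q) := by
        field_simp
        ring
      linarith
    have h3 : ar M - G ^ 2 / (4 * κ * q) ≤ ∫ x in M, Real.exp (inner ℝ c x) := by linarith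
    -- `y = G² / (4 κ q ar M) ≤ 1/2`
    obtain ⟨y, hy⟩ : ∃ y : ℝ, y = G ^ 2 / (4 * κ * q) / ar M := ⟨_, rfl⟩
    have hy0 : 0 ≤ y := by rw [hy]; positivity
    have hy1 : y ≤ G ^ 2 / (4 * κ * q) / a := by
      rw [hy]
      exact div_le_div_of_nonneg_left (by positivity) ha0 haM
    have hy2 : G ^ 2 / (4 * κ * q) / a ≤ 1 / 2 := by
      rw [div_div, div_le_div_iff₀ (by positivity) (by norm_num)]
      nlinarith
    have hy3 : y ≤ 1 / 2 := hy1.trans hy2
    have h4 : ar M * (1 - y) ≤ ∫ x in M, Real.exp (inner ℝ c x) := by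
      have : ar M * (1 - y) = ar M - G ^ 2 / (4 * κ * q) := by
        rw [hy]; field_simp
      rw [this]; exact h3
    have h5 : Real.log (ar M * (1 - y)) ≤ Real.log (∫ x in M, Real.exp (inner ℝ c x)) :=
      Real.log_le_log (by apply mul_pos hM0; linarith) h4
    rw [Real.log_mul hM0.ne' (by linarith)] at h5
    have h6 : -(2 * y) ≤ Real.log (1 - y) := by
      have h7 := Real.one_sub_inv_le_log_of_pos (by linarith : 0 < 1 - y)
      have h8 : -(2 * y) ≤ 1 - (1 - y)⁻¹ := by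
        have h9 : (1 - y)⁻¹ ≤ 1 + 2 * y := by
          rw [inv_le_comm₀ (by linarith) (by linarith)]
          rw [inv_le_iff_one_le_mul₀ (by linarith)]
          nlinarith
        linarith
      linarith
    have h10 : 2 * (G ^ 2 / (4 * κ * q) / a) = 1 / (2 * κ * q * a) * G ^ 2 := by
      field_simp
      ring
    linarith
  · -- long vectors
    obtain ⟨e, he⟩ : ∃ e : E2, e = (‖c‖)⁻¹ • c := ⟨_, rfl⟩
    have hc0 : 0 < ‖c‖ := by linarith
    have hen : ‖e‖ = 1 := by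
      rw [he, norm_smul, norm_inv, norm_norm]
      field_simp
    have hce : c = ‖c‖ • e := by
      rw [he, smul_smul, mul_inv_cancel₀ hc0.ne', one_smul]
    have h1 := E4a_short hR hM hMR (hqM M hM hrM e) hen.le
    rw [← hκ, ← hG, hen] at h1
    have h2 : ar M ≤ ∫ x in M, Real.exp (inner ℝ e x) := by linarith
    have c3 : Continuous (fun x : E2 => Real.exp (inner ℝ c x : ℝ)) := by fun_prop
    have c4 : Continuous (fun x : E2 => Real.exp (inner ℝ e x : ℝ)) := by fun_prop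
    have i0 : IntegrableOn (fun _ : E2 => (1 - ‖c‖ : ℝ)) M := E4a_int hM continuous_const
    have i3 := E4a_int hM c3
    have i4 := E4a_int hM c4
    have h3 : ∫ x in M, ((1 - ‖c‖) + ‖c‖ * Real.exp (inner ℝ e x)) ≤ ∫ x in M, Real.exp (inner ℝ c x) := by
      apply setIntegral_mono_on (i0.add (i4.const_mul _)) i3 hM.comp.measurableSet
      intro x _
      have hin : (inner ℝ c x : ℝ) = ‖c‖ * inner ℝ e x := by
        conv_lhs => rw [hce]
        rw [inner_smul_left]; simp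
      rw [hin]
      -- convexity of `exp`
      have ha1 : 0 ≤ 1 - (‖c‖)⁻¹ := by rw [sub_nonneg]; exact inv_le_one_of_one_le₀ hc.le
      have ha2 : 0 ≤ (‖c‖)⁻¹ := by positivity
      have ha3 : (1 - (‖c‖)⁻¹) + (‖c‖)⁻¹ = 1 := by ring
      have hcv := convexOn_exp.2 (mem_univ (0:ℝ)) (mem_univ (‖c‖ * inner ℝ e x : ℝ)) ha1 ha2 ha3
      simp only [smul_eq_mul, mul_zero, zero_add, Real.exp_zero, mul_one] at hcv
      rw [← mul_assoc, inv_mul_cancel₀ hc0.ne', one_mul] at hcv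
      have := mul_le_mul_of_nonneg_left hcv hc0.le
      have h5 : ‖c‖ * (1 - ‖c‖⁻¹ + ‖c‖⁻¹ * Real.exp (‖c‖ * inner ℝ e x)) = ‖c‖ - 1 + Real.exp (‖c‖ * inner ℝ e x) := by
        field_simp
      rw [h5] at this
      simp only [Pi.add_apply]
      linarith
    have h4 : ∫ x in M, ((1 - ‖c‖) + ‖c‖ * Real.exp (inner ℝ e x)) = (1 - ‖c‖) * ar M + ‖c‖ * ∫ x in M, Real.exp (inner ℝ e x) := by
      have e1 := integral_add (μ := volume.restrict M) i0 (i4.const_mul ‖c‖)
      rw [e1, setIntegral_const, integral_const_mul, smul_eq_mul, measureReal_def, ar]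
      ring
    rw [h4] at h3
    have h5 : ar M ≤ ∫ x in M, Real.exp (inner ℝ c x) := by nlinarith
    have h6 := Real.log_le_log hM0 h5
    linarith

end Pool.Agent.Lib.MP_1dedaf_gt.LB
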