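import Pool.Agent.Lib.MP_1dedaf_gt.Mg.G052
import Pool.Agent.Lib.MP_1dedaf_gt.Mg.G051
import Pool.Agent.Lib.MP_1dedaf_gt.LB.E4a

/-!
# TASK LB E4b: perturbations of a centered body are almost centered

Proof. `c = max |ψ|` on the circle, `M = Wu (h_K exp (ε ψ))`, `K_± = exp (± c|ε|) • K`; `K_- ⊆ M ⊆ K_+` (`x ∈ K_-`: `<x,u> ≤ exp(-c|ε|) h_K(u) ≤ h_K(u) exp (ε ψ u)`; for `x ∈ M`,
`<exp(-c|ε|) x, u> ≤ h_K u`, so `exp(-c|ε|) x ∈ Wu (hs K) = K`). `∫_{K_-} x = 0` (scaling), so `∫_M x = ∫_{M \ K_-} x` and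
`‖∫_M x‖ ≤ (sup of ‖x‖ on K_+) (ar K_+ - ar K_-) = exp (c|ε|) R (exp (2c|ε|) - exp (-2c|ε|)) ar K ≤ C |ε|` for `|ε| ≤ 1`. (`tilt_pert`) `tilt_lower` with `r`, `R` such that
`ball 0 r ⊆ exp (-c) • K`, `exp c • K ⊆ closedBall 0 R`.
-/

set_option autoImplicit false

open MeasureTheory Set Filter Topology

namespace Pool.Agent.Lib.MP_1dedaf_gt.LB

open scoped Pointwise

private theorem sandwich {K : Set E2} (hK : Body K) {g : E2 → ℝ} {c : ℝ}
    (hg : ∀ u : E2, ‖u‖ = 1 → |g u| ≤ c) :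
    Real.exp (-c) • K ⊆ Wu (fun u => hs K u * Real.exp (g u)) ∧
      Wu (fun u => hs K u * Real.exp (g u)) ⊆ Real.exp c • K := by
  constructor
  · rintro x ⟨y, hy, rfl⟩ u hu
    have hu0 : u ≠ 0 := by
      intro h
      rw [h, norm_zero] at hu
      norm_num at hu
    have h1 : inner ℝ y u ≤ hs K u := inner_le_hs hK.comp hy u
    have h2 : 0 < hs K u := hs_pos hK hu0
    have h3 : Real.exp (-c) ≤ Real.exp (g u) :=
      Real.exp_le_exp.mpr (by have := (abs_le.mp (hg u hu)).1; linarith)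
    have h4 : inner ℝ (Real.exp (-c) • y) u = Real.exp (-c) * inner ℝ y u := real_inner_smul_left _ _ _
    show inner ℝ (Real.exp (-c) • y) u ≤ hs K u * Real.exp (g u)
    rw [h4]
    calc Real.exp (-c) * inner ℝ y u ≤ Real.exp (-c) * hs K u :=
          mul_le_mul_of_nonneg_left h1 (Real.exp_pos _).le
      _ ≤ Real.exp (g u) * hs K u := mul_le_mul_of_nonneg_right h3 h2.le
      _ = hs K u * Real.exp (g u) := mul_comm _ _
  · intro x hx
    have hmem : Real.exp (-c) • x ∈ K := by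
      rw [← Wu_hs hK]
      intro u hu
      have hu0 : u ≠ 0 := by
        intro h
        rw [h, norm_zero] at hu
        norm_num at hu
      have h1 : inner ℝ x u ≤ hs K u * Real.exp (g u) := hx u hu
      have h2 : 0 < hs K u := hs_pos hK hu0
      have h3 : Real.exp (g u) ≤ Real.exp c :=
        Real.exp_le_exp.mpr (abs_le.mp (hg u hu)).2
      have h4 : inner ℝ (Real.exp (-c) • x) u = Real.exp (-c) * inner ℝ x u :=
        real_inner_smul_left _ _ _
      rw [h4]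
      calc Real.exp (-c) * inner ℝ x u ≤ Real.exp (-c) * (hs K u * Real.exp (g u)) :=
            mul_le_mul_of_nonneg_left h1 (Real.exp_pos _).le
        _ ≤ Real.exp (-c) * (hs K u * Real.exp c) := by
            refine mul_le_mul_of_nonneg_left ?_ (Real.exp_pos _).le
            exact mul_le_mul_of_nonneg_left h3 h2.le
        _ = hs K u * (Real.exp (-c) * Real.exp c) := by ring
        _ = hs K u := by rw [← Real.exp_add]; simp
    refine ⟨Real.exp (-c) • x, hmem, ?_⟩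
    show Real.exp c • Real.exp (-c) • x = x
    rw [smul_smul, ← Real.exp_add]
    simp

private theorem pert_body {K : Set E2} (hK : Body K) {g : E2 → ℝ} (hg : Continuous g) :
    Body (Wu (fun u => hs K u * Real.exp (g u))) := by
  refine Wu_body ?_ ?_
  · exact ((hs_cont hK).mul (Real.continuous_exp.comp hg)).continuousOn
  · intro u hu
    have hu0 : u ≠ 0 := by
      intro h
      rw [h, norm_zero] at hu
      norm_num at hu
    exact mul_pos (hs_pos hK hu0) (Real.exp_pos _)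

private theorem bdd_sphere {ψ : E2 → ℝ} (hψ : Continuous ψ) :
    ∃ c : ℝ, 0 < c ∧ ∀ u : E2, ‖u‖ = 1 → |ψ u| ≤ c := by
  have hc : IsCompact (Metric.sphere (0 : E2) 1) := isCompact_sphere 0 1
  obtain ⟨c, hc'⟩ := (hc.image hψ).isBounded.exists_norm_le
  refine ⟨max c 1, lt_max_of_lt_right one_pos, fun u hu => ?_⟩
  have : ‖ψ u‖ ≤ c := hc' _ ⟨u, by simpa using hu, rfl⟩
  exact le_max_of_le_left (by simpa using this)

private theorem int_smul_zero {K : Set E2} (h0 : ∫ x in K, x = 0) {r : ℝ} (hr : 0 < r) :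
    ∫ x in r • K, x = 0 := by
  have h := Measure.setIntegral_comp_smul (volume : Measure E2) (fun x : E2 => x) K hr.ne'
  have h1 : ∫ x in K, r • x = 0 := by
    rw [integral_smul, h0, smul_zero]
  rw [h1] at h
  have h2 : |(r ^ Module.finrank ℝ E2)⁻¹| ≠ 0 := by
    have : (0 : ℝ) < r ^ Module.finrank ℝ E2 := by positivity
    exact abs_ne_zero.mpr (inv_ne_zero this.ne')
  exact (smul_eq_zero.mp h.symm).resolve_left h2

theorem centroid_small {K : Set E2} (hK : Body K) (h0 : ∫ x in K, x = 0) {ψ : E2 → ℝ} (hψ : Continuous ψ) :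
    ∃ C ε0 : ℝ, 0 < C ∧ 0 < ε0 ∧ ∀ ε : ℝ, |ε| ≤ ε0 →
      ‖∫ x in Wu (fun u => hs K u * Real.exp (ε * ψ u)), x‖ ≤ C * |ε| := by
  obtain ⟨c, hc0, hc⟩ := bdd_sphere hψ
  obtain ⟨R, hR⟩ := hK.comp.isBounded.exists_norm_le
  have hR0 : 0 ≤ R := le_trans (norm_nonneg _) (hR 0 (interior_subset hK.zero))
  have harp := ar_pos hK
  refine ⟨Real.exp c * R * (Real.exp (2 * c) * (4 * c) * ar K) + 1, 1, by positivity, one_pos, ?_⟩
  intro ε hε
  have hε0 : 0 ≤ |ε| := abs_nonneg ε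
  have hg : ∀ u : E2, ‖u‖ = 1 → |ε * ψ u| ≤ c * |ε| := by
    intro u hu
    rw [abs_mul, mul_comm]
    exact mul_le_mul_of_nonneg_right (hc u hu) hε0
  have hcε : c * |ε| ≤ c := by nlinarith
  have hcε0 : 0 ≤ c * |ε| := by positivity
  obtain ⟨hlo, hhi⟩ := sandwich hK hg
  have hM : Body (Wu (fun u => hs K u * Real.exp (ε * ψ u))) :=
    pert_body hK (continuous_const.mul hψ)
  set M : Set E2 := Wu (fun u => hs K u * Real.exp (ε * ψ u)) with hMdef
  have hlob : Body (Real.exp (-(c * |ε|)) • K) := (smul_body hK (Real.exp_pos _)).1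
  have hhib : Body (Real.exp (c * |ε|) • K) := (smul_body hK (Real.exp_pos _)).1
  have hz : ∫ x in Real.exp (-(c * |ε|)) • K, x = 0 := int_smul_zero h0 (Real.exp_pos _)
  have hint : IntegrableOn (fun x : E2 => x) M volume :=
    continuous_id.continuousOn.integrableOn_compact hM.comp
  have hd : ∫ x in M \ (Real.exp (-(c * |ε|)) • K), x = ∫ x in M, x := by
    have := setIntegral_sdiff (μ := (volume : Measure E2)) (f := fun x : E2 => x)
      hlob.comp.measurableSet hint hlo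
    rw [this, hz, sub_zero]
  have hfin : volume M ≠ ⊤ := hM.comp.measure_lt_top.ne
  have hbd : ‖∫ x in M \ (Real.exp (-(c * |ε|)) • K), x‖ ≤
      (Real.exp c * R) * (volume : Measure E2).real (M \ (Real.exp (-(c * |ε|)) • K)) := by
    refine norm_setIntegral_le_of_norm_le_const ?_ ?_
    · exact lt_of_le_of_lt (measure_mono sdiff_subset) hM.comp.measure_lt_top
    · intro x hx
      obtain ⟨y, hy, rfl⟩ := hhi hx.1
      show ‖Real.exp (c * |ε|) • y‖ ≤ Real.exp c * R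
      rw [norm_smul, Real.norm_eq_abs, abs_of_pos (Real.exp_pos _)]
      exact mul_le_mul (Real.exp_le_exp.mpr hcε) (hR y hy) (norm_nonneg _) (Real.exp_pos _).le
  have hvol : (volume : Measure E2).real (M \ (Real.exp (-(c * |ε|)) • K)) =
      ar M - ar (Real.exp (-(c * |ε|)) • K) := by
    rw [measureReal_sdiff hlo hlob.comp.measurableSet hfin]
    rfl
  have hM1 : ar M ≤ ar (Real.exp (c * |ε|) • K) := ar_mono hhib hhi
  rw [ar_smul (Real.exp_pos _).le] at hM1
  have hvol2 : (volume : Measure E2).real (M \ (Real.exp (-(c * |ε|)) • K)) ≤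
      (Real.exp (2 * c) * (4 * c) * ar K) * |ε| := by
    rw [hvol, ar_smul (Real.exp_pos _).le]
    have e1 : Real.exp (c * |ε|) ^ 2 = Real.exp (2 * (c * |ε|)) := by
      rw [← Real.exp_nat_mul]; norm_num
    have e2 : Real.exp (-(c * |ε|)) ^ 2 = Real.exp (2 * (c * |ε|)) * Real.exp (-(4 * (c * |ε|))) := by
      rw [← Real.exp_nat_mul, ← Real.exp_add]
      congr 1
      push_cast
      ring
    have e3 : 1 - 4 * (c * |ε|) ≤ Real.exp (-(4 * (c * |ε|))) := by
      have := Real.add_one_le_exp (-(4 * (c * |ε|)))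
      linarith
    have e4 : Real.exp (2 * (c * |ε|)) ≤ Real.exp (2 * c) := Real.exp_le_exp.mpr (by linarith)
    rw [e1] at hM1
    rw [e2]
    have e5 : Real.exp (2 * (c * |ε|)) - Real.exp (2 * (c * |ε|)) * Real.exp (-(4 * (c * |ε|))) ≤
        Real.exp (2 * c) * (4 * c) * |ε| := by
      have e6 : Real.exp (2 * (c * |ε|)) * (1 - Real.exp (-(4 * (c * |ε|)))) ≤
          Real.exp (2 * (c * |ε|)) * (4 * (c * |ε|)) :=
        mul_le_mul_of_nonneg_left (by linarith) (Real.exp_pos _).le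
      have e7 : Real.exp (2 * (c * |ε|)) * (4 * (c * |ε|)) ≤ Real.exp (2 * c) * (4 * (c * |ε|)) :=
        mul_le_mul_of_nonneg_right e4 (by positivity)
      nlinarith
    have e8 := mul_le_mul_of_nonneg_right e5 harp.le
    nlinarith
  calc ‖∫ x in M, x‖ = ‖∫ x in M \ (Real.exp (-(c * |ε|)) • K), x‖ := by rw [hd]
    _ ≤ (Real.exp c * R) * (volume : Measure E2).real (M \ (Real.exp (-(c * |ε|)) • K)) := hbd
    _ ≤ (Real.exp c * R) * ((Real.exp (2 * c) * (4 * c) * ar K) * |ε|) :=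
        mul_le_mul_of_nonneg_left hvol2 (by positivity)
    _ ≤ (Real.exp c * R * (Real.exp (2 * c) * (4 * c) * ar K) + 1) * |ε| := by nlinarith

theorem tilt_pert {K : Set E2} (hK : Body K) (h0 : ∫ x in K, x = 0) {ψ : E2 → ℝ} (hψ : Continuous ψ) :
    ∃ C ε0 : ℝ, 0 < C ∧ 0 < ε0 ∧ ∀ ε : ℝ, |ε| ≤ ε0 → ∀ c : E2,
      Real.log (ar (Wu (fun u => hs K u * Real.exp (ε * ψ u)))) - C * ε ^ 2 ≤
        Real.log (∫ x in Wu (fun u => hs K u * Real.exp (ε * ψ u)), Real.exp (inner ℝ c x)) := by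
  obtain ⟨c, hc0, hc⟩ := bdd_sphere hψ
  obtain ⟨C1, ε1, hC1, hε1, h1⟩ := centroid_small hK h0 hψ
  have hlob : Body (Real.exp (-c) • K) := (smul_body hK (Real.exp_pos _)).1
  have hhib : Body (Real.exp c • K) := (smul_body hK (Real.exp_pos _)).1
  obtain ⟨r, hr, hrK⟩ := Metric.isOpen_iff.mp isOpen_interior 0 hlob.zero
  obtain ⟨R, hR0, hRK⟩ := hhib.comp.isBounded.exists_pos_norm_le
  obtain ⟨C0, g0, hC0, hg0, h2⟩ := tilt_lower r R hr hR0
  refine ⟨C0 * C1 ^ 2, min ε1 (min 1 (g0 / C1)), by positivity, by positivity, ?_⟩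
  intro ε hε v
  have hε0 : 0 ≤ |ε| := abs_nonneg ε
  have a1 : |ε| ≤ ε1 := le_trans hε (min_le_left _ _)
  have a2 : |ε| ≤ 1 := le_trans hε (le_trans (min_le_right _ _) (min_le_left _ _))
  have a3 : |ε| ≤ g0 / C1 := le_trans hε (le_trans (min_le_right _ _) (min_le_right _ _))
  have hg : ∀ u : E2, ‖u‖ = 1 → |ε * ψ u| ≤ c := by
    intro u hu
    rw [abs_mul]
    calc |ε| * |ψ u| ≤ 1 * |ψ u| := mul_le_mul_of_nonneg_right a2 (abs_nonneg _)
      _ = |ψ u| := one_mul _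
      _ ≤ c := hc u hu
  obtain ⟨hlo, hhi⟩ := sandwich hK hg
  have hM : Body (Wu (fun u => hs K u * Real.exp (ε * ψ u))) :=
    pert_body hK (continuous_const.mul hψ)
  have hcent := h1 ε a1
  have hsmall : ‖∫ x in Wu (fun u => hs K u * Real.exp (ε * ψ u)), x‖ ≤ g0 := by
    refine le_trans hcent ?_
    rw [le_div_iff₀ hC1] at a3
    linarith
  have hmain := h2 _ hM ((hrK.trans interior_subset).trans hlo) (hhi.trans ?_) hsmall v
  · have hsq : ‖∫ x in Wu (fun u => hs K u * Real.exp (ε * ψ u)), x‖ ^ 2 ≤ C1 ^ 2 * ε ^ 2 := by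
      have := pow_le_pow_left₀ (norm_nonneg _) hcent 2
      rwa [mul_pow, sq_abs] at this
    have := mul_le_mul_of_nonneg_left hsq hC0.le
    linarith
  · intro x hx
    rw [mem_closedBall_zero_iff]
    exact hRK x hx

end Pool.Agent.Lib.MP_1dedaf_gt.LB
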