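import Pool.Agent.Lib.MP_1dedaf_gt.Mg.G052
import Pool.Agent.Lib.MP_1dedaf_gt.LB.E1a

/-!
# TASK LB E2: areas in radial form

Proof. Let `q > 1`; for `i : ℤ` let `D_i = {x | q^i ≤ w x < q^(i+1)}`, disjoint measurable cones (`r • D_i = D_i` for `r > 0`) covering the plane. Let
`X = {x | gauge B x ≤ w x}` (measurable, bounded). `X ∩ D_i ⊆ {gauge B ≤ q^(i+1)} ∩ D_i = q^(i+1) • (B ∩ D_i)`, `X ∩ D_i ⊇ q^i • (B ∩ D_i)`, so
`q^(2i) |B ∩ D_i| ≤ |X ∩ D_i| ≤ q^(2i+2) |B ∩ D_i|`, and `∫_{B ∩ D_i} w²` is between the same numbers. Sum over `i` (measures, `ENNReal`):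
`|X| ≤ q² ∫_B w²` and `∫_B w² ≤ q² |X|`. Let `q → 1`.
-/

set_option autoImplicit false

open MeasureTheory Set Filter Topology

namespace Pool.Agent.Lib.MP_1dedaf_gt.LB

open scoped Pointwise in
private theorem smul_vol (r : ℝ) (S : Set E2) :
    (volume : Measure E2) (r • S) = ENNReal.ofReal (r ^ 2) * volume S := by
  rw [Measure.addHaar_smul]
  have h2 : Module.finrank ℝ E2 = 2 := by
    simp [E2]
  rw [h2, abs_of_nonneg (by positivity)]

open scoped Pointwise in
theorem vol_radial {B : Set E2} (hB : Body B) {w : E2 → ℝ} (hm : Measurable w)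
    (hh : ∀ (x : E2) (r : ℝ), 0 < r → w (r • x) = w x) {a b : ℝ} (ha : 0 < a) (hab : ∀ x, a ≤ w x ∧ w x ≤ b) :
    ar {x | gauge B x ≤ w x} = ∫ x in B, w x ^ 2 := by
  classical
  have hwpos : ∀ x, 0 < w x := fun x => lt_of_lt_of_le ha (hab x).1
  have hb : 0 < b := lt_of_lt_of_le (hwpos 0) (hab 0).2
  set X : Set E2 := {x | gauge B x ≤ w x} with hX
  have hXm : MeasurableSet X := measurableSet_le (gauge_cont' hB).measurable hm
  have hBeq : B = {x | gauge B x ≤ 1} := by
    ext x; exact (gauge_le_one_iff' hB x).symm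
  have hBm : MeasurableSet B := by
    rw [hBeq]; exact measurableSet_le (gauge_cont' hB).measurable measurable_const
  have hBfin : (volume : Measure E2) B < ⊤ := by
    obtain ⟨α, β, hα, hβ, hαβ⟩ := gauge_bounds hB
    have hsub : B ⊆ Metric.closedBall 0 (1 / α) := by
      intro x hx
      have h1 := (gauge_le_one_iff' hB x).2 hx
      have h2 := (hαβ x).1
      rw [mem_closedBall_zero_iff, le_div_iff₀ hα]
      nlinarith
    exact lt_of_le_of_lt (measure_mono hsub) measure_closedBall_lt_top
  set I : ENNReal := ∫⁻ x in B, ENNReal.ofReal (w x ^ 2) with hI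
  have hIfin : I < ⊤ := by
    have h1 : I ≤ ENNReal.ofReal (b ^ 2) * (volume : Measure E2) B := by
      rw [hI]
      calc ∫⁻ x in B, ENNReal.ofReal (w x ^ 2) ≤ ∫⁻ _ in B, ENNReal.ofReal (b ^ 2) := by
            refine lintegral_mono fun x => ENNReal.ofReal_le_ofReal ?_
            have := hab x
            have := hwpos x
            nlinarith
        _ = ENNReal.ofReal (b ^ 2) * (volume : Measure E2) B := by
            rw [setLIntegral_const]
    exact lt_of_le_of_lt h1 (ENNReal.mul_lt_top ENNReal.ofReal_lt_top hBfin)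
  -- the main estimate
  have key : ∀ l : ℝ, 0 < l → (volume : Measure E2) X ≤ ENNReal.ofReal (Real.exp (2 * l)) * I ∧
      I ≤ ENNReal.ofReal (Real.exp (2 * l)) * (volume : Measure E2) X := by
    intro l hl
    let f : E2 → ℤ := fun x => ⌊Real.log (w x) / l⌋
    have hf : Measurable f := by
      exact Int.measurable_floor.comp ((Real.measurable_log.comp hm).div_const l)
    let D : ℤ → Set E2 := fun i => f ⁻¹' {i}
    have hDm : ∀ i, MeasurableSet (D i) := fun i => hf (measurableSet_singleton i)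
    have hDdis : Pairwise (Function.onFun Disjoint D) := by
      intro i j hij
      exact Disjoint.preimage f (by simpa using hij)
    have hDcov : ⋃ i, D i = univ := by
      ext x; simp [D]
    have hDcone : ∀ i (x : E2) (r : ℝ), 0 < r → (r • x ∈ D i ↔ x ∈ D i) := by
      intro i x r hr
      simp only [D, f, mem_preimage, mem_singleton_iff, hh x r hr]
    have hDlow : ∀ i (x : E2), x ∈ D i → Real.exp (i * l) ≤ w x := by
      intro i x hx
      have h1 : (i : ℝ) ≤ Real.log (w x) / l := by
        have : f x = i := hx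
        rw [← this]; exact Int.floor_le _
      rw [le_div_iff₀ hl] at h1
      calc Real.exp (i * l) ≤ Real.exp (Real.log (w x)) := Real.exp_le_exp.2 h1
        _ = w x := Real.exp_log (hwpos x)
    have hDup : ∀ i (x : E2), x ∈ D i → w x ≤ Real.exp ((i + 1) * l) := by
      intro i x hx
      have h1 : Real.log (w x) / l ≤ (i : ℝ) + 1 := by
        have : f x = i := hx
        rw [← this]; exact (Int.lt_floor_add_one _).le
      rw [div_le_iff₀ hl] at h1
      calc w x = Real.exp (Real.log (w x)) := (Real.exp_log (hwpos x)).symm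
        _ ≤ Real.exp ((i + 1) * l) := Real.exp_le_exp.2 h1
    -- inclusions
    have inc1 : ∀ i : ℤ, X ∩ D i ⊆ Real.exp ((i + 1) * l) • (B ∩ D i) := by
      intro i x hx
      have he : 0 < Real.exp ((i + 1) * l) := Real.exp_pos _
      rw [Set.mem_smul_set_iff_inv_smul_mem₀ he.ne']
      have hinv : 0 < (Real.exp ((i + 1) * l))⁻¹ := inv_pos.2 he
      refine ⟨?_, (hDcone i x _ hinv).2 hx.2⟩
      rw [← gauge_le_one_iff' hB, gauge_smul_of_nonneg hinv.le, smul_eq_mul,
        inv_mul_le_iff₀ he, mul_one]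
      exact le_trans hx.1 (hDup i x hx.2)
    have inc2 : ∀ i : ℤ, Real.exp (i * l) • (B ∩ D i) ⊆ X ∩ D i := by
      rintro i _ ⟨y, hy, rfl⟩
      have he : 0 < Real.exp (i * l) := Real.exp_pos _
      refine ⟨?_, (hDcone i y _ he).2 hy.2⟩
      show gauge B (Real.exp (i * l) • y) ≤ w (Real.exp (i * l) • y)
      rw [hh y _ he, gauge_smul_of_nonneg he.le, smul_eq_mul]
      have h1 := (gauge_le_one_iff' hB y).2 hy.1
      have h2 := hDlow i y hy.2
      nlinarith
    have hexp : ∀ i : ℤ, ENNReal.ofReal (Real.exp ((i + 1) * l) ^ 2) =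
        ENNReal.ofReal (Real.exp (2 * l)) * ENNReal.ofReal (Real.exp (i * l) ^ 2) := by
      intro i
      rw [← ENNReal.ofReal_mul (Real.exp_pos _).le]
      congr 1
      rw [← Real.exp_nat_mul, ← Real.exp_nat_mul, ← Real.exp_add]
      congr 1
      push_cast
      ring
    have low : ∀ i : ℤ, ENNReal.ofReal (Real.exp (i * l) ^ 2) * (volume : Measure E2) (B ∩ D i) ≤
        ∫⁻ x in B ∩ D i, ENNReal.ofReal (w x ^ 2) := by
      intro i
      rw [← setLIntegral_const]
      refine setLIntegral_mono' (hBm.inter (hDm i)) fun x hx => ENNReal.ofReal_le_ofReal ?_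
      have h2 := hDlow i x hx.2
      have := Real.exp_pos (i * l)
      nlinarith
    have upp : ∀ i : ℤ, ∫⁻ x in B ∩ D i, ENNReal.ofReal (w x ^ 2) ≤
        ENNReal.ofReal (Real.exp ((i + 1) * l) ^ 2) * (volume : Measure E2) (B ∩ D i) := by
      intro i
      rw [← setLIntegral_const]
      refine setLIntegral_mono' (hBm.inter (hDm i)) fun x hx => ENNReal.ofReal_le_ofReal ?_
      have h2 := hDup i x hx.2
      have := hwpos x
      nlinarith
    have hXsum : (volume : Measure E2) X = ∑' i, (volume : Measure E2) (X ∩ D i) := by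
      rw [← measure_iUnion (fun i j hij => (hDdis hij).mono inter_subset_right inter_subset_right)
        (fun i => hXm.inter (hDm i)), ← inter_iUnion, hDcov, inter_univ]
    have hIsum : I = ∑' i, ∫⁻ x in B ∩ D i, ENNReal.ofReal (w x ^ 2) := by
      rw [← lintegral_iUnion (fun i => hBm.inter (hDm i))
        (fun i j hij => (hDdis hij).mono inter_subset_right inter_subset_right),
        ← inter_iUnion, hDcov, inter_univ]
    constructor
    · rw [hXsum, hIsum, ← ENNReal.tsum_mul_left]
      refine ENNReal.tsum_le_tsum fun i => ?_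
      calc (volume : Measure E2) (X ∩ D i) ≤ volume (Real.exp ((i + 1) * l) • (B ∩ D i)) :=
            measure_mono (inc1 i)
        _ = ENNReal.ofReal (Real.exp ((i + 1) * l) ^ 2) * volume (B ∩ D i) := smul_vol _ _
        _ = ENNReal.ofReal (Real.exp (2 * l)) *
              (ENNReal.ofReal (Real.exp (i * l) ^ 2) * volume (B ∩ D i)) := by
            rw [hexp i, mul_assoc]
        _ ≤ _ := by gcongr; exact low i
    · rw [hXsum, hIsum, ← ENNReal.tsum_mul_left]
      refine ENNReal.tsum_le_tsum fun i => ?_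
      calc ∫⁻ x in B ∩ D i, ENNReal.ofReal (w x ^ 2)
          ≤ ENNReal.ofReal (Real.exp ((i + 1) * l) ^ 2) * volume (B ∩ D i) := upp i
        _ = ENNReal.ofReal (Real.exp (2 * l)) *
              (ENNReal.ofReal (Real.exp (i * l) ^ 2) * volume (B ∩ D i)) := by
            rw [hexp i, mul_assoc]
        _ = ENNReal.ofReal (Real.exp (2 * l)) * volume (Real.exp (i * l) • (B ∩ D i)) := by
            rw [smul_vol]
        _ ≤ _ := by gcongr; exact inc2 i
  -- finiteness of the volume of `X`
  have hXfin : (volume : Measure E2) X < ⊤ :=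
    lt_of_le_of_lt (key 1 one_pos).1 (ENNReal.mul_lt_top ENNReal.ofReal_lt_top hIfin)
  have hlim : ∀ y : ℝ, Tendsto (fun l : ℝ => Real.exp (2 * l) * y) (𝓝[>] 0) (𝓝 y) := by
    intro y
    have h1 : Continuous fun l : ℝ => Real.exp (2 * l) * y := by fun_prop
    have h2 := (h1.tendsto 0).mono_left (nhdsWithin_le_nhds (s := Ioi (0 : ℝ)))
    simpa using h2
  have keyR : ∀ l : ℝ, 0 < l → (volume : Measure E2).real X ≤ Real.exp (2 * l) * I.toReal ∧
      I.toReal ≤ Real.exp (2 * l) * (volume : Measure E2).real X := by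
    intro l hl
    obtain ⟨h1, h2⟩ := key l hl
    constructor
    · have := ENNReal.toReal_mono (ENNReal.mul_lt_top ENNReal.ofReal_lt_top hIfin).ne h1
      rwa [ENNReal.toReal_mul, ENNReal.toReal_ofReal (Real.exp_pos _).le] at this
    · have := ENNReal.toReal_mono (ENNReal.mul_lt_top ENNReal.ofReal_lt_top hXfin).ne h2
      rwa [ENNReal.toReal_mul, ENNReal.toReal_ofReal (Real.exp_pos _).le] at this
  have hev : ∀ᶠ l : ℝ in 𝓝[>] 0, 0 < l := self_mem_nhdsWithin
  have e1 : (volume : Measure E2).real X ≤ I.toReal :=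
    ge_of_tendsto (hlim _) (hev.mono fun l hl => (keyR l hl).1)
  have e2 : I.toReal ≤ (volume : Measure E2).real X :=
    ge_of_tendsto (hlim _) (hev.mono fun l hl => (keyR l hl).2)
  have e3 : (volume : Measure E2).real X = I.toReal := le_antisymm e1 e2
  have e4 : ∫ x in B, w x ^ 2 = I.toReal := by
    rw [integral_eq_lintegral_of_nonneg_ae (Eventually.of_forall fun x => by positivity)
      (hm.pow_const 2).aestronglyMeasurable]
  rw [e4, ← e3]
  rfl

end Pool.Agent.Lib.MP_1dedaf_gt.LB
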