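import Pool.Agent.Lib.MP_1dedaf_gt.Mg.G001
import Pool.Agent.Lib.MP_1dedaf_gt.Mg.G008

/-!
# TASK LB A0b: polygons with interior points

Proofs. (`Z_pos`) the open nonempty set `{x | ∀ i, <x, u i> < k i}` is contained in `Q u k`, the integrand is positive and continuous
and `Q u k` is compact. (`fat_of_Z_pos`) `Z > 0` gives `volume (Q u k) > 0`, and then the convex set `Q u k` has an interior
point `x` (`Convex.addHaar_frontier`: the frontier is a null set, `Q` is closed); `x + ε • u i ∈ Q u k` for small `ε > 0` gives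
`<x, u i> < k i`. (`fat_isOpen`, `fat_convex`) immediate.
-/

set_option autoImplicit false

open MeasureTheory Set Filter Topology

namespace Pool.Agent.Lib.MP_1dedaf_gt.LB

variable {ι : Type} [Fintype ι]

private theorem A0b_isOpen (u : ι → E2) (k : ι → ℝ) :
    IsOpen {x : E2 | ∀ i, inner ℝ x (u i) < k i} := by
  have h : {x : E2 | ∀ i, inner ℝ x (u i) < k i} = ⋂ i, {x : E2 | inner ℝ x (u i) < k i} := by
    ext x
    simp
  rw [h]
  refine isOpen_iInter_of_finite fun i => ?_
  exact isOpen_lt (continuous_id.inner continuous_const) continuous_const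

omit [Fintype ι] in
private theorem A0b_isClosed (u : ι → E2) (k : ι → ℝ) : IsClosed (Q u k) := by
  have h : Q u k = ⋂ i, {x : E2 | inner ℝ x (u i) ≤ k i} := by
    ext x
    simp [Q]
  rw [h]
  refine isClosed_iInter fun i => ?_
  exact isClosed_le (continuous_id.inner continuous_const) continuous_const

theorem Z_pos {u : ι → E2} (hu : Adm u) {k : ι → ℝ} (hk : Fat u k) (θ : E2) : 0 < Z u k θ := by
  have hint := Z_integrable hu k θ
  unfold Z
  rw [setIntegral_pos_iff_support_of_nonneg_ae
    (Filter.Eventually.of_forall fun x => (Real.exp_pos _).le) hint]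
  have hsupp : Function.support (fun x : E2 => Real.exp (inner ℝ θ x)) = Set.univ := by
    ext x
    simp [Real.exp_ne_zero]
  rw [hsupp, Set.univ_inter]
  obtain ⟨x, hx⟩ := hk
  have hU : 0 < volume {x : E2 | ∀ i, inner ℝ x (u i) < k i} :=
    (A0b_isOpen u k).measure_pos volume ⟨x, hx⟩
  exact lt_of_lt_of_le hU (measure_mono fun y hy i => (hy i).le)

theorem fat_of_Z_pos {u : ι → E2} (hu : Adm u) {k : ι → ℝ} {θ : E2} (h : 0 < Z u k θ) : Fat u k := by
  have hvol : volume (Q u k) ≠ 0 := by
    intro h0
    unfold Z at h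
    rw [Measure.restrict_eq_zero.2 h0, integral_zero_measure] at h
    exact lt_irrefl _ h
  have hfr : volume (frontier (Q u k)) = 0 := (Q_convex u k).addHaar_frontier volume
  have hne : (interior (Q u k)).Nonempty := by
    by_contra hem
    rw [Set.not_nonempty_iff_eq_empty] at hem
    apply hvol
    refine measure_mono_null ?_ hfr
    intro x hx
    rw [frontier, hem, Set.diff_empty]
    exact subset_closure hx
  obtain ⟨x, hx⟩ := hne
  refine ⟨x, fun i => ?_⟩
  rw [mem_interior_iff_mem_nhds, Metric.mem_nhds_iff] at hx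
  obtain ⟨ε, hε, hball⟩ := hx
  have hy : x + (ε / 2) • u i ∈ Q u k := by
    apply hball
    rw [Metric.mem_ball, dist_eq_norm, add_sub_cancel_left, norm_smul, hu.unit i, mul_one,
      Real.norm_of_nonneg (by positivity)]
    linarith
  have h1 := hy i
  have h2 : inner ℝ (u i) (u i) = (1 : ℝ) := by
    rw [real_inner_self_eq_norm_sq, hu.unit i]
    norm_num
  rw [inner_add_left, real_inner_smul_left, h2] at h1
  linarith

theorem fat_isOpen (u : ι → E2) : IsOpen {k : ι → ℝ | Fat u k} := by
  have h : {k : ι → ℝ | Fat u k} = ⋃ x : E2, ⋂ i, {k : ι → ℝ | inner ℝ x (u i) < k i} := by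
    ext k
    simp [Fat]
  rw [h]
  refine isOpen_iUnion fun x => isOpen_iInter_of_finite fun i => ?_
  exact isOpen_lt continuous_const (continuous_apply i)

theorem fat_convex (u : ι → E2) : Convex ℝ {k : ι → ℝ | Fat u k} := by
  rintro k ⟨x, hx⟩ k' ⟨x', hx'⟩ a b ha hb hab
  refine ⟨a • x + b • x', fun i => ?_⟩
  rw [inner_add_left, real_inner_smul_left, real_inner_smul_left]
  change a * inner ℝ x (u i) + b * inner ℝ x' (u i) < a * k i + b * k' i
  have h1 := hx i
  have h2 := hx' i
  rcases ha.lt_or_eq with ha' | ha'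
  · have h3 : a * inner ℝ x (u i) < a * k i := mul_lt_mul_of_pos_left h1 ha'
    have h4 : b * inner ℝ x' (u i) ≤ b * k' i := mul_le_mul_of_nonneg_left h2.le hb
    linarith
  · subst ha'
    have hb1 : b = 1 := by linarith
    subst hb1
    linarith

end Pool.Agent.Lib.MP_1dedaf_gt.LB
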