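import Pool.Agent.Lib.MP_1dedaf_gt.Mg.G001
import Pool.Agent.Lib.MP_1dedaf_gt.Mg.G009
import Pool.Agent.Lib.MP_1dedaf_gt.Mg.G007
import Pool.Agent.Lib.MP_1dedaf_gt.Mg.G004
import Pool.Agent.Lib.MP_1dedaf_gt.Mg.G010

/-!
# TASK LB C2b: edges parametrised by mass

`M = sg i / Z > 0`. (`mass_subst`) substitution `σ = g τ = (1/M) ∫_{lo}^τ dens` (`intervalIntegral.integral_comp_mul_deriv` or similar), `g' = dens / M`, `g lo = 0`,
`g hi = 1` (`dens_mass`), `g` is monotone. (`mass_param`) `dens τ = rh (i-1) + λ M g τ = rh (i-1) + (g τ) (rh i - rh (i-1))` (`dens_eq`, `rh_diff`), so it is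
`mass_subst` with `F σ = f (rh (i-1) + σ (rh i - rh (i-1)))` (the argument of `f` stays between the two positive numbers).
-/

set_option autoImplicit false

open MeasureTheory Set Filter Topology

namespace Pool.Agent.Lib.MP_1dedaf_gt.LB

private theorem C2b_cont (n : ℕ) (k : ZMod n → ℝ) (θ : E2) (i : ZMod n) : Continuous (dens n k θ i) := by
  unfold dens
  fun_prop

theorem mass_subst (n : ℕ) [NeZero n] (hn : Odd n) (h3 : 3 ≤ n) {k : ZMod n → ℝ} {θ : E2} (hk : Fat (dir n) k)
    (hp : ∀ i, 0 < sg (dir n) k θ i) (i : ZMod n) {F : ℝ → ℝ} (hF : ContinuousOn F (Icc 0 1)) :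
    ∫ τ in (lo n k i)..(hi n k i), F ((∫ x in (lo n k i)..τ, dens n k θ i x) / (sg (dir n) k θ i / Z (dir n) k θ)) * dens n k θ i τ =
      sg (dir n) k θ i / Z (dir n) k θ * ∫ σ in (0:ℝ)..1, F σ := by
  obtain ⟨hlt, -⟩ := len_of_pos n hn h3 hp i
  set a := lo n k i with ha
  set b := hi n k i with hb
  have hM : 0 < sg (dir n) k θ i / Z (dir n) k θ := div_pos (hp i) (Z_pos (dir_adm n hn h3) hk θ)
  have hmass := dens_mass n hn h3 hp i
  rw [← ha, ← hb] at hmass
  set M := sg (dir n) k θ i / Z (dir n) k θ with hMd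
  have hD : Continuous (dens n k θ i) := C2b_cont n k θ i
  have hDp : ∀ τ, 0 < dens n k θ i τ := fun τ => dens_pos n hn h3 hk i τ
  have hint : ∀ x y : ℝ, IntervalIntegrable (dens n k θ i) volume x y := fun x y => hD.intervalIntegrable x y
  have hder : ∀ τ, HasDerivAt (fun τ => (∫ x in a..τ, dens n k θ i x) / M) (dens n k θ i τ / M) τ := by
    intro τ
    exact (intervalIntegral.integral_hasDerivAt_right (hint a τ)
      (hD.stronglyMeasurableAtFilter _ _) hD.continuousAt).div_const M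
  have hga : (∫ x in a..a, dens n k θ i x) / M = 0 := by
    rw [intervalIntegral.integral_same, zero_div]
  have hgb : (∫ x in a..b, dens n k θ i x) / M = 1 := by
    rw [hmass, div_self hM.ne']
  have himg : (fun τ => (∫ x in a..τ, dens n k θ i x) / M) '' Set.uIcc a b ⊆ Icc 0 1 := by
    rintro _ ⟨τ, hτ, rfl⟩
    rw [Set.uIcc_of_le hlt.le] at hτ
    have h0 : 0 ≤ ∫ x in a..τ, dens n k θ i x :=
      intervalIntegral.integral_nonneg hτ.1 fun x _ => (hDp x).le
    have h1 : 0 ≤ ∫ x in τ..b, dens n k θ i x :=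
      intervalIntegral.integral_nonneg hτ.2 fun x _ => (hDp x).le
    have h2 := intervalIntegral.integral_add_adjacent_intervals (hint a τ) (hint τ b)
    rw [hmass] at h2
    constructor
    · exact div_nonneg h0 hM.le
    · show (∫ x in a..τ, dens n k θ i x) / M ≤ 1
      rw [div_le_one hM]
      linarith
  have hsub := intervalIntegral.integral_comp_mul_deriv'' (a := a) (b := b)
    (f := fun τ => (∫ x in a..τ, dens n k θ i x) / M) (f' := fun τ => dens n k θ i τ / M) (g := F)
    (fun τ _ => (hder τ).continuousAt.continuousWithinAt)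
    (fun τ _ => (hder τ).hasDerivWithinAt) (hD.div_const M).continuousOn (hF.mono himg)
  rw [hga, hgb] at hsub
  rw [← hsub, ← intervalIntegral.integral_const_mul]
  refine intervalIntegral.integral_congr fun τ _ => ?_
  simp only [Function.comp_apply]
  field_simp

theorem mass_param (n : ℕ) [NeZero n] (hn : Odd n) (h3 : 3 ≤ n) {k : ZMod n → ℝ} {θ : E2} (hk : Fat (dir n) k)
    (hp : ∀ i, 0 < sg (dir n) k θ i) (i : ZMod n) {f : ℝ → ℝ} (hf : ContinuousOn f (Ioi 0)) :
    ∫ τ in (lo n k i)..(hi n k i), f (dens n k θ i τ) * dens n k θ i τ =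
      sg (dir n) k θ i / Z (dir n) k θ *
        ∫ σ in (0:ℝ)..1, f (rh n k θ (i - 1) + σ * (rh n k θ i - rh n k θ (i - 1))) := by
  have hM : 0 < sg (dir n) k θ i / Z (dir n) k θ := div_pos (hp i) (Z_pos (dir_adm n hn h3) hk θ)
  have hF : ContinuousOn (fun σ : ℝ => f (rh n k θ (i - 1) + σ * (rh n k θ i - rh n k θ (i - 1)))) (Icc 0 1) := by
    refine hf.comp (Continuous.continuousOn (by fun_prop)) fun σ hσ => ?_
    have h0 := rh_pos (θ := θ) n hn h3 hk (i - 1)
    have h1 := rh_pos (θ := θ) n hn h3 hk i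
    show 0 < rh n k θ (i - 1) + σ * (rh n k θ i - rh n k θ (i - 1))
    rcases hσ.1.eq_or_lt with h | h
    · rw [← h]
      linarith
    · nlinarith [mul_nonneg (sub_nonneg.mpr hσ.2) h0.le, mul_pos h h1]
  rw [← mass_subst n hn h3 hk hp i hF]
  refine intervalIntegral.integral_congr fun τ _ => ?_
  congr 2
  rw [rh_diff n hn h3 hk hp i]
  rw [dens_eq n hn h3 k θ i τ]
  generalize sg (dir n) k θ i / Z (dir n) k θ = M at hM ⊢
  generalize (∫ (x : ℝ) in (lo n k i)..τ, dens n k θ i x) = J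
  field_simp

end Pool.Agent.Lib.MP_1dedaf_gt.LB
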