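import Pool.Agent.Lib.MP_1dedaf_gt.Mg.G001
import Pool.Agent.Lib.MP_1dedaf_gt.Mg.G009
import Pool.Agent.Lib.MP_1dedaf_gt.Mg.G002

/-!
# TASK LB A1: Prékopa-Leindler for the polygons

Proof. `pl2` with `f = indicator (Q u k) (ofReal (exp <θ, x>))`, `g` the same for `k'`, `h` the same for `(k + k') / 2`: if
`x ∈ Q u k`, `y ∈ Q u k'` then `(1/2) (x + y) ∈ Q u ((k + k')/2)` and `exp <θ,x> exp <θ,y> = (exp <θ, (x+y)/2>)^2`; otherwise
the left side is `0`. Convert the lower integrals (`ofReal_integral_eq_lintegral_ofReal`, everything is integrable by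
`Z_integrable`, the sets are compact, hence measurable).
-/

set_option autoImplicit false

open MeasureTheory Set Filter Topology

namespace Pool.Agent.Lib.MP_1dedaf_gt.LB

variable {ι : Type} [Fintype ι]

private theorem A1_lint {u : ι → E2} (hu : Adm u) (k : ι → ℝ) (θ : E2) :
    ∫⁻ x, (Q u k).indicator (fun x : E2 => ENNReal.ofReal (Real.exp (inner ℝ θ x))) x =
      ENNReal.ofReal (Z u k θ) := by
  rw [lintegral_indicator (Q_compact hu k).measurableSet, Z, ofReal_integral_eq_lintegral_ofReal]
  · exact Z_integrable hu k θ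
  · exact Eventually.of_forall fun x => (Real.exp_pos _).le

omit [Fintype ι] in
private theorem A1_nonneg (u : ι → E2) (k : ι → ℝ) (θ : E2) : 0 ≤ Z u k θ :=
  integral_nonneg fun _ => (Real.exp_pos _).le

theorem Z_mid {u : ι → E2} (hu : Adm u) (k k' : ι → ℝ) (θ : E2) :
    Z u k θ * Z u k' θ ≤ (Z u (fun i => (k i + k' i) / 2) θ) ^ 2 := by
  have hm : ∀ k : ι → ℝ,
      Measurable ((Q u k).indicator (fun x : E2 => ENNReal.ofReal (Real.exp (inner ℝ θ x)))) := by
    intro k
    refine Measurable.indicator ?_ (Q_compact hu k).measurableSet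
    have hc : Continuous fun x : E2 => Real.exp (inner ℝ θ x) := by fun_prop
    exact hc.measurable.ennreal_ofReal
  have key := pl2 _ _ _ (hm k) (hm k') (hm (fun i => (k i + k' i) / 2)) ?_
  · rw [A1_lint hu, A1_lint hu, A1_lint hu, ← ENNReal.ofReal_mul (A1_nonneg u k θ),
      ← ENNReal.ofReal_pow (A1_nonneg u _ θ)] at key
    exact (ENNReal.ofReal_le_ofReal_iff (sq_nonneg _)).1 key
  · intro x y
    by_cases hx : x ∈ Q u k
    · by_cases hy : y ∈ Q u k'
      · have hxy : (1 / 2 : ℝ) • (x + y) ∈ Q u (fun i => (k i + k' i) / 2) := by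
          intro i
          have h1 := hx i
          have h2 := hy i
          rw [inner_smul_left, inner_add_left]
          simp only [conj_trivial]
          linarith
        rw [Set.indicator_of_mem hx, Set.indicator_of_mem hy, Set.indicator_of_mem hxy,
          ← ENNReal.ofReal_mul (Real.exp_pos _).le, ← ENNReal.ofReal_pow (Real.exp_pos _).le,
          ← Real.exp_add, ← Real.exp_nat_mul]
        apply le_of_eq
        congr 2
        rw [inner_smul_right, inner_add_right]
        push_cast
        ring
      · rw [Set.indicator_of_notMem hy, mul_zero]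
        exact zero_le
    · rw [Set.indicator_of_notMem hx, zero_mul]
      exact zero_le

end Pool.Agent.Lib.MP_1dedaf_gt.LB
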