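import Pool.Agent.Lib.MP_1dedaf_gt.Mg.G001
import Pool.Agent.Lib.MP_1dedaf_gt.Mg.G015
import Pool.Agent.Lib.MP_1dedaf_gt.Mg.G009

/-!
# TASK LB A3: moving one edge: the derivative

Proof. `sl` is continuous and integrable on `Iic s`, so the derivative of `s ↦ ∫ h in Iic s, sl h` is `sl s`
(`Iic s` integral = constant + interval integral); `sl (k i) = sg` (`sl_eq`).
-/

set_option autoImplicit false

open MeasureTheory Set Filter Topology

namespace Pool.Agent.Lib.MP_1dedaf_gt.LB

variable {ι : Type} [Fintype ι]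

theorem Z_hasDerivAt [DecidableEq ι] {u : ι → E2} (hu : Adm u) (k : ι → ℝ) (θ : E2) (i : ι) :
    HasDerivAt (fun s => Z u (Function.update k i s) θ) (sg u k θ i) (k i) := by
  have hc : Continuous (sl u k θ i) := sl_cont hu k θ i
  have h1 : (fun s => Z u (Function.update k i s) θ) =
      fun s => (∫ h in Iic (k i), sl u k θ i h) + ∫ h in (k i)..s, sl u k θ i h := by
    funext s
    rw [(Z_eq_sl hu k θ i s).2]
    have := intervalIntegral.integral_Iic_sub_Iic (f := sl u k θ i) (μ := volume)
      (Z_eq_sl hu k θ i (k i)).1 (Z_eq_sl hu k θ i s).1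
    linarith
  rw [h1, ← sl_eq hu k θ i]
  have h2 : HasDerivAt (fun s => ∫ h in (k i)..s, sl u k θ i h) (sl u k θ i (k i)) (k i) :=
    intervalIntegral.integral_hasDerivAt_right (hc.intervalIntegrable _ _)
      (hc.stronglyMeasurableAtFilter _ _) hc.continuousAt
  simpa using h2.const_add (∫ h in Iic (k i), sl u k θ i h)

end Pool.Agent.Lib.MP_1dedaf_gt.LB
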