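import Pool.Agent.Lib.MP_1dedaf_gt.Mg.G001
import Pool.Agent.Lib.MP_1dedaf_gt.Mg.G009
import Pool.Agent.Lib.MP_1dedaf_gt.Mg.G011

/-!
# TASK LB A5: balancing identities for the edge integrals

Proofs. (`sg_sum`) For `x : E2` and real `ε` apply `Z_tangent` to `k' = k + ε <x, u ·>` (Fat: translate the interior point);
`Z u k' θ = exp (ε <θ,x>) Z u k θ` (`Z_translate`). So `ε <θ,x> ≤ ε ∑ (sg i / Z) <x, u i>` for all real `ε`, i.e. equality:
`<θ,x> Z = ∑ sg i <x, u i>` for all `x`.
(`sg_sum_k`) `k' = (1+ε) k` with `|ε| < 1` (Fat: scale the interior point), `Z u k' θ = (1+ε)^2 Z u k ((1+ε) θ)`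
(`Z_scale`). So `2 log (1+ε) + log ∫_Q exp((1+ε)<θ,x>) ≤ log Z + ε ∑ (sg i/Z) k i` with equality at `ε = 0`; the left side is
differentiable at `ε = 0` with derivative `2 + (∫_Q <θ,x> exp <θ,x>)/Z` (differentiation under the integral sign on the compact
set `Q`); a differentiable function below a line touching it has the slope of the line.
(`sg_nonneg`) the integrand is positive.
-/

set_option autoImplicit false

open MeasureTheory Set Filter Topology

namespace Pool.Agent.Lib.MP_1dedaf_gt.LB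

variable {ι : Type} [Fintype ι]

theorem sg_nonneg (u : ι → E2) (k : ι → ℝ) (θ : E2) (i : ι) : 0 ≤ sg u k θ i := by
  unfold sg
  exact integral_nonneg fun τ => (Real.exp_pos _).le

private theorem A5_le {u : ι → E2} (hu : Adm u) {k : ι → ℝ} (hk : Fat u k) (θ x : E2) :
    inner ℝ θ x ≤ ∑ i, sg u k θ i / Z u k θ * inner ℝ x (u i) := by
  have hk' : Fat u (fun i => k i + inner ℝ x (u i)) := by
    obtain ⟨y, hy⟩ := hk
    refine ⟨y + x, fun i => ?_⟩
    rw [inner_add_left]
    have := hy i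
    simp only
    linarith
  have h1 := Z_tangent hu hk hk' θ
  rw [Z_translate, Real.log_mul (Real.exp_pos _).ne' (Z_pos hu hk θ).ne', Real.log_exp] at h1
  have h2 : ∑ i, sg u k θ i / Z u k θ * ((fun i => k i + inner ℝ x (u i)) i - k i) =
      ∑ i, sg u k θ i / Z u k θ * inner ℝ x (u i) := by
    apply Finset.sum_congr rfl
    intro i _
    simp only [add_sub_cancel_left]
  rw [h2] at h1
  linarith

theorem sg_sum {u : ι → E2} (hu : Adm u) {k : ι → ℝ} (hk : Fat u k) (θ : E2) :
    ∑ i, sg u k θ i • u i = Z u k θ • θ := by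
  have hZ := Z_pos hu hk θ
  apply ext_inner_right ℝ
  intro x
  have h1 := A5_le hu hk θ x
  have h2 := A5_le hu hk θ (-x)
  simp only [inner_neg_left, inner_neg_right, mul_neg, Finset.sum_neg_distrib] at h2
  have h3 : inner ℝ θ x = ∑ i, sg u k θ i / Z u k θ * inner ℝ x (u i) := le_antisymm h1 (by linarith)
  rw [sum_inner, inner_smul_left, h3, Finset.mul_sum]
  apply Finset.sum_congr rfl
  intro i _
  rw [inner_smul_left, real_inner_comm (u i) x]
  simp only [conj_trivial]
  field_simp

private theorem A5_deriv {u : ι → E2} (hu : Adm u) (k : ι → ℝ) (θ : E2) :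
    HasDerivAt (fun r : ℝ => ∫ x in Q u k, Real.exp (r * inner ℝ θ x))
      (∫ x in Q u k, inner ℝ θ x * Real.exp (inner ℝ θ x)) 1 := by
  have hc := Q_compact hu k
  obtain ⟨M, hM⟩ : ∃ M : ℝ, ∀ x ∈ Q u k, |(inner ℝ θ x : ℝ)| ≤ M := by
    have h1 : ContinuousOn (fun x : E2 => (inner ℝ θ x : ℝ)) (Q u k) := by fun_prop
    obtain ⟨M, hM⟩ := hc.exists_bound_of_continuousOn h1
    exact ⟨M, fun x hx => by simpa [Real.norm_eq_abs] using hM x hx⟩
  have hfin : IsFiniteMeasure (volume.restrict (Q u k)) := ⟨by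
    rw [Measure.restrict_apply_univ]
    exact hc.measure_lt_top⟩
  have hint : ∀ r : ℝ, IntegrableOn (fun x : E2 => Real.exp (r * inner ℝ θ x)) (Q u k) := by
    intro r
    apply ContinuousOn.integrableOn_compact hc
    fun_prop
  have hms : MeasurableSet (Q u k) := hc.isClosed.measurableSet
  have key := hasDerivAt_integral_of_dominated_loc_of_deriv_le
    (μ := volume.restrict (Q u k)) (F := fun (r : ℝ) (x : E2) => Real.exp (r * inner ℝ θ x))
    (F' := fun (r : ℝ) (x : E2) => inner ℝ θ x * Real.exp (r * inner ℝ θ x)) (x₀ := (1:ℝ))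
    (s := Metric.ball 1 1) (bound := fun _ => M * Real.exp (2 * M))
    (Metric.ball_mem_nhds 1 one_pos)
    (Eventually.of_forall fun r => (hint r).aestronglyMeasurable)
    (hint 1)
    (by
      have h1 : Continuous (fun x : E2 => (inner ℝ θ x : ℝ) * Real.exp (1 * inner ℝ θ x)) := by fun_prop
      exact h1.aestronglyMeasurable)
    (by
      rw [ae_restrict_iff' hms]
      refine Eventually.of_forall fun x hx r hr => ?_
      have hM0 := hM x hx
      have hMn : 0 ≤ M := le_trans (abs_nonneg _) hM0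
      have hr1 : |r| ≤ 2 := by
        rw [Metric.mem_ball, Real.dist_eq] at hr
        have := abs_lt.1 hr
        rw [abs_le]
        constructor <;> linarith
      rw [norm_mul, Real.norm_eq_abs, Real.norm_eq_abs, abs_of_pos (Real.exp_pos _)]
      apply mul_le_mul hM0 _ (Real.exp_pos _).le hMn
      apply Real.exp_le_exp.2
      calc r * inner ℝ θ x ≤ |r * inner ℝ θ x| := le_abs_self _
        _ = |r| * |(inner ℝ θ x : ℝ)| := abs_mul _ _
        _ ≤ 2 * M := mul_le_mul hr1 hM0 (abs_nonneg _) (by norm_num))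
    (integrable_const _)
    (by
      refine Eventually.of_forall fun x r _ => ?_
      have h1 : HasDerivAt (fun r : ℝ => r * (inner ℝ θ x : ℝ)) (inner ℝ θ x) r := by
        simpa using (hasDerivAt_id r).mul_const (inner ℝ θ x : ℝ)
      have h2 := h1.exp
      rw [mul_comm] at h2
      exact h2)
  have h3 := key.2
  simp only [one_mul] at h3
  exact h3

theorem sg_sum_k {u : ι → E2} (hu : Adm u) {k : ι → ℝ} (hk : Fat u k) (θ : E2) :
    ∑ i, k i * sg u k θ i = 2 * Z u k θ + ∫ x in Q u k, inner ℝ θ x * Real.exp (inner ℝ θ x) := by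
  have hZ := Z_pos hu hk θ
  obtain ⟨J, hJ⟩ : ∃ J : ℝ, J = ∫ x in Q u k, inner ℝ θ x * Real.exp (inner ℝ θ x) := ⟨_, rfl⟩
  obtain ⟨B, hB⟩ : ∃ B : ℝ, B = ∑ i, sg u k θ i / Z u k θ * k i := ⟨_, rfl⟩
  have hfat : ∀ r : ℝ, 0 < r → Fat u (fun i => r * k i) := by
    intro r hr
    obtain ⟨y, hy⟩ := hk
    refine ⟨r • y, fun i => ?_⟩
    rw [inner_smul_left]
    simp only [conj_trivial]
    exact mul_lt_mul_of_pos_left (hy i) hr
  have hle : ∀ r : ℝ, 0 < r → Real.log (Z u (fun i => r * k i) θ) ≤ Real.log (Z u k θ) + (r - 1) * B := by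
    intro r hr
    have h1 := Z_tangent hu hk (hfat r hr) θ
    have h2 : ∑ i, sg u k θ i / Z u k θ * ((fun i => r * k i) i - k i) = (r - 1) * B := by
      rw [hB, Finset.mul_sum]
      apply Finset.sum_congr rfl
      intro i _
      simp only
      ring
    rw [h2] at h1
    exact h1
  have hlog : ∀ r : ℝ, 0 < r → Real.log (Z u (fun i => r * k i) θ) =
      2 * Real.log r + Real.log (∫ x in Q u k, Real.exp (r * inner ℝ θ x)) := by
    intro r hr
    have h0 : Z u k (r • θ) = ∫ x in Q u k, Real.exp (r * inner ℝ θ x) := by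
      unfold Z
      congr 1
      funext x
      rw [inner_smul_left]
      simp only [conj_trivial]
    rw [Z_scale u k θ hr, Real.log_mul (pow_pos hr 2).ne' (Z_pos hu hk _).ne', Real.log_pow, h0]
    norm_num
  have hZ1 : (∫ x in Q u k, Real.exp (1 * inner ℝ θ x)) = Z u k θ := by
    unfold Z
    simp only [one_mul]
  have hd : HasDerivAt (fun r : ℝ => 2 * Real.log r +
      Real.log (∫ x in Q u k, Real.exp (r * inner ℝ θ x)) - (r - 1) * B)
      (2 * (1:ℝ)⁻¹ + J / Z u k θ - 1 * B) 1 := by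
    have h1 := (Real.hasDerivAt_log (one_ne_zero (α := ℝ))).const_mul 2
    have h2 := A5_deriv hu k θ
    rw [← hJ] at h2
    have h3 := h2.log (by rw [hZ1]; exact hZ.ne')
    rw [hZ1] at h3
    have h4 := ((hasDerivAt_id (1:ℝ)).sub_const 1).mul_const B
    exact (h1.add h3).sub h4
  have hmax : IsLocalMax (fun r : ℝ => 2 * Real.log r +
      Real.log (∫ x in Q u k, Real.exp (r * inner ℝ θ x)) - (r - 1) * B) 1 := by
    have hpos : ∀ᶠ r in 𝓝 (1:ℝ), 0 < r := eventually_gt_nhds one_pos
    filter_upwards [hpos] with r hr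
    rw [← hlog r hr]
    have h1 := hle r hr
    have h2 := hlog 1 one_pos
    simp only [one_mul] at h2
    have h3 : 2 * Real.log 1 + Real.log (∫ x in Q u k, Real.exp (1 * inner ℝ θ x)) = Real.log (Z u k θ) := by
      rw [hZ1, Real.log_one]
      ring
    rw [h3]
    linarith
  have h0 := hmax.hasDerivAt_eq_zero hd
  have hBJ : B = 2 + J / Z u k θ := by
    rw [inv_one] at h0
    linarith
  have hfin : ∑ i, k i * sg u k θ i = Z u k θ * B := by
    rw [hB, Finset.mul_sum]
    apply Finset.sum_congr rfl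
    intro i _
    field_simp
  rw [hfin, hBJ, ← hJ]
  field_simp

end Pool.Agent.Lib.MP_1dedaf_gt.LB
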