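import Pool.Agent.Lib.MP_1dedaf_gt.Mg.G001
import Pool.Agent.Lib.MP_1dedaf_gt.Mg.G009
import Pool.Agent.Lib.MP_1dedaf_gt.Mg.G020
import Pool.Agent.Lib.MP_1dedaf_gt.Mg.G010

/-!
# TASK LB A6c: existence of a maximiser

Proof. Put `w k = Z u k (th u S) * exp (-∑ S i k i)` (so `w k = exp (G u k S)` for Fat `k`); it is continuous (`Z_cont`). Let `s0 = min S i`. The
bound `C D² exp (-(c s0 D))` of `w_bound` tends to `0` as `D → ∞`, so there is `R ≥ 1` such that for `k` Tight, nonnegative with `max k i > R`: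
`w k < w 1` (`1` the constant function, Fat because `0` is interior, `w 1 > 0`). On the compact box `{0 ≤ k i ≤ R}` `w` has a maximum at some `k₁`;
`w k₁ ≥ w 1 > 0`, so `k₁` is Fat (`fat_of_Z_pos`). For Fat `k` take `k'` from `tighten`: `w k ≤ w k' ≤ w k₁`. Take logarithms.
-/

set_option autoImplicit false

open MeasureTheory Set Filter Topology

namespace Pool.Agent.Lib.MP_1dedaf_gt.LB

variable {ι : Type} [Fintype ι]

theorem exists_max {u : ι → E2} (hu : Adm u) {S : ι → ℝ} (hS : ∀ i, 0 < S i) :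
    ∃ k, Fat u k ∧ ∀ k', Fat u k' → G u k' S ≤ G u k S := by
  have hne : Nonempty ι := by
    obtain ⟨i, -⟩ := hu.span (!₂[(1:ℝ), 0] : E2) (by
      intro h
      have := congrFun (congrArg (fun z : E2 => z.ofLp) h) 0
      simp at this)
    exact ⟨i⟩
  obtain ⟨i0, hi0⟩ := Finite.exists_min S
  obtain ⟨C, c, hC, hc, hb⟩ := w_bound hu
  set w : (ι → ℝ) → ℝ := fun k => Z u k (th u S) * Real.exp (-∑ i, S i * k i) with hw
  have hwc : Continuous w := by
    have h1 : Continuous fun k : ι → ℝ => Z u k (th u S) :=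
      (Z_cont hu).comp (Continuous.prodMk continuous_id continuous_const)
    refine h1.mul (Real.continuous_exp.comp ?_)
    exact (continuous_finsetSum _ fun i _ => continuous_const.mul (continuous_apply i)).neg
  have hG : ∀ k, Fat u k → G u k S = Real.log (w k) := by
    intro k hk
    rw [hw]
    simp only
    rw [Real.log_mul (Z_pos hu hk _).ne' (Real.exp_pos _).ne', Real.log_exp]
    unfold G
    ring
  have hw0 : ∀ k, Fat u k → 0 < w k := fun k hk => mul_pos (Z_pos hu hk _) (Real.exp_pos _)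
  have h1fat : Fat u (fun _ => (1:ℝ)) := ⟨0, fun i => by simp⟩
  have hw1 := hw0 _ h1fat
  have hcs : 0 < c * S i0 := mul_pos hc (hS i0)
  have hlim : Tendsto (fun D : ℝ => C * D ^ 2 * Real.exp (-(c * S i0 * D))) atTop (𝓝 0) := by
    have h1 := (Real.tendsto_pow_mul_exp_neg_atTop_nhds_zero 2).comp
      (Filter.Tendsto.const_mul_atTop hcs Filter.tendsto_id)
    have h2 := h1.const_mul (C / (c * S i0) ^ 2)
    rw [mul_zero] at h2
    refine h2.congr fun D => ?_
    have hS0 : S i0 ≠ 0 := (hS i0).ne'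
    simp only [Function.comp_def, id_eq]
    field_simp
  obtain ⟨R0, hR0⟩ := Filter.eventually_atTop.1 (hlim.eventually (Iio_mem_nhds hw1))
  set R : ℝ := max R0 1 with hR
  have hR1 : 1 ≤ R := le_max_right _ _
  obtain ⟨k1, hk1B, hk1⟩ := (isCompact_Icc : IsCompact (Set.Icc (fun _ : ι => (0:ℝ)) (fun _ => R))).exists_isMaxOn
    ⟨fun _ => (1:ℝ), ⟨fun _ => zero_le_one, fun _ => hR1⟩⟩ hwc.continuousOn
  have hw11 : w (fun _ => (1:ℝ)) ≤ w k1 := hk1 ⟨fun _ => zero_le_one, fun _ => hR1⟩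
  have hk1pos : 0 < w k1 := lt_of_lt_of_le hw1 hw11
  have hk1Z : 0 < Z u k1 (th u S) := by
    rw [hw] at hk1pos
    exact pos_of_mul_pos_left hk1pos (Real.exp_pos _).le
  have hk1fat : Fat u k1 := fat_of_Z_pos hu hk1Z
  refine ⟨k1, hk1fat, fun k hk => ?_⟩
  rw [hG k hk, hG k1 hk1fat]
  refine Real.log_le_log (hw0 k hk) ?_
  obtain ⟨k', hT, hn, hF, hle⟩ := tighten hu hS hk
  refine le_trans hle ?_
  by_cases hall : ∀ i, k' i ≤ R
  · exact hk1 ⟨fun i => hn i, fun i => hall i⟩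
  · push Not at hall
    obtain ⟨i, hi⟩ := hall
    obtain ⟨j, hj⟩ := Finite.exists_max k'
    have hjR : R0 ≤ k' j := le_trans (le_max_left _ _) (le_trans hi.le (hj i))
    have h3 := hb (S i0) (hS i0) S hi0 k' hT hn (k' j) hj ⟨j, rfl⟩
    have h4 := hR0 (k' j) hjR
    exact le_trans h3 (le_trans (le_of_lt h4) hw11)

end Pool.Agent.Lib.MP_1dedaf_gt.LB
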