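import Pool.Agent.Lib.MP_1dedaf_gt.Mg.G001
import Pool.Agent.Lib.MP_1dedaf_gt.Mg.G009
import Pool.Agent.Lib.MP_1dedaf_gt.LB.A3
import Pool.Agent.Lib.MP_1dedaf_gt.Mg.G011

/-!
# TASK LB A7a: maximisers of G and edge masses

Proofs. (`mass_max`) `Z_tangent` with `sg i / Z = S i`: `log Z(k') ≤ log Z(k) + ∑ S i (k' i - k i)`.
(`max_mass`) for a maximiser `k` and every `i` the function `s ↦ G u (update k i s) S` has a local maximum at `s = k i`
(`fat_isOpen`), its derivative there is `sg i / Z - S i` (`Z_hasDerivAt`).
-/

set_option autoImplicit false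

open MeasureTheory Set Filter Topology

namespace Pool.Agent.Lib.MP_1dedaf_gt.LB

variable {ι : Type} [Fintype ι]

theorem mass_max {u : ι → E2} (hu : Adm u) {S k : ι → ℝ} (hk : Fat u k)
    (hm : ∀ i, sg u k (th u S) i = S i * Z u k (th u S)) {k' : ι → ℝ} (hk' : Fat u k') : G u k' S ≤ G u k S := by
  have hZ := Z_pos hu hk (th u S)
  have h1 := Z_tangent hu hk hk' (th u S)
  have h2 : ∑ i, sg u k (th u S) i / Z u k (th u S) * (k' i - k i)
      = ∑ i, S i * k' i - ∑ i, S i * k i := by
    rw [← Finset.sum_sub_distrib]
    refine Finset.sum_congr rfl fun i _ => ?_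
    rw [hm i, mul_div_assoc, div_self hZ.ne']
    ring
  rw [h2] at h1
  unfold G
  linarith

theorem max_mass {u : ι → E2} (hu : Adm u) {S k : ι → ℝ} (hk : Fat u k)
    (hm : ∀ k', Fat u k' → G u k' S ≤ G u k S) (i : ι) : sg u k (th u S) i = S i * Z u k (th u S) := by
  classical
  have hZ := Z_pos hu hk (th u S)
  have hself : Function.update k i (k i) = k := Function.update_eq_self i k
  have hsum : ∀ s : ℝ, ∑ j, S j * Function.update k i s j = ∑ j, S j * k j + S i * (s - k i) := by
    intro s
    have h1 : ∑ j, S j * Function.update k i s j - ∑ j, S j * k j = S i * (s - k i) := by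
      rw [← Finset.sum_sub_distrib, Finset.sum_eq_single i]
      · rw [Function.update_self]
        ring
      · intro j _ hj
        rw [Function.update_of_ne hj]
        ring
      · intro h
        exact absurd (Finset.mem_univ i) h
    linarith
  have hd : HasDerivAt (fun s => G u (Function.update k i s) S)
      (sg u k (th u S) i / Z u k (th u S) - S i) (k i) := by
    have h1 := (Z_hasDerivAt hu k (th u S) i).log (by rw [hself]; exact hZ.ne')
    rw [hself] at h1
    have h2 : HasDerivAt (fun s : ℝ => ∑ j, S j * Function.update k i s j) (S i) (k i) := by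
      have h3 : HasDerivAt (fun s : ℝ => ∑ j, S j * k j + S i * (s - k i)) (S i * 1) (k i) :=
        (((hasDerivAt_id (k i)).sub_const (k i)).const_mul (S i)).const_add _
      rw [mul_one] at h3
      exact h3.congr_of_eventuallyEq (Filter.Eventually.of_forall fun s => hsum s)
    exact h1.sub h2
  have hmax : IsLocalMax (fun s => G u (Function.update k i s) S) (k i) := by
    have ho : ∀ᶠ s in 𝓝 (k i), Fat u (Function.update k i s) := by
      have hc : Continuous (fun s : ℝ => Function.update k i s) :=
        continuous_const.update i continuous_id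
      refine ((fat_isOpen u).preimage hc).mem_nhds ?_
      show Fat u (Function.update k i (k i))
      rw [hself]
      exact hk
    filter_upwards [ho] with s hs
    show G u (Function.update k i s) S ≤ G u (Function.update k i (k i)) S
    rw [hself]
    exact hm _ hs
  have h0 := hmax.hasDerivAt_eq_zero hd
  have h1 : sg u k (th u S) i / Z u k (th u S) = S i := by linarith
  rw [div_eq_iff hZ.ne'] at h1
  exact h1

end Pool.Agent.Lib.MP_1dedaf_gt.LB
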