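import Pool.Agent.Lib.MP_1dedaf_gt.Mg.G001
import Pool.Agent.Lib.MP_1dedaf_gt.Mg.G009
import Pool.Agent.Lib.MP_1dedaf_gt.LB.A5
import Pool.Agent.Lib.MP_1dedaf_gt.LB.A7a

/-!
# TASK LB A7: properties of the centered polygon

Proofs. (`opt_env`) `G u k S' = log ∫_Q exp <th S', x> - ∑ S' i k i` and `<th S' , x> = <th S, x> + <th S' - th S, x>`; by `1 + z ≤ exp z`
`∫_Q exp <th S', x> ≥ ∫_Q exp <th S, x> (1 + <th S' - th S, x>) = Z u k (th S)` because of `cent`.
(`opt_sum`) `sg_sum_k` and `cent` (`∫ <θ,x> e^{<θ,x>} = <θ, ∫ e^{<θ,x>} x> = 0`), division by `Z > 0`.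
(`opt_pos`) `∫_Q exp <θ,x> (k i - <x, u i>) = k i Z` by `cent`, the integrand is nonnegative, and positive
on the open set of interior points.
(`opt_tight`) if all `S i > 0` then `sg i > 0`, so `fac u k i` is not empty.
-/

set_option autoImplicit false

open MeasureTheory Set Filter Topology

namespace Pool.Agent.Lib.MP_1dedaf_gt.LB

variable {ι : Type} [Fintype ι]

private theorem A7_intV {u : ι → E2} (hu : Adm u) (k : ι → ℝ) (θ : E2) :
    IntegrableOn (fun x : E2 => Real.exp (inner ℝ θ x) • x) (Q u k) := by
  refine ContinuousOn.integrableOn_compact (Q_compact hu k) ?_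
  refine Continuous.continuousOn ?_
  exact (Real.continuous_exp.comp (continuous_const.inner continuous_id)).smul continuous_id

private theorem A7_intI {u : ι → E2} (hu : Adm u) (k : ι → ℝ) (θ v : E2) :
    IntegrableOn (fun x : E2 => Real.exp (inner ℝ θ x) * inner ℝ v x) (Q u k) := by
  refine ContinuousOn.integrableOn_compact (Q_compact hu k) ?_
  refine Continuous.continuousOn ?_
  exact (Real.continuous_exp.comp (continuous_const.inner continuous_id)).mul
    (continuous_const.inner continuous_id)

/-- The moments vanish. -/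
private theorem A7_cent {u : ι → E2} (hu : Adm u) {S k : ι → ℝ} (h : Opt u S k) (v : E2) :
    ∫ x in Q u k, Real.exp (inner ℝ (th u S) x) * inner ℝ v x = 0 := by
  have h1 : ∫ x in Q u k, inner ℝ v (Real.exp (inner ℝ (th u S) x) • x) = 0 := by
    rw [integral_inner (A7_intV hu k (th u S)) v, h.cent, inner_zero_right]
  rw [← h1]
  refine integral_congr_ae (Eventually.of_forall fun x => ?_)
  simp only [inner_smul_right]

theorem opt_env {u : ι → E2} (hu : Adm u) {S k : ι → ℝ} (h : Opt u S k) (S' : ι → ℝ) :
    G u k S - ∑ i, (S' i - S i) * k i ≤ G u k S' := by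
  have h1 : Z u k (th u S) ≤ Z u k (th u S') := by
    have h2 : ∫ x in Q u k, (Real.exp (inner ℝ (th u S) x) +
        Real.exp (inner ℝ (th u S) x) * inner ℝ (th u S' - th u S) x) = Z u k (th u S) := by
      rw [integral_add (Z_integrable hu k (th u S)) (A7_intI hu k (th u S) (th u S' - th u S)),
        A7_cent hu h, add_zero]
      rfl
    rw [← h2]
    refine integral_mono ((Z_integrable hu k (th u S)).add
      (A7_intI hu k (th u S) (th u S' - th u S))) (Z_integrable hu k (th u S')) fun x => ?_
    have h3 : inner ℝ (th u S') x = inner ℝ (th u S) x + inner ℝ (th u S' - th u S) x := by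
      rw [inner_sub_left]
      ring
    have h4 := Real.add_one_le_exp (inner ℝ (th u S' - th u S) x)
    have h5 := Real.exp_pos (inner ℝ (th u S) x)
    simp only
    rw [h3, Real.exp_add]
    nlinarith [mul_le_mul_of_nonneg_left h4 h5.le]
  have h2 : Real.log (Z u k (th u S)) ≤ Real.log (Z u k (th u S')) :=
    Real.log_le_log (Z_pos hu h.fat _) h1
  have h3 : ∑ i, (S' i - S i) * k i = ∑ i, S' i * k i - ∑ i, S i * k i := by
    rw [← Finset.sum_sub_distrib]
    exact Finset.sum_congr rfl fun i _ => by ring
  unfold G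
  rw [h3]
  linarith

theorem opt_sum {u : ι → E2} (hu : Adm u) {S k : ι → ℝ} (h : Opt u S k) : ∑ i, S i * k i = 2 := by
  have hZ := Z_pos hu h.fat (th u S)
  have h1 := sg_sum_k hu h.fat (th u S)
  have h2 : ∫ x in Q u k, inner ℝ (th u S) x * Real.exp (inner ℝ (th u S) x) = 0 := by
    rw [← A7_cent hu h (th u S)]
    exact integral_congr_ae (Eventually.of_forall fun x => mul_comm _ _)
  rw [h2, add_zero] at h1
  have h3 : ∑ i, k i * sg u k (th u S) i = (∑ i, S i * k i) * Z u k (th u S) := by
    rw [Finset.sum_mul]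
    refine Finset.sum_congr rfl fun i _ => ?_
    rw [h.mass i]
    ring
  rw [h3] at h1
  exact mul_right_cancel₀ hZ.ne' h1

theorem opt_pos {u : ι → E2} (hu : Adm u) {S k : ι → ℝ} (h : Opt u S k) (i : ι) : 0 < k i := by
  have hZ := Z_pos hu h.fat (th u S)
  have hcont : Continuous fun x : E2 => Real.exp (inner ℝ (th u S) x) * (k i - inner ℝ (u i) x) :=
    (Real.continuous_exp.comp (continuous_const.inner continuous_id)).mul
      (continuous_const.sub (continuous_const.inner continuous_id))
  have hint : IntegrableOn (fun x : E2 => Real.exp (inner ℝ (th u S) x) * (k i - inner ℝ (u i) x))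
      (Q u k) := hcont.continuousOn.integrableOn_compact (Q_compact hu k)
  have h1 : ∫ x in Q u k, Real.exp (inner ℝ (th u S) x) * (k i - inner ℝ (u i) x) =
      k i * Z u k (th u S) := by
    have h2 : ∀ x : E2, Real.exp (inner ℝ (th u S) x) * (k i - inner ℝ (u i) x) =
        k i * Real.exp (inner ℝ (th u S) x) - Real.exp (inner ℝ (th u S) x) * inner ℝ (u i) x :=
      fun x => by ring
    simp only [h2]
    rw [integral_sub ((Z_integrable hu k (th u S)).const_mul (k i))
      (A7_intI hu k (th u S) (u i)), A7_cent hu h (u i), sub_zero, integral_const_mul]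
    rfl
  have h2 : 0 < ∫ x in Q u k, Real.exp (inner ℝ (th u S) x) * (k i - inner ℝ (u i) x) := by
    have hnn : ∀ x ∈ Q u k, 0 ≤ Real.exp (inner ℝ (th u S) x) * (k i - inner ℝ (u i) x) := by
      intro x hx
      have h3 : inner ℝ x (u i) ≤ k i := hx i
      rw [real_inner_comm] at h3
      exact mul_nonneg (Real.exp_pos _).le (by linarith)
    rw [setIntegral_pos_iff_support_of_nonneg_ae]
    · have hU : IsOpen {x : E2 | ∀ j, inner ℝ x (u j) < k j} := by
        simp only [Set.ofPred_forall]
        exact isOpen_iInter_of_finite fun j =>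
          isOpen_lt (continuous_id.inner continuous_const) continuous_const
      have hUn : {x : E2 | ∀ j, inner ℝ x (u j) < k j}.Nonempty := h.fat
      refine lt_of_lt_of_le (hU.measure_pos volume hUn) (measure_mono ?_)
      intro x hx
      have hx' : ∀ j, inner ℝ x (u j) < k j := hx
      refine ⟨?_, fun j => (hx' j).le⟩
      rw [Function.mem_support]
      have h3 : inner ℝ x (u i) < k i := hx' i
      rw [real_inner_comm] at h3
      exact (mul_pos (Real.exp_pos _) (by linarith)).ne'
    · exact (ae_restrict_iff' (Q_compact hu k).isClosed.measurableSet).2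
        (Eventually.of_forall fun x hx => hnn x hx)
    · exact hint
  rw [h1] at h2
  exact pos_of_mul_pos_left h2 hZ.le

theorem opt_tight {u : ι → E2} (hu : Adm u) {S k : ι → ℝ} (h : Opt u S k) (hS : ∀ i, 0 < S i) : Tight u k := by
  intro i
  have hZ := Z_pos hu h.fat (th u S)
  have h1 : 0 < sg u k (th u S) i := by
    rw [h.mass i]
    exact mul_pos (hS i) hZ
  have h2 : (fac u k i).Nonempty := by
    by_contra hne
    rw [Set.not_nonempty_iff_eq_empty] at hne
    rw [sg, hne] at h1
    simp at h1
  obtain ⟨τ, hτ⟩ := h2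
  refine ⟨k i • u i + τ • rot (u i), hτ, ?_⟩
  have h3 : inner ℝ (u i) (u i) = (1 : ℝ) := by
    rw [real_inner_self_eq_norm_sq, hu.unit i]
    norm_num
  have h4 : inner ℝ (rot (u i)) (u i) = (0 : ℝ) := by
    rw [real_inner_comm]
    exact rot_inner (u i)
  rw [inner_add_left, real_inner_smul_left, real_inner_smul_left, h3, h4]
  ring

end Pool.Agent.Lib.MP_1dedaf_gt.LB
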