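import Pool.Agent.Lib.MP_1dedaf_gt.Mg.G001
import Pool.Agent.Lib.MP_1dedaf_gt.Mg.G009
import Pool.Agent.Lib.MP_1dedaf_gt.Mg.G014
import Pool.Agent.Lib.MP_1dedaf_gt.LB.A7a
import Pool.Agent.Lib.MP_1dedaf_gt.LB.A7

/-!
# TASK LB A8a: the dual functional Psi

Proofs. (`psi_eq`) `mass_max`: `G u k S` is the greatest element of the set, so its supremum. (`le_psi`) take the `Opt` polygon of
`exists_opt`; the set is bounded above by its value. (`psi_anti`) for Fat `k'` and `S ≤ S'`: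
`exp (G u k' S') = ∫_{Q u k'} exp (-∑ S' i (k' i - <x, u i>)) ≤ ∫_{Q u k'} exp (-∑ S i (k' i - <x, u i>))` because
`k' i - <x, u i> ≥ 0` on `Q u k'`; so `G u k' S' ≤ G u k' S` (`G_anti`); take `k'` optimal for `S'`.
(`psi_lower`) `Psi u S' ≥ G u k S' ≥ G u k S - ∑ (S' i - S i) k i` (`opt_env`).
-/

set_option autoImplicit false

open MeasureTheory Set Filter Topology

namespace Pool.Agent.Lib.MP_1dedaf_gt.LB

variable {ι : Type} [Fintype ι]

theorem psi_eq {u : ι → E2} (hu : Adm u) {S k : ι → ℝ} (h : Opt u S k) : Psi u S = G u k S := by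
  have hg : IsGreatest {r | ∃ k, Fat u k ∧ r = G u k S} (G u k S) := by
    refine ⟨⟨k, h.fat, rfl⟩, ?_⟩
    rintro r ⟨k', hk', rfl⟩
    exact mass_max hu h.fat h.mass hk'
  exact hg.csSup_eq

theorem le_psi {u : ι → E2} (hu : Adm u) {S : ι → ℝ} (hS : ∀ i, 0 < S i) {k : ι → ℝ} (hk : Fat u k) :
    G u k S ≤ Psi u S := by
  obtain ⟨k0, h0⟩ := exists_opt hu hS
  rw [psi_eq hu h0]
  exact mass_max hu h0.fat h0.mass hk

private theorem A8a_G (u : ι → E2) (hu : Adm u) (S : ι → ℝ) {k : ι → ℝ} (hk : Fat u k) :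
    G u k S = Real.log (Z u k (th u S) * Real.exp (-∑ i, S i * k i)) := by
  rw [Real.log_mul (Z_pos hu hk _).ne' (Real.exp_pos _).ne', Real.log_exp, G]
  ring

theorem G_anti {u : ι → E2} (hu : Adm u) {S S' : ι → ℝ} (h : ∀ i, S i ≤ S' i) {k : ι → ℝ} (hk : Fat u k) :
    G u k S' ≤ G u k S := by
  rw [A8a_G u hu S hk, A8a_G u hu S' hk]
  refine Real.log_le_log (mul_pos (Z_pos hu hk _) (Real.exp_pos _)) ?_
  rw [Z, Z, ← integral_mul_const, ← integral_mul_const]
  refine setIntegral_mono_on ((Z_integrable hu k _).mul_const _) ((Z_integrable hu k _).mul_const _)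
    (Q_compact hu k).measurableSet ?_
  intro x hx
  rw [← Real.exp_add, ← Real.exp_add]
  refine Real.exp_le_exp.2 ?_
  have e : ∀ T : ι → ℝ, inner ℝ (th u T) x + -∑ i, T i * k i = -∑ i, T i * (k i - inner ℝ x (u i)) := by
    intro T
    rw [th, sum_inner, ← Finset.sum_neg_distrib, ← Finset.sum_neg_distrib, ← Finset.sum_add_distrib]
    refine Finset.sum_congr rfl fun i _ => ?_
    rw [real_inner_smul_left, real_inner_comm]
    ring
  rw [e, e]
  refine neg_le_neg (Finset.sum_le_sum fun i _ => ?_)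
  exact mul_le_mul_of_nonneg_right (h i) (sub_nonneg.2 (hx i))

theorem psi_anti {u : ι → E2} (hu : Adm u) {S S' : ι → ℝ} (hS : ∀ i, 0 < S i) (h : ∀ i, S i ≤ S' i) :
    Psi u S' ≤ Psi u S := by
  obtain ⟨k, hk⟩ := exists_opt hu (S := S') fun i => (hS i).trans_le (h i)
  rw [psi_eq hu hk]
  exact (G_anti hu h hk.fat).trans (le_psi hu hS hk.fat)

theorem psi_lower {u : ι → E2} (hu : Adm u) {S k : ι → ℝ} (h : Opt u S k) {S' : ι → ℝ} (hS' : ∀ i, 0 < S' i) :
    Psi u S - ∑ i, (S' i - S i) * k i ≤ Psi u S' := by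
  rw [psi_eq hu h]
  exact (opt_env hu h S').trans (le_psi hu hS' h.fat)

end Pool.Agent.Lib.MP_1dedaf_gt.LB
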