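import Pool.Agent.Lib.MP_1dedaf_gt.Mg.G001
import Pool.Agent.Lib.MP_1dedaf_gt.Mg.G009
import Pool.Agent.Lib.MP_1dedaf_gt.LB.A8a

/-!
# TASK LB A8: homogeneity and continuity of Psi

Proofs. (`psi_smul`) `Z u k (th u (r S)) = Z u k (r • th u S) = r^{-2} Z u (r k) (th u S)` (`Z_scale`), so
`G u k (r S) = G u (r k) S - 2 log r`, and `k ↦ r k` is a bijection of the Fat vectors.
(`psi_cont`) at `s₀`: if `|s i - s₀ i| ≤ ε` for all `i` then `exp(-ε) exp(s₀ i) ≤ exp (s i) ≤ exp ε exp (s₀ i)`, so by `psi_anti` and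
`psi_smul` `Psi(exp s₀) - 2 ε ≤ Psi (exp s) ≤ Psi(exp s₀) + 2 ε`.
-/

set_option autoImplicit false

open MeasureTheory Set Filter Topology

namespace Pool.Agent.Lib.MP_1dedaf_gt.LB

variable {ι : Type} [Fintype ι]

omit [Fintype ι] in
private theorem A8_fat_smul {u : ι → E2} {k : ι → ℝ} (hk : Fat u k) {r : ℝ} (hr : 0 < r) :
    Fat u (fun i => r * k i) := by
  obtain ⟨x, hx⟩ := hk
  refine ⟨r • x, fun i => ?_⟩
  rw [real_inner_smul_left]
  exact mul_lt_mul_of_pos_left (hx i) hr

private theorem A8_G_smul {u : ι → E2} (hu : Adm u) {S k : ι → ℝ} (hk : Fat u k) {r : ℝ} (hr : 0 < r) :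
    G u k (fun i => r * S i) = G u (fun i => r * k i) S - 2 * Real.log r := by
  have hth : th u (fun i => r * S i) = r • th u S := by
    unfold th
    rw [Finset.smul_sum]
    refine Finset.sum_congr rfl fun i _ => ?_
    rw [smul_smul]
  have hZ : 0 < Z u k (r • th u S) := Z_pos hu hk _
  have hlog : Real.log (Z u (fun i => r * k i) (th u S)) =
      2 * Real.log r + Real.log (Z u k (r • th u S)) := by
    rw [Z_scale u k (th u S) hr, Real.log_mul (pow_pos hr 2).ne' hZ.ne', Real.log_pow]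
    norm_num
  unfold G
  rw [hth, hlog]
  have h1 : ∑ i, r * S i * k i = ∑ i, S i * (r * k i) :=
    Finset.sum_congr rfl fun i _ => by ring
  rw [h1]
  ring

theorem psi_smul {u : ι → E2} (hu : Adm u) {S : ι → ℝ} (hS : ∀ i, 0 < S i) {r : ℝ} (hr : 0 < r) :
    Psi u (fun i => r * S i) = Psi u S - 2 * Real.log r := by
  have hrS : ∀ i, 0 < r * S i := fun i => mul_pos hr (hS i)
  apply le_antisymm
  · obtain ⟨k, hk⟩ := exists_opt hu hrS
    rw [psi_eq hu hk, A8_G_smul hu hk.fat hr]
    have := le_psi hu hS (A8_fat_smul hk.fat hr)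
    linarith
  · obtain ⟨k, hk⟩ := exists_opt hu hS
    have hf := A8_fat_smul hk.fat (inv_pos.mpr hr)
    have h1 := A8_G_smul (S := S) hu hf hr
    have h2 : (fun i => r * (r⁻¹ * k i)) = k := by
      funext i
      rw [← mul_assoc, mul_inv_cancel₀ hr.ne', one_mul]
    rw [h2] at h1
    rw [psi_eq hu hk, ← h1]
    exact le_psi hu hrS hf

theorem psi_cont {u : ι → E2} (hu : Adm u) : Continuous fun s : ι → ℝ => Psi u (fun i => Real.exp (s i)) := by
  have key : ∀ s t : ι → ℝ, Psi u (fun i => Real.exp (t i)) - 2 * ‖s - t‖ ≤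
      Psi u (fun i => Real.exp (s i)) := by
    intro s t
    have h1 := psi_smul hu (S := fun i => Real.exp (t i)) (fun i => Real.exp_pos _)
      (Real.exp_pos ‖s - t‖)
    rw [Real.log_exp] at h1
    rw [← h1]
    refine psi_anti hu (fun i => Real.exp_pos _) fun i => ?_
    rw [← Real.exp_add]
    apply Real.exp_le_exp.mpr
    have h2 : s i - t i ≤ ‖s - t‖ := (le_abs_self _).trans (norm_le_pi_norm (s - t) i)
    linarith
  have hL : LipschitzWith 2 fun s : ι → ℝ => Psi u (fun i => Real.exp (s i)) := by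
    refine LipschitzWith.of_dist_le_mul fun s t => ?_
    rw [Real.dist_eq, dist_eq_norm, abs_le]
    have h1 := key s t
    have h2 := key t s
    rw [norm_sub_rev] at h2
    have h3 : ((2 : NNReal) : ℝ) = 2 := by norm_num
    rw [h3]
    constructor <;> linarith
  exact hL.continuous

end Pool.Agent.Lib.MP_1dedaf_gt.LB
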