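import Pool.Agent.Lib.MP_1dedaf_gt.Mg.G001
import Pool.Agent.Lib.MP_1dedaf_gt.Mg.G009
import Pool.Agent.Lib.MP_1dedaf_gt.Mg.G011
import Pool.Agent.Lib.MP_1dedaf_gt.Mg.G014
import Pool.Agent.Lib.MP_1dedaf_gt.LB.A7a
import Pool.Agent.Lib.MP_1dedaf_gt.LB.A7
import Pool.Agent.Lib.MP_1dedaf_gt.Mg.G007
import Pool.Agent.Lib.MP_1dedaf_gt.Mg.G004
import Pool.Agent.Lib.MP_1dedaf_gt.Mg.G012

/-!
# TASK LB C6: uniqueness of the polygon with given edge masses

Proof. `θ = th (dir n) T`. `k`, `k'` maximise `G · T` (`mass_max`), `c = (k + k')/2` (Fat: convexity) satisfies `G c T ≥ (G k T + G k' T)/2`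
(`logZ_concave`), so it is a maximiser and `max_mass` applies to it. All three have positive `sg`. `ver n k i` is linear in `k`, and
`log Z` at `c` is the mean of the values at `k`, `k'` (as `G` has the same value at the three points), so with
`X i = rh n k θ i`, `X' i = rh n k' θ i`: `rh n c θ i = √(X i X' i)`. `rh_diff` with `sg/Z = T i` in all three cases: with
`D i = T i <θ, rot (u i)>`: `X i - X (i-1) = X' i - X' (i-1) = √(X i X' i) - √(X (i-1) X' (i-1)) = D i`. With `Y = X (i-1)`, `Y' = X' (i-1)`: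
`(D + Y)(D + Y') = (D + √(Y Y'))²` gives `D (Y + Y' - 2 √(Y Y')) = 0`, so `D i = 0` or `X (i-1) = X' (i-1)` (and then `X i = X' i`).
For each `i` one of `D i`, `D (i+1)` is not zero (`θ ≠ 0`, `rot (u i)`, `rot (u (i+1))` linearly independent), so `X i = X' i` for all `i`.
The edge lengths `hi i - lo i = ∫ (1/d) d = T i ∫_0^1 1/ρ` (`mass_param`) are then equal for `k` and `k'`, so
`ver k' i - ver k' (i-1) = ver k i - ver k (i-1)` (`ver_eq`), `ver k' i = ver k i + x` for all `i`, `k' i = k i + <x, u i>` (`ver_inner`).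
`Q u k' = x + Q u k`, so `0 = ∫_{Q k'} exp <θ,y> • y = exp <θ,x> (∫_{Q k} exp <θ,y> • y + Z k θ • x) = exp <θ,x> Z • x`: `x = 0`.
-/

set_option autoImplicit false

open MeasureTheory Set Filter Topology

namespace Pool.Agent.Lib.MP_1dedaf_gt.LB

/-- The midpoint of two polygons with the same edge masses. -/
private theorem C6_mid (n : ℕ) [NeZero n] (hn : Odd n) (h3 : 3 ≤ n) {T k k' : ZMod n → ℝ}
    (h : Opt (dir n) T k) (h' : Opt (dir n) T k') :
    Fat (dir n) (fun i => (k i + k' i) / 2) ∧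
    (∀ i, sg (dir n) (fun i => (k i + k' i) / 2) (th (dir n) T) i =
      T i * Z (dir n) (fun i => (k i + k' i) / 2) (th (dir n) T)) ∧
    Z (dir n) (fun i => (k i + k' i) / 2) (th (dir n) T) ^ 2 =
      Z (dir n) k (th (dir n) T) * Z (dir n) k' (th (dir n) T) := by
  have A : Adm (dir n) := dir_adm n hn h3
  set θ := th (dir n) T with hθ
  set c : ZMod n → ℝ := fun i => (k i + k' i) / 2 with hc
  have hcc : (1 / 2 : ℝ) • k + (1 / 2 : ℝ) • k' = c := by
    funext i
    simp only [hc, Pi.add_apply, Pi.smul_apply, smul_eq_mul]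
    ring
  have hconc := logZ_concave A θ
  have hcf : Fat (dir n) c := by
    have h1 := fat_convex (dir n) (x := k) (y := k') h.fat h'.fat (a := 1 / 2) (b := 1 / 2)
      (by norm_num) (by norm_num) (by norm_num)
    rw [hcc] at h1
    exact h1
  have h2 := hconc.2 h.fat h'.fat (by norm_num : (0 : ℝ) ≤ 1 / 2)
    (by norm_num : (0 : ℝ) ≤ 1 / 2) (by norm_num)
  rw [hcc] at h2
  simp only [smul_eq_mul] at h2
  have hsum : ∑ i, T i * c i = (∑ i, T i * k i + ∑ i, T i * k' i) / 2 := by
    rw [← Finset.sum_add_distrib, Finset.sum_div]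
    refine Finset.sum_congr rfl fun i _ => ?_
    simp only [hc]
    ring
  have e1 : G (dir n) k' T ≤ G (dir n) k T := mass_max A h.fat h.mass h'.fat
  have e2 : G (dir n) k T ≤ G (dir n) k' T := mass_max A h'.fat h'.mass h.fat
  have e3 : G (dir n) c T ≤ G (dir n) k T := mass_max A h.fat h.mass hcf
  have e4 : G (dir n) k T ≤ G (dir n) c T := by
    simp only [G, ← hθ, hsum] at e1 e2 ⊢
    linarith
  have e5 : Real.log (Z (dir n) c θ) =
      (Real.log (Z (dir n) k θ) + Real.log (Z (dir n) k' θ)) / 2 := by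
    simp only [G, ← hθ, hsum] at e1 e2 e3 e4
    linarith
  refine ⟨hcf, fun i => ?_, ?_⟩
  · exact max_mass A hcf (fun k'' hk'' => (mass_max A h.fat h.mass hk'').trans e4) i
  · have p0 := Z_pos A hcf θ
    have p1 := Z_pos A h.fat θ
    have p2 := Z_pos A h'.fat θ
    have e6 : Real.log (Z (dir n) c θ ^ 2) = Real.log (Z (dir n) k θ * Z (dir n) k' θ) := by
      rw [Real.log_pow, Real.log_mul p1.ne' p2.ne', e5]
      push_cast
      ring
    exact Real.log_injOn_pos (mem_Ioi.2 (pow_pos p0 2)) (mem_Ioi.2 (mul_pos p1 p2)) e6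

private theorem C6_ver (n : ℕ) (k k' : ZMod n → ℝ) (i : ZMod n) :
    ver n (fun i => (k i + k' i) / 2) i = (1 / 2 : ℝ) • (ver n k i + ver n k' i) := by
  simp only [ver, hi]
  have e : ((k (i + 1) + k' (i + 1)) / 2 - (k i + k' i) / 2 * Real.cos (dl n)) / Real.sin (dl n) =
      1 / 2 * ((k (i + 1) - k i * Real.cos (dl n)) / Real.sin (dl n) +
        (k' (i + 1) - k' i * Real.cos (dl n)) / Real.sin (dl n)) := by ring
  rw [e]
  module

private theorem C6_alg {X X' W D : ℝ} (hW : W ^ 2 = X * X') (h : (W + D) ^ 2 = (X + D) * (X' + D))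
    (hD : D ≠ 0) : X = X' := by
  have h1 : D * (X + X' - 2 * W) = 0 := by linear_combination hW - h
  have h2 : X + X' - 2 * W = 0 := by
    rcases mul_eq_zero.1 h1 with h | h
    · exact absurd h hD
    · exact h
  have h3 : (X - X') ^ 2 = 0 := by
    linear_combination (X + X' + 2 * W) * h2 + 4 * hW
  nlinarith [h3]

/-- The densities at the vertices agree. -/
private theorem C6_rh (n : ℕ) [NeZero n] (hn : Odd n) (h3 : 3 ≤ n) {T k k' : ZMod n → ℝ}
    (hT : ∀ i, 0 < T i) (hth : th (dir n) T ≠ 0) (h : Opt (dir n) T k) (h' : Opt (dir n) T k')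
    (i : ZMod n) : rh n k (th (dir n) T) i = rh n k' (th (dir n) T) i := by
  have A : Adm (dir n) := dir_adm n hn h3
  obtain ⟨hcf, hcm, hcZ⟩ := C6_mid n hn h3 h h'
  set θ := th (dir n) T with hθ
  set c : ZMod n → ℝ := fun i => (k i + k' i) / 2 with hc
  have p0 := Z_pos A hcf θ
  have p1 := Z_pos A h.fat θ
  have p2 := Z_pos A h'.fat θ
  have hW : ∀ i, rh n c θ i ^ 2 = rh n k θ i * rh n k' θ i := by
    intro i
    rw [rh, rh, rh, div_pow, div_mul_div_comm, hcZ, ← Real.exp_add, ← Real.exp_nat_mul]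
    congr 2
    rw [hc, C6_ver, inner_smul_right, inner_add_right]
    push_cast
    ring
  have hd : ∀ i, rh n k θ i = rh n k θ (i - 1) + T i * inner ℝ θ (rot (dir n i)) := by
    intro i
    have h1 := rh_diff n hn h3 h.fat (θ := θ) (fun i => by
      rw [h.mass i]; exact mul_pos (hT i) p1) i
    rw [h.mass i, mul_div_assoc, div_self p1.ne', mul_one] at h1
    linarith
  have hd' : ∀ i, rh n k' θ i = rh n k' θ (i - 1) + T i * inner ℝ θ (rot (dir n i)) := by
    intro i
    have h1 := rh_diff n hn h3 h'.fat (θ := θ) (fun i => by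
      rw [h'.mass i]; exact mul_pos (hT i) p2) i
    rw [h'.mass i, mul_div_assoc, div_self p2.ne', mul_one] at h1
    linarith
  have hdc : ∀ i, rh n c θ i = rh n c θ (i - 1) + T i * inner ℝ θ (rot (dir n i)) := by
    intro i
    have h1 := rh_diff n hn h3 hcf (θ := θ) (fun i => by
      rw [hcm i]; exact mul_pos (hT i) p0) i
    rw [hcm i, mul_div_assoc, div_self p0.ne', mul_one] at h1
    linarith
  have key : ∀ i, inner ℝ θ (rot (dir n i)) ≠ 0 → rh n k θ (i - 1) = rh n k' θ (i - 1) := by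
    intro i hi
    refine C6_alg (hW (i - 1)) ?_ (mul_ne_zero (hT i).ne' hi)
    rw [← hd, ← hd', ← hdc]
    exact hW i
  by_cases h1 : inner ℝ θ (rot (dir n i)) = 0
  · have h2 : inner ℝ θ (rot (dir n (i + 1))) ≠ 0 := by
      intro h2
      have h4 := rot_decomp (dir n i) (dir_norm n i) θ
      rw [h1, zero_smul, add_zero] at h4
      have h5 : (inner ℝ θ (dir n i) : ℝ) * inner ℝ (dir n i) (rot (dir n (i + 1))) = 0 := by
        rw [← real_inner_smul_left, ← h4]
        exact h2
      have h6 : i + 1 ≠ i := by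
        intro h6
        have h7 : (1 : ZMod n) = 0 := by simpa using h6
        have h8 : Fact (1 < n) := ⟨by omega⟩
        exact one_ne_zero h7
      rcases mul_eq_zero.1 h5 with h7 | h7
      · rw [h7, zero_smul] at h4
        exact hth h4
      · exact A.gen (i + 1) i h6 h7
    have h9 := key (i + 1) h2
    rwa [add_sub_cancel_right] at h9
  · rw [hd, hd', key i h1]

/-- The length of an edge. -/
private theorem C6_len (n : ℕ) [NeZero n] (hn : Odd n) (h3 : 3 ≤ n) {T k : ZMod n → ℝ}
    (hT : ∀ i, 0 < T i) (h : Opt (dir n) T k) (i : ZMod n) :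
    hi n k i - lo n k i = T i * ∫ σ in (0:ℝ)..1, (rh n k (th (dir n) T) (i - 1) +
      σ * (rh n k (th (dir n) T) i - rh n k (th (dir n) T) (i - 1)))⁻¹ := by
  have A : Adm (dir n) := dir_adm n hn h3
  set θ := th (dir n) T with hθ
  have p1 := Z_pos A h.fat θ
  have h1 := mass_param n hn h3 h.fat (θ := θ) (fun i => by
      rw [h.mass i]; exact mul_pos (hT i) p1) i (f := fun x => x⁻¹)
      (continuousOn_inv₀.mono fun x hx => (ne_of_gt (mem_Ioi.1 hx) : x ≠ 0))
  rw [h.mass i, mul_div_assoc, div_self p1.ne', mul_one] at h1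
  rw [← h1]
  have h2 : ∀ τ ∈ uIcc (lo n k i) (hi n k i), (dens n k θ i τ)⁻¹ * dens n k θ i τ = 1 :=
    fun τ _ => inv_mul_cancel₀ (dens_pos n hn h3 h.fat i τ).ne'
  rw [intervalIntegral.integral_congr (g := fun _ => (1 : ℝ)) h2]
  simp

/-- The centroid of a translate. -/
private theorem C6_cent (n : ℕ) [NeZero n] (hn : Odd n) (h3 : 3 ≤ n) (k : ZMod n → ℝ) (θ x : E2) :
    ∫ y in Q (dir n) (fun i => k i + inner ℝ x (dir n i)), Real.exp (inner ℝ θ y) • y =
      Real.exp (inner ℝ θ x) • ((∫ y in Q (dir n) k, Real.exp (inner ℝ θ y) • y) +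
        Z (dir n) k θ • x) := by
  have A : Adm (dir n) := dir_adm n hn h3
  have h1 : (fun z : E2 => z + x) ⁻¹' (Q (dir n) (fun i => k i + inner ℝ x (dir n i))) =
      Q (dir n) k := by
    ext z
    simp only [Q, mem_preimage, mem_ofPred_eq, inner_add_left, add_le_add_iff_right]
  have h2 := (measurePreserving_add_right (volume : Measure E2) x).setIntegral_preimage_emb
    (MeasurableEquiv.addRight x).measurableEmbedding
    (fun y : E2 => Real.exp (inner ℝ θ y) • y) (Q (dir n) (fun i => k i + inner ℝ x (dir n i)))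
  rw [← h2, h1]
  have hQ := Q_compact A k
  have i1 : IntegrableOn (fun z : E2 => Real.exp (inner ℝ θ z) • z) (Q (dir n) k) :=
    (Continuous.continuousOn (by fun_prop)).integrableOn_compact hQ
  have i2 : IntegrableOn (fun z : E2 => Real.exp (inner ℝ θ z) • x) (Q (dir n) k) :=
    (Continuous.continuousOn (by fun_prop)).integrableOn_compact hQ
  have h4 : ∀ z : E2, Real.exp (inner ℝ θ (z + x)) • (z + x) =
      Real.exp (inner ℝ θ x) • (Real.exp (inner ℝ θ z) • z + Real.exp (inner ℝ θ z) • x) := by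
    intro z
    rw [inner_add_right, Real.exp_add]
    module
  simp only [h4]
  rw [integral_smul, integral_add i1 i2, integral_smul_const]
  rfl

theorem opt_unique (n : ℕ) [NeZero n] (hn : Odd n) (h3 : 3 ≤ n) {T k k' : ZMod n → ℝ} (hT : ∀ i, 0 < T i)
    (hth : th (dir n) T ≠ 0) (h : Opt (dir n) T k) (h' : Opt (dir n) T k') : k = k' := by
  have A : Adm (dir n) := dir_adm n hn h3
  have hr := C6_rh n hn h3 hT hth h h'
  have hlen : ∀ i, hi n k i - lo n k i = hi n k' i - lo n k' i := by
    intro i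
    rw [C6_len n hn h3 hT h, C6_len n hn h3 hT h', hr, hr]
  have hstep : ∀ i, ver n k' i - ver n k i = ver n k' (i - 1) - ver n k (i - 1) := by
    intro i
    have e : ver n k' i - ver n k i - (ver n k' (i - 1) - ver n k (i - 1)) =
        ((hi n k' i - lo n k' i) - (hi n k i - lo n k i)) • rot (dir n i) := by
      rw [ver_eq n hn h3 k i, ver_eq n hn h3 k' i, ver, ver]
      module
    rw [hlen, sub_self, zero_smul] at e
    exact sub_eq_zero.1 e
  have hcon : ∀ j : ℕ, ver n k' (j : ZMod n) - ver n k (j : ZMod n) = ver n k' 0 - ver n k 0 := by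
    intro j
    induction j with
    | zero => simp
    | succ j ih =>
      rw [hstep, ← ih]
      push_cast
      rw [add_sub_cancel_right]
  set x := ver n k' 0 - ver n k 0 with hx
  have hk : ∀ i, k' i = k i + inner ℝ x (dir n i) := by
    intro i
    have h1 := hcon i.val
    rw [ZMod.natCast_zmod_val] at h1
    rw [← h1, inner_sub_left, (ver_inner n hn h3 k i).1, (ver_inner n hn h3 k' i).1]
    ring
  have hk' : k' = fun i => k i + inner ℝ x (dir n i) := funext hk
  have h1 := C6_cent n hn h3 k (th (dir n) T) x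
  rw [← hk', h'.cent, h.cent, zero_add] at h1
  have p1 := Z_pos A h.fat (th (dir n) T)
  have h2 : x = 0 := by
    have h4 := h1.symm
    rw [smul_smul, smul_eq_zero] at h4
    rcases h4 with h4 | h4
    · exact absurd h4 (mul_pos (Real.exp_pos _) p1).ne'
    · exact h4
  funext i
  rw [hk i, h2, inner_zero_left, add_zero]

end Pool.Agent.Lib.MP_1dedaf_gt.LB
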