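import Pool.Agent.Lib.MP_1dedaf_gt.Mg.G001

/-!
# TASK LB P4: differentiation of a parameter integral

Proof. `hasFDerivAt_integral_of_dominated_of_fderiv_le` on the interval `[0,1]` (compact): near `(r0, x0)` the denominators are
`≥ c > 0` and everything is continuous, so the derivatives are bounded. The derivative of `w/(r + e + f x)` in `(r, x)` is
`(dr, dx) ↦ - w (dr + f dx)/(r + e + f x)^2`; evaluate the integral of the derivative at `(1,0)` and `(0,1)`
(`ContinuousLinearMap.intervalIntegral_apply`).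
-/

set_option autoImplicit false

open MeasureTheory Set Filter Topology

namespace Pool.Agent.Lib.MP_1dedaf_gt.LB

theorem param_deriv {w e f : ℝ → ℝ} (hw : ContinuousOn w (Icc 0 1)) (he : ContinuousOn e (Icc 0 1)) (hf : ContinuousOn f (Icc 0 1))
    {r0 x0 : ℝ} (hpos : ∀ σ ∈ Icc (0:ℝ) 1, 0 < r0 + e σ + f σ * x0) :
    ∃ D : ℝ × ℝ →L[ℝ] ℝ, HasFDerivAt (fun p : ℝ × ℝ => ∫ σ in (0:ℝ)..1, w σ / (p.1 + e σ + f σ * p.2)) D (r0, x0) ∧
      D (1, 0) = - ∫ σ in (0:ℝ)..1, w σ / (r0 + e σ + f σ * x0) ^ 2 ∧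
      D (0, 1) = - ∫ σ in (0:ℝ)..1, w σ * f σ / (r0 + e σ + f σ * x0) ^ 2 := by
  have hne : (Icc (0 : ℝ) 1).Nonempty := ⟨0, by simp⟩
  obtain ⟨c, hc0, hc⟩ : ∃ c : ℝ, 0 < c ∧ ∀ σ ∈ Icc (0 : ℝ) 1, 2 * c ≤ r0 + e σ + f σ * x0 := by
    obtain ⟨σ₀, h0, h1⟩ := isCompact_Icc.exists_isMinOn hne (f := fun σ => r0 + e σ + f σ * x0)
      ((continuousOn_const.add he).add (hf.mul continuousOn_const))
    refine ⟨(r0 + e σ₀ + f σ₀ * x0) / 2, by linarith [hpos σ₀ h0], fun σ hσ => ?_⟩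
    have := h1 hσ
    simp only [Set.mem_ofPred_eq] at this
    linarith
  obtain ⟨M, hM⟩ := isCompact_Icc.exists_bound_of_continuousOn hf
  obtain ⟨W, hW⟩ := isCompact_Icc.exists_bound_of_continuousOn hw
  have hM0 : 0 ≤ M := (norm_nonneg _).trans (hM 0 (by simp))
  have hW0 : 0 ≤ W := (norm_nonneg _).trans (hW 0 (by simp))
  obtain ⟨δ, hδ⟩ : ∃ δ, δ = c / (1 + M) := ⟨_, rfl⟩
  have hδ0 : 0 < δ := by rw [hδ]; positivity
  have hδc : δ + M * δ = c := by rw [hδ]; field_simp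
  have hden : ∀ p ∈ Metric.ball (r0, x0) δ, ∀ σ ∈ Icc (0 : ℝ) 1, c ≤ p.1 + e σ + f σ * p.2 := by
    intro p hp σ hσ
    rw [Metric.mem_ball, Prod.dist_eq, max_lt_iff] at hp
    obtain ⟨hp1, hp2⟩ := hp
    simp only [Real.dist_eq] at hp1 hp2
    have h1 := hc σ hσ
    have h2 := (abs_lt.mp hp1).1
    have h3 : |f σ * (p.2 - x0)| ≤ M * δ := by
      rw [abs_mul]
      exact mul_le_mul (hM σ hσ) hp2.le (abs_nonneg _) hM0
    have h4 := (abs_le.mp h3).1
    have h5 : f σ * p.2 = f σ * x0 + f σ * (p.2 - x0) := by ring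
    rw [h5]
    linarith
  have hcontF : ∀ p ∈ Metric.ball (r0, x0) δ, ContinuousOn (fun σ => w σ / (p.1 + e σ + f σ * p.2)) (Icc 0 1) := by
    intro p hp
    refine hw.div ((continuousOn_const.add he).add (hf.mul continuousOn_const)) fun σ hσ => ?_
    have := hden p hp σ hσ
    exact (hc0.trans_le this).ne'
  have hp0 : (r0, x0) ∈ Metric.ball (r0, x0) δ := Metric.mem_ball_self hδ0
  obtain ⟨L, hL⟩ : ∃ L : ℝ → (ℝ × ℝ →L[ℝ] ℝ), L = fun σ => ContinuousLinearMap.fst ℝ ℝ ℝ + f σ • ContinuousLinearMap.snd ℝ ℝ ℝ :=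
    ⟨_, rfl⟩
  have hLc : ContinuousOn L (Icc 0 1) := by
    rw [hL]
    exact continuousOn_const.add (hf.smul continuousOn_const)
  obtain ⟨F', hF'⟩ : ∃ F' : ℝ × ℝ → ℝ → (ℝ × ℝ →L[ℝ] ℝ), F' = fun p σ => (-(w σ / (p.1 + e σ + f σ * p.2) ^ 2)) • L σ := ⟨_, rfl⟩
  have hcontF' : ContinuousOn (F' (r0, x0)) (Icc 0 1) := by
    rw [hF']
    refine ((hw.div (((continuousOn_const.add he).add (hf.mul continuousOn_const)).pow 2) fun σ hσ => ?_).neg).smul hLc
    have := hden _ hp0 σ hσ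
    exact (pow_pos (hc0.trans_le this) 2).ne'
  have hsub : Set.uIoc (0 : ℝ) 1 ⊆ Icc 0 1 := by
    rw [uIoc_of_le zero_le_one]
    exact Ioc_subset_Icc_self
  have hmeas : MeasurableSet (Set.uIoc (0 : ℝ) 1) := measurableSet_uIoc
  have huI : uIcc (0 : ℝ) 1 = Icc 0 1 := uIcc_of_le zero_le_one
  have hdiff : ∀ σ ∈ Icc (0 : ℝ) 1, ∀ p ∈ Metric.ball (r0, x0) δ,
      HasFDerivAt (fun p : ℝ × ℝ => w σ / (p.1 + e σ + f σ * p.2)) (F' p σ) p := by
    intro σ hσ p hp
    have h1 := hden p hp σ hσ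
    have h2 : p.1 + e σ + f σ * p.2 ≠ 0 := (hc0.trans_le h1).ne'
    have h3 : HasFDerivAt (fun p : ℝ × ℝ => p.1 + e σ + f σ * p.2) (L σ) p := by
      rw [hL]
      exact (hasFDerivAt_fst.add_const (e σ)).add (hasFDerivAt_snd.const_mul (f σ))
    have h4 : HasDerivAt (fun z : ℝ => w σ / z) (-(w σ / (p.1 + e σ + f σ * p.2) ^ 2)) (p.1 + e σ + f σ * p.2) := by
      have h5 := (hasDerivAt_inv h2).const_mul (w σ)
      have h6 : w σ * -((p.1 + e σ + f σ * p.2) ^ 2)⁻¹ = -(w σ / (p.1 + e σ + f σ * p.2) ^ 2) := by ring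
      rw [h6] at h5
      exact h5
    rw [hF']
    exact h4.comp_hasFDerivAt p h3
  have hLn : ∀ σ ∈ Icc (0 : ℝ) 1, ‖L σ‖ ≤ 1 + M := by
    intro σ hσ
    rw [hL]
    refine (norm_add_le _ _).trans (add_le_add (ContinuousLinearMap.norm_fst_le _ _ _) ?_)
    rw [norm_smul]
    have := mul_le_mul (hM σ hσ) (ContinuousLinearMap.norm_snd_le ℝ ℝ ℝ) (norm_nonneg _) hM0
    rwa [mul_one] at this
  have key := intervalIntegral.hasFDerivAt_integral_of_dominated_of_fderiv_le (μ := volume) (a := 0) (b := 1)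
    (F := fun (p : ℝ × ℝ) σ => w σ / (p.1 + e σ + f σ * p.2)) (F' := F') (x₀ := (r0, x0)) (s := Metric.ball (r0, x0) δ)
    (bound := fun _ => W / c ^ 2 * (1 + M)) (𝕜 := ℝ) (Metric.ball_mem_nhds _ hδ0) ?_ ?_ ?_ ?_ ?_ ?_
  · refine ⟨_, key, ?_, ?_⟩
    · rw [ContinuousLinearMap.intervalIntegral_apply (by rw [← huI] at hcontF'; exact hcontF'.intervalIntegrable),
        ← intervalIntegral.integral_neg]
      refine intervalIntegral.integral_congr fun σ _ => ?_
      simp [hF', hL]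
    · rw [ContinuousLinearMap.intervalIntegral_apply (by rw [← huI] at hcontF'; exact hcontF'.intervalIntegrable),
        ← intervalIntegral.integral_neg]
      refine intervalIntegral.integral_congr fun σ _ => ?_
      simp only [hF', hL]
      simp
      ring
  · filter_upwards [Metric.ball_mem_nhds (r0, x0) hδ0] with p hp
    exact ((hcontF p hp).mono hsub).aestronglyMeasurable hmeas
  · have h1 := hcontF _ hp0
    rw [← huI] at h1
    exact h1.intervalIntegrable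
  · exact (hcontF'.mono hsub).aestronglyMeasurable hmeas
  · refine Filter.Eventually.of_forall fun σ hσ p hp => ?_
    have hσ' := hsub hσ
    have h1 := hden p hp σ hσ'
    rw [hF']
    simp only
    rw [norm_smul, norm_neg, norm_div, norm_pow, Real.norm_of_nonneg (hc0.le.trans h1)]
    refine mul_le_mul ?_ (hLn σ hσ') (norm_nonneg _) (by positivity)
    exact div_le_div₀ hW0 (hW σ hσ') (by positivity) (pow_le_pow_left₀ hc0.le h1 2)
  · exact intervalIntegrable_const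
  · exact Filter.Eventually.of_forall fun σ hσ p hp => hdiff σ (hsub hσ) p hp

end Pool.Agent.Lib.MP_1dedaf_gt.LB
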