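import Pool.Agent.Lib.MP_1dedaf_gt.Mg.G052
import Pool.Agent.Lib.MP_1dedaf_gt.Mg.G001

/-!
# TASK LB E14c: parallelograms decompose

Proof. (`dual_basis`) `v' = (<v, rot w>)⁻¹ • rot w`-like vectors: `v' = rot w / <v, rot w>`, `w' = rot v / <w, rot v>`. (`dec_par`) `x = <x,v> v' + <x,w> w'` (both sides have the same inner products with `v`, `w`), so `par v w a b = S1 + S2` with the segments `S1 = {s • v' : |s| ≤ a}`, `S2 = {s • w' : |s| ≤ b}`
and `par v w a' b' = (a'/a) • S1 + (b'/b) • S2`. Each segment is convex, compact, its affine span has the direction `ℝ v'` (`ℝ w'`) of dimension `1`. `m = 2`. (`dec_smul`) `m = 1`: `K` itself, the affine span of a set with interior points is everything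
(`finrank = 2`). (`dec_scale`) multiply `Cs i` by `r⁻¹`.
-/

set_option autoImplicit false

open MeasureTheory Set Filter Topology

namespace Pool.Agent.Lib.MP_1dedaf_gt.LB

open scoped Pointwise

private theorem E14c_inner (u v : E2) : (inner ℝ u v : ℝ) = u 0 * v 0 + u 1 * v 1 := by
  simp [PiLp.inner_apply, Fin.sum_univ_two, mul_comm]

private theorem E14c_rot0 (u : E2) : rot u 0 = - u 1 := by simp [rot]

private theorem E14c_rot1 (u : E2) : rot u 1 = u 0 := by simp [rot]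

private theorem E14c_ext {x y : E2} (h0 : x 0 = y 0) (h1 : x 1 = y 1) : x = y := by
  ext i
  fin_cases i
  · exact h0
  · exact h1

theorem dual_basis {v w : E2} (h : inner ℝ v (rot w) ≠ 0) : ∃ v' w' : E2, inner ℝ v' v = 1 ∧ inner ℝ v' w = 0 ∧ inner ℝ w' v = 0 ∧
    inner ℝ w' w = 1 ∧ v' ≠ 0 ∧ w' ≠ 0 ∧ ∀ x : E2, x = (inner ℝ x v : ℝ) • v' + (inner ℝ x w : ℝ) • w' := by
  rw [E14c_inner, E14c_rot0, E14c_rot1] at h
  have h1 : inner ℝ ((v 0 * -w 1 + v 1 * w 0)⁻¹ • rot w) v = 1 := by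
    rw [real_inner_smul_left, E14c_inner, E14c_rot0, E14c_rot1,
      show -w 1 * v 0 + w 0 * v 1 = v 0 * -w 1 + v 1 * w 0 by ring]
    exact inv_mul_cancel₀ h
  have h2 : inner ℝ ((-(v 0 * -w 1 + v 1 * w 0))⁻¹ • rot v) w = 1 := by
    rw [real_inner_smul_left, E14c_inner, E14c_rot0, E14c_rot1,
      show -v 1 * w 0 + v 0 * w 1 = -(v 0 * -w 1 + v 1 * w 0) by ring]
    exact inv_mul_cancel₀ (neg_ne_zero.2 h)
  refine ⟨(v 0 * -w 1 + v 1 * w 0)⁻¹ • rot w, (-(v 0 * -w 1 + v 1 * w 0))⁻¹ • rot v, h1, ?_, ?_,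
    h2, ?_, ?_, ?_⟩
  · rw [real_inner_smul_left, E14c_inner, E14c_rot0, E14c_rot1]
    ring
  · rw [real_inner_smul_left, E14c_inner, E14c_rot0, E14c_rot1]
    ring
  · intro h0
    rw [h0, inner_zero_left] at h1
    exact zero_ne_one h1
  · intro h0
    rw [h0, inner_zero_left] at h2
    exact zero_ne_one h2
  · intro x
    refine E14c_ext ?_ ?_
    · simp only [PiLp.add_apply, PiLp.smul_apply, smul_eq_mul, E14c_inner, E14c_rot0]
      rw [inv_neg]
      have h3 : (v 0 * -w 1 + v 1 * w 0) * (v 0 * -w 1 + v 1 * w 0)⁻¹ = 1 := mul_inv_cancel₀ h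
      linear_combination (- x 0) * h3
    · simp only [PiLp.add_apply, PiLp.smul_apply, smul_eq_mul, E14c_inner, E14c_rot1]
      rw [inv_neg]
      have h3 : (v 0 * -w 1 + v 1 * w 0) * (v 0 * -w 1 + v 1 * w 0)⁻¹ = 1 := mul_inv_cancel₀ h
      linear_combination (- x 1) * h3

private def E14c_sg (v : E2) (a : ℝ) : Set E2 := (fun s : ℝ => s • v) '' Icc (-a) a

private theorem E14c_sg_dir {v : E2} (hv : v ≠ 0) {a : ℝ} (ha : 0 < a) :
    Module.finrank ℝ (affineSpan ℝ (E14c_sg v a)).direction = 1 := by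
  rw [direction_affineSpan]
  have h1 : vectorSpan ℝ (E14c_sg v a) = ℝ ∙ v := by
    refine le_antisymm ?_ ?_
    · refine Submodule.span_le.2 ?_
      rintro _ ⟨_, ⟨s, -, rfl⟩, _, ⟨t, -, rfl⟩, rfl⟩
      show s • v - t • v ∈ _
      rw [← sub_smul]
      exact Submodule.smul_mem _ _ (Submodule.mem_span_singleton_self v)
    · rw [Submodule.span_singleton_le_iff_mem]
      have h2 : a • v -ᵥ (0 : ℝ) • v ∈ vectorSpan ℝ (E14c_sg v a) :=
        vsub_mem_vectorSpan ℝ ⟨a, ⟨by linarith, le_refl a⟩, rfl⟩ ⟨0, ⟨by linarith, ha.le⟩, rfl⟩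
      rw [zero_smul, vsub_eq_sub, sub_zero] at h2
      have h3 := Submodule.smul_mem _ a⁻¹ h2
      rwa [smul_smul, inv_mul_cancel₀ ha.ne', one_smul] at h3
  rw [h1]
  exact finrank_span_singleton hv

private theorem E14c_sg_smul (v : E2) {a a' : ℝ} (ha : 0 < a) (ha' : 0 < a') :
    E14c_sg v a' = (a' / a) • E14c_sg v a := by
  have hr : 0 < a' / a := div_pos ha' ha
  ext x
  rw [mem_smul_set_iff_inv_smul_mem₀ hr.ne']
  constructor
  · rintro ⟨s, ⟨h1, h2⟩, rfl⟩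
    refine ⟨(a' / a)⁻¹ * s, ⟨?_, ?_⟩, by
      show ((a' / a)⁻¹ * s) • v = (a' / a)⁻¹ • s • v
      rw [smul_smul]⟩
    · rw [inv_div, div_mul_eq_mul_div, le_div_iff₀ ha']
      nlinarith
    · rw [inv_div, div_mul_eq_mul_div, div_le_iff₀ ha']
      nlinarith
  · rintro ⟨s, ⟨h1, h2⟩, h3⟩
    refine ⟨(a' / a) * s, ⟨?_, ?_⟩, ?_⟩
    · rw [div_mul_eq_mul_div, le_div_iff₀ ha]
      nlinarith
    · rw [div_mul_eq_mul_div, div_le_iff₀ ha]
      nlinarith
    · show ((a' / a) * s) • v = x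
      have h4 : s • v = (a' / a)⁻¹ • x := h3
      rw [← smul_smul, h4, smul_smul, mul_inv_cancel₀ hr.ne', one_smul]

private theorem E14c_par {v w v' w' : E2} (h1 : inner ℝ v' v = 1) (h2 : inner ℝ v' w = 0)
    (h3 : inner ℝ w' v = 0) (h4 : inner ℝ w' w = 1)
    (h5 : ∀ x : E2, x = (inner ℝ x v : ℝ) • v' + (inner ℝ x w : ℝ) • w') (a b : ℝ) :
    par v w a b = E14c_sg v' a + E14c_sg w' b := by
  ext x
  rw [Set.mem_add]
  constructor
  · rintro ⟨h6, h7⟩
    exact ⟨_, ⟨inner ℝ x v, abs_le.1 h6, rfl⟩, _, ⟨inner ℝ x w, abs_le.1 h7, rfl⟩, (h5 x).symm⟩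
  · rintro ⟨_, ⟨s, hs, rfl⟩, _, ⟨t, ht, rfl⟩, rfl⟩
    constructor
    · show |inner ℝ (s • v' + t • w') v| ≤ a
      rw [inner_add_left, real_inner_smul_left, real_inner_smul_left, h1, h3, mul_one, mul_zero,
        add_zero]
      exact abs_le.2 hs
    · show |inner ℝ (s • v' + t • w') w| ≤ b
      rw [inner_add_left, real_inner_smul_left, real_inner_smul_left, h2, h4, mul_one, mul_zero,
        zero_add]
      exact abs_le.2 ht

private theorem E14c_sg_prop {v : E2} (hv : v ≠ 0) {a : ℝ} (ha : 0 < a) :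
    Convex ℝ (E14c_sg v a) ∧ IsCompact (E14c_sg v a) ∧ (E14c_sg v a).Nonempty ∧
      1 ≤ Module.finrank ℝ (affineSpan ℝ (E14c_sg v a)).direction := by
  refine ⟨?_, ?_, ⟨(0 : ℝ) • v, 0, ⟨by linarith, ha.le⟩, rfl⟩, (E14c_sg_dir hv ha).ge⟩
  · exact (convex_Icc (-a) a).is_linear_image
      ⟨fun x y => add_smul x y v, fun c x => by
        show (c • x) • v = c • x • v
        rw [smul_assoc]⟩
  · exact isCompact_Icc.image (by fun_prop)

theorem dec_par {v w : E2} (h : inner ℝ v (rot w) ≠ 0) {a b a' b' : ℝ} (ha : 0 < a) (hb : 0 < b) (ha' : 0 < a') (hb' : 0 < b') :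
    Dec (par v w a b) (par v w a' b') := by
  obtain ⟨v', w', h1, h2, h3, h4, hv', hw', h5⟩ := dual_basis h
  refine ⟨2, ![E14c_sg v' a, E14c_sg w' b], ![E14c_sg v' a', E14c_sg w' b'], ?_, ?_, ?_, ?_, ?_⟩
  · intro i
    fin_cases i
    · exact E14c_sg_prop hv' ha
    · exact E14c_sg_prop hw' hb
  · rw [Fin.sum_univ_two]
    show Module.finrank ℝ (affineSpan ℝ (E14c_sg v' a)).direction +
      Module.finrank ℝ (affineSpan ℝ (E14c_sg w' b)).direction = 2
    rw [E14c_sg_dir hv' ha, E14c_sg_dir hw' hb]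
  · rw [Fin.sum_univ_two]
    exact E14c_par h1 h2 h3 h4 h5 a b
  · rw [Fin.sum_univ_two]
    exact E14c_par h1 h2 h3 h4 h5 a' b'
  · intro i
    fin_cases i
    · exact ⟨a' / a, div_pos ha' ha, E14c_sg_smul v' ha ha'⟩
    · exact ⟨b' / b, div_pos hb' hb, E14c_sg_smul w' hb hb'⟩

theorem dec_smul {K : Set E2} (hK : Body K) {r : ℝ} (hr : 0 < r) : Dec K (r • K) := by
  have h1 : affineSpan ℝ K = ⊤ :=
    affineSpan_eq_top_of_nonempty_interior ⟨0, interior_mono (subset_convexHull ℝ K) hK.zero⟩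
  have h2 : Module.finrank ℝ (affineSpan ℝ K).direction = 2 := by
    rw [h1, AffineSubspace.direction_top, finrank_top]
    exact finrank_euclideanSpace_fin
  refine ⟨1, fun _ => K, fun _ => r • K, fun _ => ⟨hK.conv, hK.comp, ⟨0, interior_subset hK.zero⟩,
    by rw [h2]; norm_num⟩, ?_, ?_, ?_, fun _ => ⟨r, hr, rfl⟩⟩
  · rw [Fin.sum_univ_one]
    exact h2
  · rw [Fin.sum_univ_one]
  · rw [Fin.sum_univ_one]

theorem dec_scale {K C : Set E2} {r : ℝ} (hr : 0 < r) (h : Dec K (r • C)) : Dec K C := by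
  obtain ⟨m, Ks, Cs, h1, h2, h3, h4, h5⟩ := h
  refine ⟨m, Ks, fun i => r⁻¹ • Cs i, h1, h2, h3, ?_, ?_⟩
  · rw [← Finset.smul_sum, ← h4, inv_smul_smul₀ hr.ne']
  · intro i
    obtain ⟨ρ, hρ, h6⟩ := h5 i
    refine ⟨r⁻¹ * ρ, mul_pos (inv_pos.2 hr) hρ, ?_⟩
    show r⁻¹ • Cs i = _
    rw [h6, smul_smul]

end Pool.Agent.Lib.MP_1dedaf_gt.LB
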