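import Pool.Agent.Lib.MP_1dedaf_gt.Mg.G052
import Pool.Agent.Lib.MP_1dedaf_gt.Mg.G051
import Pool.Agent.Lib.MP_1dedaf_gt.Mg.G001
import Pool.Agent.Lib.MP_1dedaf_gt.LB.E14c

/-!
# TASK LB E15a: decomposed centered bodies are dilates or parallelograms

Proof. The dimensions are `≥ 1` with sum `2`, so `m = 1` or `m = 2`. `m = 1`: `C = r • K`. `m = 2`: `Ks 0`, `Ks 1` are compact convex sets whose affine spans are lines, so `Ks 0 = {p + s • v' : |s| ≤ 1}`, `Ks 1 = {q + s • w' : |s| ≤ 1}` with `v', w' ≠ 0` (a compact convex subset of a line, not a point, is a segment; `p`, `q` midpoints).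
`K = (p + q) + {s v' + s' w' : |s|, |s'| ≤ 1}` has interior points, so `v', w'` are linearly independent; it is symmetric about `p + q`, so its centroid is `p + q = 0`. `C = r₀ • Ks 0 + r₁ • Ks 1 = (r₀ p + r₁ q) + {s v' + s' w' : |s| ≤ r₀, |s'| ≤ r₁}`, centroid `r₀ p + r₁ q = 0`.
With the dual basis `v, w` of `v', w'` (`v = rot w' / <v', rot w'>` ...): `K = par v w 1 1`, `C = par v w r₀ r₁`. (Similar lemmas: Pool/Agent/Lib/MP_1dedaf_gt/Fin.lean, `dec_sym`.)
-/

set_option autoImplicit false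

open MeasureTheory Set Filter Topology

namespace Pool.Agent.Lib.MP_1dedaf_gt.LB

open scoped Pointwise

/-- Compact convex sets of dimension one are segments. -/
private theorem E15a_seg {S : Set E2} (hS : IsCompact S) (hc : Convex ℝ S) (hne : S.Nonempty)
    (hd : Module.finrank ℝ (affineSpan ℝ S).direction = 1) :
    ∃ p v : E2, v ≠ 0 ∧ S = {x | ∃ s : ℝ, |s| ≤ 1 ∧ x = p + s • v} := by
  obtain ⟨⟨v, hv⟩, hv0, hvs⟩ := finrank_eq_one_iff'.1 hd
  have hv0' : v ≠ 0 := fun h => hv0 (Subtype.ext h)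
  have hvv : 0 < inner ℝ v v := by
    rw [real_inner_self_eq_norm_sq]
    have := norm_pos_iff.2 hv0'
    positivity
  obtain ⟨p, hp, hpm⟩ := hS.exists_isMinOn hne
    (f := fun x => (inner ℝ x v : ℝ)) (by fun_prop)
  obtain ⟨q, hq, hqm⟩ := hS.exists_isMaxOn hne
    (f := fun x => (inner ℝ x v : ℝ)) (by fun_prop)
  have hline : ∀ x ∈ S, ∃ s : ℝ, x = p + s • v := by
    intro x hx
    have hxm : x - p ∈ (affineSpan ℝ S).direction :=
      AffineSubspace.vsub_mem_direction (subset_affineSpan ℝ S hx) (subset_affineSpan ℝ S hp)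
    obtain ⟨c, hc⟩ := hvs ⟨x - p, hxm⟩
    have := congrArg Subtype.val hc
    simp only [SetLike.val_smul] at this
    exact ⟨c, by rw [this]; abel⟩
  obtain ⟨s₁, hs₁⟩ := hline q hq
  have i2 : inner ℝ q v = inner ℝ p v + s₁ * inner ℝ v v := by
    rw [hs₁, inner_add_left, real_inner_smul_left]
  have hrange : ∀ x ∈ S, ∃ s : ℝ, x = p + s • v ∧ 0 ≤ s ∧ s ≤ s₁ := by
    intro x hx
    obtain ⟨s, hs⟩ := hline x hx
    have i1 : inner ℝ x v = inner ℝ p v + s * inner ℝ v v := by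
      rw [hs, inner_add_left, real_inner_smul_left]
    refine ⟨s, hs, ?_, ?_⟩
    · have h := hpm hx
      have h' : (inner ℝ p v : ℝ) ≤ inner ℝ x v := h
      by_contra hn
      push Not at hn
      nlinarith
    · have h := hqm hx
      have h' : (inner ℝ x v : ℝ) ≤ inner ℝ q v := h
      by_contra hn
      push Not at hn
      nlinarith
  have hs1 : 0 < s₁ := by
    rcases lt_trichotomy 0 s₁ with h | h | h
    · exact h
    · exfalso
      have hS1 : S = {p} := by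
        refine Set.Subset.antisymm (fun x hx => ?_) (fun x hx => ?_)
        · obtain ⟨s, hs, h1, h2⟩ := hrange x hx
          have h3 : s = 0 := by linarith
          rw [h3, zero_smul, add_zero] at hs
          exact hs
        · rw [mem_singleton_iff.1 hx]
          exact hp
      rw [hS1, direction_affineSpan, vectorSpan_singleton, finrank_bot] at hd
      exact zero_ne_one hd
    · obtain ⟨s, hs, h1, h2⟩ := hrange p hp
      linarith
  refine ⟨p + (s₁ / 2) • v, (s₁ / 2) • v, smul_ne_zero (by positivity) hv0', ?_⟩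
  refine Set.Subset.antisymm (fun x hx => ?_) ?_
  · obtain ⟨s, hs, h1, h2⟩ := hrange x hx
    refine ⟨2 * s / s₁ - 1, ?_, ?_⟩
    · rw [abs_le]
      constructor
      · have : 0 ≤ 2 * s / s₁ := by positivity
        linarith
      · have : 2 * s / s₁ ≤ 2 := by
          rw [div_le_iff₀ hs1]
          linarith
        linarith
    · rw [hs, smul_smul, add_assoc, ← add_smul]
      have e : s₁ / 2 + (2 * s / s₁ - 1) * (s₁ / 2) = s := by
        field_simp
        ring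
      rw [e]
  · rintro x ⟨σ, hσ, rfl⟩
    rw [abs_le] at hσ
    have e : p + (s₁ / 2) • v + σ • (s₁ / 2) • v = ((1 - σ) / 2) • p + ((1 + σ) / 2) • q := by
      rw [hs₁, smul_add, smul_smul, smul_smul, ← add_assoc, ← add_smul, add_assoc, ← add_smul]
      have e1 : (1 - σ) / 2 + (1 + σ) / 2 = 1 := by ring
      have e2 : s₁ / 2 + σ * (s₁ / 2) = (1 + σ) / 2 * s₁ := by ring
      rw [e1, e2, one_smul]
    rw [e]
    exact hc hp hq (by linarith) (by linarith) (by ring)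

/-- A set which is symmetric about a point has its centroid there. -/
private theorem E15a_sym {K : Set E2} (hK : IsCompact K) (hpos : 0 < volume.real K)
    (h0 : ∫ x in K, x = 0) {a : E2} (ha : ∀ x ∈ K, a - x ∈ K) : a = 0 := by
  have himg : (fun x => a - x) ⁻¹' K = K := by
    ext x
    constructor
    · intro hx
      have := ha _ hx
      rwa [sub_sub_cancel] at this
    · exact fun hx => ha x hx
  have hi : IntegrableOn (fun x : E2 => x) K := continuousOn_id.integrableOn_compact hK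
  have h1 : ∫ x in K, (a - x) = ∫ x in K, x := by
    have hm : MeasurePreserving (fun x : E2 => a - x) volume volume :=
      Measure.measurePreserving_sub_left volume a
    have hemb : MeasurableEmbedding fun x : E2 => a - x :=
      (Homeomorph.subLeft a).measurableEmbedding
    have := hm.setIntegral_preimage_emb hemb (fun x => x) K
    rw [himg] at this
    exact this
  have h2 : ∫ x in K, (a - x) = volume.real K • a := by
    have hi2 : IntegrableOn (fun _ : E2 => a) K := integrableOn_const hK.measure_lt_top.ne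
    rw [integral_sub hi2 hi, h0, sub_zero, setIntegral_const]
  rw [h2, h0] at h1
  exact (smul_eq_zero.1 h1).resolve_left hpos.ne'

private theorem E15a_ip (x y : E2) : inner ℝ x y = x 0 * y 0 + x 1 * y 1 := by
  simp [PiLp.inner_apply, Fin.sum_univ_two]
  ring

private theorem E15a_rot0 (w : E2) : rot w 0 = -w 1 := by simp [rot]

private theorem E15a_rot1 (w : E2) : rot w 1 = w 0 := by simp [rot]

private theorem E15a_dual {v' w' : E2} (h : inner ℝ v' (rot w') ≠ 0) : ∃ v w : E2,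
    inner ℝ v (rot w) ≠ 0 ∧ inner ℝ v' v = 1 ∧ inner ℝ v' w = 0 ∧ inner ℝ w' v = 0 ∧ inner ℝ w' w = 1 ∧
    ∀ x : E2, x = (inner ℝ x v : ℝ) • v' + (inner ℝ x w : ℝ) • w' := by
  have hD : v' 0 * w' 1 - v' 1 * w' 0 ≠ 0 := by
    intro h1
    apply h
    rw [E15a_ip, E15a_rot0, E15a_rot1]
    linarith
  obtain ⟨D, hDe⟩ : ∃ D : ℝ, D = v' 0 * w' 1 - v' 1 * w' 0 := ⟨_, rfl⟩
  rw [← hDe] at hD
  refine ⟨!₂[w' 1 / D, -w' 0 / D], !₂[-v' 1 / D, v' 0 / D], ?_, ?_, ?_, ?_, ?_, ?_⟩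
  · rw [E15a_ip, E15a_rot0, E15a_rot1]
    simp only [Matrix.cons_val_zero, Matrix.cons_val_one]
    have e : w' 1 / D * -(v' 0 / D) + -w' 0 / D * (-v' 1 / D) = -((v' 0 * w' 1 - v' 1 * w' 0) / D * (1 / D)) := by
      ring
    rw [e, ← hDe, div_self hD, one_mul]
    exact neg_ne_zero.mpr (one_div_ne_zero hD)
  · rw [E15a_ip]
    simp only [Matrix.cons_val_zero, Matrix.cons_val_one]
    have e : v' 0 * (w' 1 / D) + v' 1 * (-w' 0 / D) = (v' 0 * w' 1 - v' 1 * w' 0) / D := by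
      ring
    rw [e, ← hDe, div_self hD]
  · rw [E15a_ip]
    simp only [Matrix.cons_val_zero, Matrix.cons_val_one]
    ring
  · rw [E15a_ip]
    simp only [Matrix.cons_val_zero, Matrix.cons_val_one]
    ring
  · rw [E15a_ip]
    simp only [Matrix.cons_val_zero, Matrix.cons_val_one]
    have e : w' 0 * (-v' 1 / D) + w' 1 * (v' 0 / D) = (v' 0 * w' 1 - v' 1 * w' 0) / D := by
      ring
    rw [e, ← hDe, div_self hD]
  · intro x
    rw [E15a_ip, E15a_ip]
    simp only [Matrix.cons_val_zero, Matrix.cons_val_one]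
    ext i
    fin_cases i
    · simp only [Fin.zero_eta, Fin.isValue, PiLp.add_apply, PiLp.smul_apply, smul_eq_mul]
      have e : (x 0 * (w' 1 / D) + x 1 * (-w' 0 / D)) * v' 0 + (x 0 * (-v' 1 / D) + x 1 * (v' 0 / D)) * w' 0 =
          x 0 * ((v' 0 * w' 1 - v' 1 * w' 0) / D) := by
        ring
      rw [e, ← hDe, div_self hD, mul_one]
    · simp only [Fin.mk_one, Fin.isValue, PiLp.add_apply, PiLp.smul_apply, smul_eq_mul]
      have e : (x 0 * (w' 1 / D) + x 1 * (-w' 0 / D)) * v' 1 + (x 0 * (-v' 1 / D) + x 1 * (v' 0 / D)) * w' 1 =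
          x 1 * ((v' 0 * w' 1 - v' 1 * w' 0) / D) := by
        ring
      rw [e, ← hDe, div_self hD, mul_one]

private theorem E15a_center {K : Set E2} (hK : Body K) (h0 : ∫ x in K, x = 0) {c v' w' : E2} {a b : ℝ}
    (hP : K = {x | ∃ s s' : ℝ, |s| ≤ a ∧ |s'| ≤ b ∧ x = c + s • v' + s' • w'}) : c = 0 := by
  have hVpos : 0 < volume.real K := ENNReal.toReal_pos
    ((isOpen_interior.measure_pos volume ⟨0, hK.zero⟩).trans_le (measure_mono interior_subset)).ne'
    hK.comp.measure_lt_top.ne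
  have h1 : (c + c : E2) = 0 := by
    refine E15a_sym hK.comp hVpos h0 fun x hx => ?_
    rw [hP] at hx ⊢
    obtain ⟨s, s', hs, hs', rfl⟩ := hx
    refine ⟨-s, -s', by rwa [abs_neg], by rwa [abs_neg], ?_⟩
    rw [neg_smul, neg_smul]
    abel
  rw [← two_smul ℝ c] at h1
  exact (smul_eq_zero.1 h1).resolve_left two_ne_zero

private theorem E15a_ind {K : Set E2} (hK : Body K) {c v' w' : E2} (hw : w' ≠ 0)
    (hP : K = {x | ∃ s s' : ℝ, |s| ≤ 1 ∧ |s'| ≤ 1 ∧ x = c + s • v' + s' • w'}) : inner ℝ v' (rot w') ≠ 0 := by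
  intro h
  have hconst : ∀ x ∈ K, inner ℝ x (rot w') = (inner ℝ c (rot w') : ℝ) := by
    intro x hx
    rw [hP] at hx
    obtain ⟨s, s', -, -, rfl⟩ := hx
    rw [inner_add_left, inner_add_left, real_inner_smul_left, real_inner_smul_left, h, rot_inner]
    ring
  have hnear : ∀ᶠ ε : ℝ in 𝓝 0, ε • rot w' ∈ K := by
    have hcont : Filter.Tendsto (fun ε : ℝ => ε • rot w') (𝓝 0) (𝓝 (0 : E2)) := by
      have : Continuous (fun ε : ℝ => ε • rot w') := by fun_prop
      have h2 := this.tendsto 0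
      simpa using h2
    exact hcont.eventually (mem_interior_iff_mem_nhds.mp hK.zero)
  obtain ⟨ε, hε, hε0⟩ := (Filter.Eventually.and
    (hnear.filter_mono nhdsWithin_le_nhds : ∀ᶠ ε : ℝ in 𝓝[≠] 0, ε • rot w' ∈ K) self_mem_nhdsWithin).exists
  have h1 := hconst _ hε
  have h2 := hconst _ (interior_subset hK.zero)
  rw [← h2, inner_zero_left, real_inner_smul_left, real_inner_self_eq_norm_sq, rot_norm] at h1
  have h3 : ‖w'‖ ≠ 0 := norm_ne_zero_iff.mpr hw
  have h4 : ε ≠ 0 := hε0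
  exact (mul_ne_zero h4 (pow_ne_zero 2 h3)) h1

private theorem E15a_sum (p q v' w' : E2) {r₀ r₁ : ℝ} (h₀ : 0 < r₀) (h₁ : 0 < r₁) :
    r₀ • {x : E2 | ∃ s : ℝ, |s| ≤ 1 ∧ x = p + s • v'} + r₁ • {x : E2 | ∃ s : ℝ, |s| ≤ 1 ∧ x = q + s • w'} =
    {x | ∃ s s' : ℝ, |s| ≤ r₀ ∧ |s'| ≤ r₁ ∧ x = (r₀ • p + r₁ • q) + s • v' + s' • w'} := by
  ext x
  constructor
  · rintro ⟨_, ⟨_, ⟨s, hs, rfl⟩, rfl⟩, _, ⟨_, ⟨s', hs', rfl⟩, rfl⟩, rfl⟩
    refine ⟨r₀ * s, r₁ * s', ?_, ?_, ?_⟩
    · rw [abs_mul, abs_of_pos h₀]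
      nlinarith
    · rw [abs_mul, abs_of_pos h₁]
      nlinarith
    · show r₀ • (p + s • v') + r₁ • (q + s' • w') = _
      rw [smul_add, smul_add, smul_smul, smul_smul]
      abel
  · rintro ⟨s, s', hs, hs', rfl⟩
    refine ⟨r₀ • (p + (s / r₀) • v'), ⟨_, ⟨s / r₀, ?_, rfl⟩, rfl⟩,
      r₁ • (q + (s' / r₁) • w'), ⟨_, ⟨s' / r₁, ?_, rfl⟩, rfl⟩, ?_⟩
    · rw [abs_div, abs_of_pos h₀, div_le_one h₀]
      exact hs
    · rw [abs_div, abs_of_pos h₁, div_le_one h₁]
      exact hs'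
    · show r₀ • (p + (s / r₀) • v') + r₁ • (q + (s' / r₁) • w') = _
      rw [smul_add, smul_add, smul_smul, smul_smul, mul_div_cancel₀ _ h₀.ne', mul_div_cancel₀ _ h₁.ne']
      abel

private theorem E15a_par {v w v' w' : E2} {a b : ℝ} (h1 : inner ℝ v' v = 1) (h2 : inner ℝ v' w = 0)
    (h3 : inner ℝ w' v = 0) (h4 : inner ℝ w' w = 1)
    (h5 : ∀ x : E2, x = (inner ℝ x v : ℝ) • v' + (inner ℝ x w : ℝ) • w') :
    {x | ∃ s s' : ℝ, |s| ≤ a ∧ |s'| ≤ b ∧ x = (0 : E2) + s • v' + s' • w'} = par v w a b := by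
  ext x
  constructor
  · rintro ⟨s, s', hs, hs', rfl⟩
    show |inner ℝ ((0 : E2) + s • v' + s' • w') v| ≤ a ∧ |inner ℝ ((0 : E2) + s • v' + s' • w') w| ≤ b
    rw [zero_add, inner_add_left, inner_add_left, real_inner_smul_left, real_inner_smul_left,
      real_inner_smul_left, real_inner_smul_left, h1, h2, h3, h4]
    simp only [mul_one, mul_zero, add_zero, zero_add]
    exact ⟨hs, hs'⟩
  · rintro ⟨hs, hs'⟩
    refine ⟨inner ℝ x v, inner ℝ x w, hs, hs', ?_⟩
    rw [zero_add]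
    exact h5 x

theorem dec_cases {K C : Set E2} (hK : Body K) (hC : Body C) (h0 : ∫ x in K, x = 0) (h0' : ∫ x in C, x = 0) (h : Dec K C) :
    (∃ r : ℝ, 0 < r ∧ C = r • K) ∨
    ∃ v w : E2, inner ℝ v (rot w) ≠ 0 ∧ ∃ a b a' b' : ℝ, 0 < a ∧ 0 < b ∧ 0 < a' ∧ 0 < b' ∧ K = par v w a b ∧ C = par v w a' b' := by
  obtain ⟨m, Ks, Cs, h1, h2, h3, h4, h5⟩ := h
  have hm : m ≤ 2 := by
    calc m = ∑ _i : Fin m, 1 := by simp
      _ ≤ ∑ i, Module.finrank ℝ (affineSpan ℝ (Ks i)).direction :=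
          Finset.sum_le_sum fun i _ => (h1 i).2.2.2
      _ = 2 := h2
  interval_cases m
  · simp at h2
  · left
    rw [Fin.sum_univ_one] at h3 h4
    obtain ⟨c, hc0, hc⟩ := h5 0
    exact ⟨c, hc0, by rw [h4, hc, ← h3]⟩
  · right
    rw [Fin.sum_univ_two] at h2 h3 h4
    have d0 := (h1 0).2.2.2
    have d1 := (h1 1).2.2.2
    obtain ⟨p, v', hv', hS0⟩ := E15a_seg (h1 0).2.1 (h1 0).1 (h1 0).2.2.1 (by omega)
    obtain ⟨q, w', hw', hS1⟩ := E15a_seg (h1 1).2.1 (h1 1).1 (h1 1).2.2.1 (by omega)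
    obtain ⟨r₀, hr₀, hc₀⟩ := h5 0
    obtain ⟨r₁, hr₁, hc₁⟩ := h5 1
    have hKP := E15a_sum p q v' w' one_pos one_pos
    rw [← hS0, ← hS1, one_smul, one_smul, ← h3] at hKP
    have hCP := E15a_sum p q v' w' hr₀ hr₁
    rw [← hS0, ← hS1, ← hc₀, ← hc₁, ← h4] at hCP
    have hcK := E15a_center hK h0 hKP
    have hcC := E15a_center hC h0' hCP
    have hind := E15a_ind hK hw' hKP
    rw [hcK] at hKP
    rw [hcC] at hCP
    obtain ⟨v, w, hvw, e1, e2, e3, e4, e5⟩ := E15a_dual hind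
    refine ⟨v, w, hvw, 1, 1, r₀, r₁, one_pos, one_pos, hr₀, hr₁, ?_, ?_⟩
    · rw [hKP]
      exact E15a_par e1 e2 e3 e4 e5
    · rw [hCP]
      exact E15a_par e1 e2 e3 e4 e5

end Pool.Agent.Lib.MP_1dedaf_gt.LB
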