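import Pool.Agent.Lib.MP_1dedaf_gt.Mg.G001

/-!
# TASK LB F0: the centroid is an interior point

Proof. If `0 ∉ interior K` there is a nonzero vector `u` with `<x, u> ≤ 0` for all `x ∈ K` (separate the point `0` from the open convex set
`interior K`, `geometric_hahn_banach_open_point`, and pass to the closure `K = closure (interior K)`, `Convex.closure_interior_eq_closure_of_nonempty_interior`;
Riesz). `<x, u> < 0` on `interior K` (an open set on which the linear functional is `≤ 0`), so `∫_K <x, u> < 0`, but
`∫_K <x,u> = <∫_K x, u> = 0`.
-/

set_option autoImplicit false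

open MeasureTheory Set Filter Topology

namespace Pool.Agent.Lib.MP_1dedaf_gt.LB

theorem body_of_centroid {K : Set E2} (hc : Convex ℝ K) (hK : IsCompact K) (hi : (interior K).Nonempty)
    (h0 : (∫ x in K, x ∂volume) = 0) : Body K := by
  refine ⟨hc, hK, ?_⟩
  by_contra hn
  obtain ⟨f, hf⟩ := geometric_hahn_banach_open_point hc.interior isOpen_interior hn
  simp only [map_zero] at hf
  have hcl : K ⊆ closure (interior K) := by
    rw [hc.closure_interior_eq_closure_of_nonempty_interior hi]
    exact subset_closure
  have hf0 : ∀ x ∈ K, f x ≤ 0 := by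
    intro x hx
    have h1 : closure (interior K) ⊆ {x | f x ≤ 0} :=
      closure_minimal (fun y hy => (hf y hy).le) (isClosed_le f.continuous continuous_const)
    exact h1 (hcl hx)
  have hint : IntegrableOn (fun x : E2 => x) K volume :=
    continuousOn_id.integrableOn_compact hK
  have h1 : ∫ x in K, f x ∂volume = 0 := by
    rw [f.integral_comp_comm hint, h0, map_zero]
  have hintf : IntegrableOn (fun x : E2 => - f x) K volume :=
    (f.continuous.neg.continuousOn).integrableOn_compact hK
  have h2 : ∫ x in K, - f x ∂volume = 0 := by
    rw [integral_neg, h1, neg_zero]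
  have hmK : MeasurableSet K := hK.isClosed.measurableSet
  have h3 : (fun x => - f x) =ᵐ[volume.restrict K] 0 := by
    refine (setIntegral_eq_zero_iff_of_nonneg_ae ?_ hintf).1 h2
    rw [Filter.EventuallyLE, ae_restrict_iff' hmK]
    exact Filter.Eventually.of_forall fun x hx => neg_nonneg.2 (hf0 x hx)
  rw [Filter.EventuallyEq, ae_restrict_iff' hmK] at h3
  have h4 : volume (interior K) = 0 := by
    refine measure_mono_null ?_ (ae_iff.1 h3)
    intro x hx hx2
    have h5 : - f x = 0 := hx2 (interior_subset hx)
    have h6 := hf x hx
    linarith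
  exact (isOpen_interior.measure_pos volume hi).ne' h4

end Pool.Agent.Lib.MP_1dedaf_gt.LB
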