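import Pool.Agent.Lib.MP_1dedaf_gt.Mg.G052
import Pool.Agent.Lib.MP_1dedaf_gt.Mg.G051
import Pool.Agent.Lib.MP_1dedaf_gt.Mg.G001
import Pool.Agent.Lib.MP_1dedaf_gt.LB.E1a
import Pool.Agent.Lib.MP_1dedaf_gt.Mg.G053

/-!
# TASK LB E14a: bodies with four normals are parallelograms

Proof. By `mem_of_normals` `B = {z | <z,v> ≤ β, -α ≤ <z,v>, <z,w> ≤ β', -α' ≤ <z,w>}`, `β = hs B v`, `α = hs B (-v)`, `β' = hs B w`, `α' = hs B (-w)`, all positive. `v, w` are linearly independent: if `<v, rot w> = 0` then `w = ± v` and `B` would contain all multiples of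
`rot v`. Let `m` be the point with `<m,v> = (β-α)/2`, `<m,w> = (β'-α')/2`; `x ↦ 2m - x` preserves `B` and the area, so `∫_B x = ∫_B (2m - x)`, `∫_B x = (ar B) m`; so `m = 0` by `h0`: `α = β`, `α' = β'`.
-/

set_option autoImplicit false

open MeasureTheory Set Filter Topology

namespace Pool.Agent.Lib.MP_1dedaf_gt.LB

private theorem E14a_inner (x y : E2) : inner ℝ x y = x 0 * y 0 + x 1 * y 1 := by
  simp [PiLp.inner_apply, Fin.sum_univ_two, mul_comm]

private theorem E14a_anti (x y : E2) : inner ℝ x (rot y) = -inner ℝ y (rot x) := by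
  rw [E14a_inner, E14a_inner]
  simp only [rot]
  simp
  ring

theorem par_of_normals {B : Set E2} (hB : Body B) (h0 : ∫ x in B, x = 0) {v w : E2} (hv : ‖v‖ = 1) (hw : ‖w‖ = 1)
    (hn : ∀ᵐ x ∂(volume : Measure E2), nu B x = v ∨ nu B x = -v ∨ nu B x = w ∨ nu B x = -w) :
    inner ℝ v (rot w) ≠ 0 ∧ ∃ a b : ℝ, 0 < a ∧ 0 < b ∧ B = par v w a b := by
  have hv0 : v ≠ 0 := by
    intro h
    rw [h, norm_zero] at hv
    exact zero_ne_one hv
  have hw0 : w ≠ 0 := by
    intro h
    rw [h, norm_zero] at hw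
    exact zero_ne_one hw
  have hmem : ∀ z : E2, z ∈ B ↔ (inner ℝ z v ≤ hs B v ∧ -hs B (-v) ≤ inner ℝ z v) ∧
      (inner ℝ z w ≤ hs B w ∧ -hs B (-w) ≤ inner ℝ z w) := by
    intro z
    constructor
    · intro hz
      have h1 := inner_le_hs hB.comp hz v
      have h2 := inner_le_hs hB.comp hz (-v)
      have h3 := inner_le_hs hB.comp hz w
      have h4 := inner_le_hs hB.comp hz (-w)
      rw [inner_neg_right] at h2 h4
      exact ⟨⟨h1, by linarith⟩, h3, by linarith⟩
    · rintro ⟨⟨h1, h2⟩, h3, h4⟩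
      refine mem_of_normals hB ?_
      filter_upwards [hn] with x hx
      rcases hx with hx | hx | hx | hx
      · rw [hx]
        exact h1
      · rw [hx, inner_neg_right]
        linarith
      · rw [hx]
        exact h3
      · rw [hx, inner_neg_right]
        linarith
  have hβ := hs_pos hB hv0
  have hα := hs_pos hB (neg_ne_zero.mpr hv0)
  have hβ' := hs_pos hB hw0
  have hα' := hs_pos hB (neg_ne_zero.mpr hw0)
  have hind : inner ℝ v (rot w) ≠ 0 := by
    intro h
    have h1 := rot_decomp w hw v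
    rw [h, zero_smul, add_zero] at h1
    have h2 : inner ℝ (rot w) w = (0 : ℝ) := by
      rw [real_inner_comm]
      exact rot_inner w
    have hall : ∀ s : ℝ, s • rot w ∈ B := by
      intro s
      have h3 : inner ℝ (s • rot w) w = (0 : ℝ) := by
        rw [inner_smul_left, h2, mul_zero]
      have h4 : inner ℝ (s • rot w) v = (0 : ℝ) := by
        rw [h1, inner_smul_right, h3, mul_zero]
      rw [hmem, h3, h4]
      exact ⟨⟨hβ.le, by linarith⟩, hβ'.le, by linarith⟩
    obtain ⟨R, hR⟩ := hB.comp.isBounded.subset_closedBall 0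
    have h5 := hR (hall (|R| + 1))
    rw [mem_closedBall_zero_iff, norm_smul, rot_norm, hw, mul_one, Real.norm_eq_abs] at h5
    have h6 : |R| + 1 ≤ |(|R| + 1)| := le_abs_self _
    have h7 := le_abs_self R
    linarith
  refine ⟨hind, ?_⟩
  -- the centre
  have hd : inner ℝ w (rot v) ≠ (0 : ℝ) := by
    rw [E14a_anti, neg_ne_zero]
    exact hind
  obtain ⟨m, hm1, hm2⟩ : ∃ m : E2, inner ℝ m v = (hs B v - hs B (-v)) / 2 ∧
      inner ℝ m w = (hs B w - hs B (-w)) / 2 := by
    refine ⟨((hs B v - hs B (-v)) / 2 / inner ℝ v (rot w)) • rot w +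
      ((hs B w - hs B (-w)) / 2 / inner ℝ w (rot v)) • rot v, ?_, ?_⟩
    · rw [inner_add_left, inner_smul_left, inner_smul_left, real_inner_comm v (rot w),
        real_inner_comm v (rot v), rot_inner, mul_zero, add_zero]
      simp only [conj_trivial]
      rw [div_mul_cancel₀ _ hind]
    · rw [inner_add_left, inner_smul_left, inner_smul_left, real_inner_comm w (rot w),
        real_inner_comm w (rot v), rot_inner, mul_zero, zero_add]
      simp only [conj_trivial]
      rw [div_mul_cancel₀ _ hd]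
  -- the reflection
  have hpre : (fun x : E2 => (2 : ℝ) • m - x) ⁻¹' B = B := by
    ext x
    rw [mem_preimage, hmem, hmem]
    simp only [inner_sub_left, inner_smul_left, conj_trivial, hm1, hm2]
    constructor
    · rintro ⟨⟨h1, h2⟩, h3, h4⟩
      exact ⟨⟨by linarith, by linarith⟩, by linarith, by linarith⟩
    · rintro ⟨⟨h1, h2⟩, h3, h4⟩
      exact ⟨⟨by linarith, by linarith⟩, by linarith, by linarith⟩
  have hmp : MeasurePreserving (fun x : E2 => (2 : ℝ) • m - x) volume volume :=
    Measure.measurePreserving_sub_left volume ((2 : ℝ) • m)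
  have hemb : MeasurableEmbedding (fun x : E2 => (2 : ℝ) • m - x) :=
    (Homeomorph.subLeft ((2 : ℝ) • m)).measurableEmbedding
  have hKm : MeasurableSet B := hB.comp.isClosed.measurableSet
  have hfin : volume B ≠ ⊤ := hB.comp.measure_lt_top.ne
  have hint : IntegrableOn (fun x : E2 => x) B := by
    exact continuous_id.continuousOn.integrableOn_compact hB.comp
  have h1 : ∫ x in B, ((2 : ℝ) • m - x) = ∫ x in B, x := by
    have := hmp.setIntegral_preimage_emb hemb (fun x : E2 => x) B
    rw [hpre] at this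
    exact this
  have hc : IntegrableOn (fun _ : E2 => (2 : ℝ) • m) B := integrableOn_const hfin
  rw [integral_sub hc hint, h0, sub_zero, setIntegral_const] at h1
  have har : (volume.real B) ≠ 0 := by
    have := ar_pos hB
    exact this.ne'
  rw [smul_eq_zero, smul_eq_zero] at h1
  have hm0 : m = 0 := by
    rcases h1 with h1 | h1 | h1
    · exact absurd h1 har
    · norm_num at h1
    · exact h1
  rw [hm0, inner_zero_left] at hm1 hm2
  refine ⟨hs B v, hs B w, hβ, hβ', ?_⟩
  ext z
  rw [hmem]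
  show _ ↔ |inner ℝ z v| ≤ hs B v ∧ |inner ℝ z w| ≤ hs B w
  rw [abs_le, abs_le]
  constructor
  · rintro ⟨⟨h2, h3⟩, h4, h5⟩
    exact ⟨⟨by linarith, h2⟩, by linarith, h4⟩
  · rintro ⟨⟨h2, h3⟩, h4, h5⟩
    exact ⟨⟨h3, by linarith⟩, h5, by linarith⟩

end Pool.Agent.Lib.MP_1dedaf_gt.LB
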