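import Pool.Agent.Lib.MP_1dedaf_gt.Mg.G052
import Pool.Agent.Lib.MP_1dedaf_gt.Mg.G051
import Pool.Agent.Lib.MP_1dedaf_gt.LB.E14c

/-!
# TASK LB E15b: the upper bound in the equality cases

(`hs_par`) `x = a • v'` (dual basis, `dual_basis`) is in the parallelogram and `<x, v> = a`; `≤` clear. (`ar_par`) `par v w a b` is the image of `par v w 1 1` under the linear map `T x = a <x,v> v' + b <x,w> w'` with determinant `ab` (matrix `diag (a,b)` in the basis `v', w'`;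
`Measure.addHaar_image_linearMap`). (`ar_LC_par`) for `x ∈ LC t K C` and the unit vector `u = v/‖v‖`: `<x,u> ≤ (a/‖v‖)^(1-t) (a'/‖v‖)^t = a^(1-t) a'^t/‖v‖` (`hs_smul`), the same for `-v, w, -w`; so `LC t K C ⊆ par v w (a^(1-t) a'^t) (b^(1-t) b'^t)`, area
`(a b)^(1-t) (a' b')^t ar (par v w 1 1) = (ar K)^(1-t) (ar C)^t`.
(`ar_LC_smul`) `h_K^(1-t) (r h_K)^t = r^t h_K`, so `LC t K (r • K) = r^t • K` (`Wu_hs`, scaling), area `r^(2t) ar K = (ar K)^(1-t) (r² ar K)^t`.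
(`LC_scale`) `h_K^(1-t) (r h_C)^t = r^t h_K^(1-t) h_C^t` and `Wu (c f) = c • Wu f` for `c > 0`.
-/

set_option autoImplicit false

open MeasureTheory Set Filter Topology

namespace Pool.Agent.Lib.MP_1dedaf_gt.LB

open scoped Pointwise

private theorem E15b_hs_eq {K : Set E2} {u : E2} {c : ℝ} (h : ∀ y ∈ K, inner ℝ y u ≤ c) {y : E2}
    (hy : y ∈ K) (hc : inner ℝ y u = c) : hs K u = c := by
  refine le_antisymm (hs_le ⟨y, hy⟩ h) ?_
  unfold hs
  refine le_csSup ⟨c, ?_⟩ ⟨y, hy, hc⟩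
  rintro _ ⟨z, hz, rfl⟩
  exact h z hz

theorem hs_par {v w : E2} (h : inner ℝ v (rot w) ≠ 0) {a b : ℝ} (ha : 0 < a) (hb : 0 < b) :
    hs (par v w a b) v = a ∧ hs (par v w a b) (-v) = a ∧ hs (par v w a b) w = b ∧ hs (par v w a b) (-w) = b := by
  obtain ⟨v', w', h1, h2, h3, h4, -, -, -⟩ := dual_basis h
  have mv : ∀ s : ℝ, |s| ≤ a → s • v' ∈ par v w a b := by
    intro s hs
    refine ⟨?_, ?_⟩
    · rw [real_inner_smul_left, h1, mul_one]; exact hs
    · rw [real_inner_smul_left, h2, mul_zero, abs_zero]; exact hb.le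
  have mw : ∀ s : ℝ, |s| ≤ b → s • w' ∈ par v w a b := by
    intro s hs
    refine ⟨?_, ?_⟩
    · rw [real_inner_smul_left, h3, mul_zero, abs_zero]; exact ha.le
    · rw [real_inner_smul_left, h4, mul_one]; exact hs
  have aa : |a| ≤ a := (abs_of_pos ha).le
  have ab : |b| ≤ b := (abs_of_pos hb).le
  have na : |-a| ≤ a := by rw [abs_neg]; exact aa
  have nb : |-b| ≤ b := by rw [abs_neg]; exact ab
  refine ⟨?_, ?_, ?_, ?_⟩
  · refine E15b_hs_eq (fun y hy => (le_abs_self _).trans hy.1) (mv a aa) ?_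
    rw [real_inner_smul_left, h1, mul_one]
  · refine E15b_hs_eq (fun y hy => ?_) (mv (-a) na) ?_
    · rw [inner_neg_right]; exact (neg_le_abs _).trans hy.1
    · rw [real_inner_smul_left, inner_neg_right, h1]; ring
  · refine E15b_hs_eq (fun y hy => (le_abs_self _).trans hy.2) (mw b ab) ?_
    rw [real_inner_smul_left, h4, mul_one]
  · refine E15b_hs_eq (fun y hy => ?_) (mw (-b) nb) ?_
    · rw [inner_neg_right]; exact (neg_le_abs _).trans hy.2
    · rw [real_inner_smul_left, inner_neg_right, h4]; ring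

private noncomputable def E15b_L (v w : E2) : E2 →ₗ[ℝ] E2 where
  toFun x := !₂[inner ℝ x v, inner ℝ x w]
  map_add' x y := by
    ext i
    fin_cases i <;> simp [inner_add_left]
  map_smul' r x := by
    ext i
    fin_cases i <;> simp [real_inner_smul_left]

private theorem E15b_det {v w : E2} (h : inner ℝ v (rot w) ≠ 0) : LinearMap.det (E15b_L v w) ≠ 0 := by
  intro h0
  obtain ⟨v', w', -, -, -, -, -, -, h7⟩ := dual_basis h
  have h1 := LinearMap.bot_lt_ker_of_det_eq_zero h0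
  refine h1.ne' ?_
  rw [LinearMap.ker_eq_bot']
  intro x hx
  have h2 : (inner ℝ x v : ℝ) = 0 := by
    have := congrArg (fun z : E2 => z 0) hx
    simpa [E15b_L] using this
  have h3 : (inner ℝ x w : ℝ) = 0 := by
    have := congrArg (fun z : E2 => z 1) hx
    simpa [E15b_L] using this
  rw [h7 x, h2, h3, zero_smul, zero_smul, add_zero]

private theorem E15b_vol {v w : E2} (h : inner ℝ v (rot w) ≠ 0) (a b : ℝ) :
    volume (par v w a b) = ENNReal.ofReal |(LinearMap.det (E15b_L v w))⁻¹| *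
      (ENNReal.ofReal (2 * a) * ENNReal.ofReal (2 * b)) := by
  have h1 : par v w a b = (E15b_L v w) ⁻¹' ((@WithLp.ofLp 2 (Fin 2 → ℝ)) ⁻¹' (Set.Icc ![-a, -b] ![a, b])) := by
    ext x
    simp only [par, E15b_L, Set.mem_ofPred_eq, Set.mem_preimage, Set.mem_Icc, Pi.le_def,
      Fin.forall_fin_two, abs_le, LinearMap.coe_mk, AddHom.coe_mk, Matrix.cons_val_zero,
      Matrix.cons_val_one, Matrix.cons_val_fin_one]
    tauto
  rw [h1, Measure.addHaar_preimage_linearMap _ (E15b_det h),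
    (PiLp.volume_preserving_ofLp (Fin 2)).measure_preimage
      (measurableSet_Icc.nullMeasurableSet), Real.volume_Icc_pi, Fin.prod_univ_two]
  congr 3
  · simp; ring_nf
  · simp; ring_nf

private theorem E15b_ar {v w : E2} (h : inner ℝ v (rot w) ≠ 0) {a b : ℝ} (ha : 0 < a) (hb : 0 < b) :
    ar (par v w a b) = |(LinearMap.det (E15b_L v w))⁻¹| * ((2 * a) * (2 * b)) := by
  unfold ar
  rw [E15b_vol h, ENNReal.toReal_mul, ENNReal.toReal_mul, ENNReal.toReal_ofReal (abs_nonneg _),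
    ENNReal.toReal_ofReal (by positivity), ENNReal.toReal_ofReal (by positivity)]

theorem ar_par {v w : E2} (h : inner ℝ v (rot w) ≠ 0) {a b : ℝ} (ha : 0 < a) (hb : 0 < b) :
    ar (par v w a b) = a * b * ar (par v w 1 1) := by
  rw [E15b_ar h ha hb, E15b_ar h one_pos one_pos]
  ring

private theorem E15b_inner_le {t : ℝ} {K C : Set E2} (hK : Body K) (hC : Body C)
    {z : E2} (hz : z ≠ 0) {x : E2} (hx : x ∈ LC t K C) :
    inner ℝ x z ≤ hs K z ^ (1 - t) * hs C z ^ t := by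
  have hn : 0 < ‖z‖ := norm_pos_iff.2 hz
  have hn' : 0 < ‖z‖⁻¹ := inv_pos.2 hn
  have hu : ‖‖z‖⁻¹ • z‖ = 1 := by
    rw [norm_smul, norm_inv, norm_norm, inv_mul_cancel₀ hn.ne']
  have h1 := hx _ hu
  simp only at h1
  have k1 := hs_pos hK hz
  have k2 := hs_pos hC hz
  rw [hs_smul hK hn'.le, hs_smul hC hn'.le, real_inner_smul_right,
    Real.mul_rpow hn'.le k1.le, Real.mul_rpow hn'.le k2.le] at h1
  have h2 : (‖z‖⁻¹ : ℝ) ^ (1 - t) * (‖z‖⁻¹ : ℝ) ^ t = ‖z‖⁻¹ := by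
    rw [← Real.rpow_add hn', sub_add_cancel, Real.rpow_one]
  have h3 : ‖z‖⁻¹ * inner ℝ x z ≤ ‖z‖⁻¹ * (hs K z ^ (1 - t) * hs C z ^ t) := by
    calc ‖z‖⁻¹ * inner ℝ x z ≤ ‖z‖⁻¹ ^ (1 - t) * hs K z ^ (1 - t) * (‖z‖⁻¹ ^ t * hs C z ^ t) := h1
      _ = (‖z‖⁻¹ ^ (1 - t) * ‖z‖⁻¹ ^ t) * (hs K z ^ (1 - t) * hs C z ^ t) := by ring
      _ = ‖z‖⁻¹ * (hs K z ^ (1 - t) * hs C z ^ t) := by rw [h2]
  exact le_of_mul_le_mul_left h3 hn'

theorem ar_LC_par {t : ℝ} (ht0 : 0 < t) (ht1 : t < 1) {v w : E2} (h : inner ℝ v (rot w) ≠ 0) {a b a' b' : ℝ} (ha : 0 < a) (hb : 0 < b)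
    (ha' : 0 < a') (hb' : 0 < b') (h1 : Body (par v w a b)) (h2 : Body (par v w a' b')) :
    ar (LC t (par v w a b) (par v w a' b')) ≤ ar (par v w a b) ^ (1 - t) * ar (par v w a' b') ^ t := by
  obtain ⟨v', w', d1, d2, d3, d4, -, -, -⟩ := dual_basis h
  have hv : v ≠ 0 := by
    rintro rfl
    rw [inner_zero_right] at d1
    exact zero_ne_one d1
  have hw : w ≠ 0 := by
    rintro rfl
    rw [inner_zero_right] at d4
    exact zero_ne_one d4
  obtain ⟨p1, p2, p3, p4⟩ := hs_par h ha hb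
  obtain ⟨q1, q2, q3, q4⟩ := hs_par h ha' hb'
  have hA : 0 < a ^ (1 - t) * a' ^ t := by positivity
  have hB : 0 < b ^ (1 - t) * b' ^ t := by positivity
  have hsub : LC t (par v w a b) (par v w a' b') ⊆
      par v w (a ^ (1 - t) * a' ^ t) (b ^ (1 - t) * b' ^ t) := by
    intro x hx
    have e1 := E15b_inner_le h1 h2 hv hx
    have e2 := E15b_inner_le h1 h2 (neg_ne_zero.2 hv) hx
    have e3 := E15b_inner_le h1 h2 hw hx
    have e4 := E15b_inner_le h1 h2 (neg_ne_zero.2 hw) hx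
    rw [p1, q1] at e1
    rw [p2, q2, inner_neg_right] at e2
    rw [p3, q3] at e3
    rw [p4, q4, inner_neg_right] at e4
    exact ⟨abs_le.2 ⟨by linarith, e1⟩, abs_le.2 ⟨by linarith, e3⟩⟩
  have hle : ar (LC t (par v w a b) (par v w a' b')) ≤
      ar (par v w (a ^ (1 - t) * a' ^ t) (b ^ (1 - t) * b' ^ t)) := by
    unfold ar
    refine ENNReal.toReal_mono ?_ (measure_mono hsub)
    rw [E15b_vol h]
    exact ENNReal.mul_ne_top ENNReal.ofReal_ne_top
      (ENNReal.mul_ne_top ENNReal.ofReal_ne_top ENNReal.ofReal_ne_top)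
  refine hle.trans (le_of_eq ?_)
  have hK := ar_pos h1
  rw [ar_par h ha hb] at hK
  have hc : 0 < ar (par v w 1 1) := by
    rcases pos_and_pos_or_neg_and_neg_of_mul_pos hK with h | h
    · exact h.2
    · exact absurd h.1 (not_lt.2 (by positivity))
  rw [ar_par h hA hB, ar_par h ha hb, ar_par h ha' hb', Real.mul_rpow (by positivity) hc.le,
    Real.mul_rpow (by positivity) hc.le, Real.mul_rpow ha.le hb.le, Real.mul_rpow ha'.le hb'.le]
  have e : ar (par v w 1 1) ^ (1 - t) * ar (par v w 1 1) ^ t = ar (par v w 1 1) := by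
    rw [← Real.rpow_add hc, sub_add_cancel, Real.rpow_one]
  calc a ^ (1 - t) * a' ^ t * (b ^ (1 - t) * b' ^ t) * ar (par v w 1 1)
      = a ^ (1 - t) * a' ^ t * (b ^ (1 - t) * b' ^ t) *
        (ar (par v w 1 1) ^ (1 - t) * ar (par v w 1 1) ^ t) := by rw [e]
    _ = _ := by ring

private theorem E15b_Wu_congr {f g : E2 → ℝ} (h : ∀ u : E2, ‖u‖ = 1 → f u = g u) : Wu f = Wu g := by
  ext x
  constructor
  · intro hx u hu
    rw [← h u hu]
    exact hx u hu
  · intro hx u hu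
    rw [h u hu]
    exact hx u hu

private theorem E15b_Wu_smul (f : E2 → ℝ) {c : ℝ} (hc : 0 < c) :
    Wu (fun u => c * f u) = c • Wu f := by
  ext x
  rw [Set.mem_smul_set_iff_inv_smul_mem₀ hc.ne']
  constructor
  · intro hx u hu
    rw [real_inner_smul_left]
    have h1 : inner ℝ x u ≤ c * f u := hx u hu
    calc c⁻¹ * inner ℝ x u ≤ c⁻¹ * (c * f u) := mul_le_mul_of_nonneg_left h1 (inv_pos.2 hc).le
      _ = f u := by rw [← mul_assoc, inv_mul_cancel₀ hc.ne', one_mul]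
  · intro hx u hu
    have h1 := hx u hu
    rw [real_inner_smul_left] at h1
    show inner ℝ x u ≤ c * f u
    calc inner ℝ x u = c * (c⁻¹ * inner ℝ x u) := by rw [← mul_assoc, mul_inv_cancel₀ hc.ne', one_mul]
      _ ≤ c * f u := mul_le_mul_of_nonneg_left h1 hc.le

private theorem E15b_ne {u : E2} (hu : ‖u‖ = 1) : u ≠ 0 := by
  rintro rfl
  rw [norm_zero] at hu
  exact zero_ne_one hu

theorem LC_scale {t : ℝ} (ht0 : 0 < t) (ht1 : t < 1) {K C : Set E2} (hK : Body K) (hC : Body C) {r : ℝ} (hr : 0 < r) :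
    LC t K (r • C) = r ^ t • LC t K C := by
  unfold LC
  rw [← E15b_Wu_smul _ (Real.rpow_pos_of_pos hr t)]
  refine E15b_Wu_congr fun u hu => ?_
  rw [(smul_body hC hr).2 u, Real.mul_rpow hr.le (hs_pos hC (E15b_ne hu)).le]
  ring

theorem ar_LC_smul {t : ℝ} (ht0 : 0 < t) (ht1 : t < 1) {K : Set E2} (hK : Body K) {r : ℝ} (hr : 0 < r) :
    ar (LC t K (r • K)) = ar K ^ (1 - t) * ar (r • K) ^ t := by
  have h1 : LC t K K = K := by
    unfold LC
    rw [← Wu_hs hK]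
    refine (E15b_Wu_congr fun u hu => ?_).trans rfl
    rw [Wu_hs hK]
    have hp := hs_pos hK (E15b_ne hu)
    rw [← Real.rpow_add hp, sub_add_cancel, Real.rpow_one]
  rw [LC_scale ht0 ht1 hK hK hr, h1, ar_smul (Real.rpow_pos_of_pos hr t).le, ar_smul hr.le]
  have hp := ar_pos hK
  rw [Real.mul_rpow (by positivity) hp.le]
  have e : ar K ^ (1 - t) * ar K ^ t = ar K := by
    rw [← Real.rpow_add hp, sub_add_cancel, Real.rpow_one]
  have e2 : (r ^ 2 : ℝ) ^ t = (r ^ t) ^ 2 := by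
    rw [← Real.rpow_natCast, ← Real.rpow_natCast, ← Real.rpow_mul hr.le, ← Real.rpow_mul hr.le,
      mul_comm]
  calc (r ^ t) ^ 2 * ar K = (r ^ t) ^ 2 * (ar K ^ (1 - t) * ar K ^ t) := by rw [e]
    _ = _ := by rw [e2]; ring

end Pool.Agent.Lib.MP_1dedaf_gt.LB
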