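import Pool.Agent.Lib.MP_1dedaf_gt.Mg.G001
import Pool.Agent.Lib.MP_1dedaf_gt.Mg.G051
import Pool.Agent.Lib.MP_1dedaf_gt.Mg.G009
import Pool.Agent.Lib.MP_1dedaf_gt.Mg.G007

/-!
# TASK LB D2: circumscribed polygons converge

Proof. `Q_j = Q (dir (3^j)) (fun i => f (dir (3^j) i))` is compact for `j ≥ 1` (`Q_compact`, `dir_adm`), decreasing in `j`
(`dir_nest`) and `⋂_j Q_j = Wu f`: `⊇` clear; if `x ∈ ⋂ Q_j` and `‖v‖ = 1`, there are directions `dir (3^j) i_j → v`
(`dir_dense`), `<x, dir i_j> ≤ f (dir i_j)` and continuity of `f` on the circle give `<x, v> ≤ f v`. Continuity of the measure from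
above (`tendsto_measure_iInter_atTop` or similar; finite measures).
-/

set_option autoImplicit false

open MeasureTheory Set Filter Topology

namespace Pool.Agent.Lib.MP_1dedaf_gt.LB

theorem ar_tendsto {f : E2 → ℝ} (hf : ContinuousOn f (Metric.sphere 0 1)) :
    Tendsto (fun j : ℕ => ar (Q (dir (3 ^ (j + 1))) (fun i => f (dir (3 ^ (j + 1)) i)))) atTop (𝓝 (ar (Wu f))) := by
  set S : ℕ → Set E2 := fun j => Q (dir (3 ^ (j + 1))) (fun i => f (dir (3 ^ (j + 1)) i)) with hS
  have hcomp : ∀ j, IsCompact (S j) := by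
    intro j
    have hne : NeZero (3 ^ (j + 1)) := ⟨by positivity⟩
    have h3 : 3 ≤ 3 ^ (j + 1) := by
      calc 3 = 3 ^ 1 := by norm_num
        _ ≤ 3 ^ (j + 1) := Nat.pow_le_pow_right (by norm_num) (by omega)
    have hodd : Odd (3 ^ (j + 1)) := Odd.pow (by decide)
    exact Q_compact (dir_adm (3 ^ (j + 1)) hodd h3) _
  have hanti : Antitone S := by
    apply antitone_nat_of_succ_le
    intro j x hx i
    obtain ⟨i', hi'⟩ := dir_nest (j + 1) i
    have h1 := hx i'
    simp only at h1
    rw [hi'] at h1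
    exact h1
  have hinter : ⋂ j, S j = Wu f := by
    apply Set.Subset.antisymm
    · intro x hx v hv
      rw [Set.mem_iInter] at hx
      -- approximate `v` by directions
      have hmem : v ∈ Metric.sphere (0 : E2) 1 := by
        rw [mem_sphere_zero_iff_norm]
        exact hv
      have hcw : ContinuousWithinAt (fun w : E2 => f w - inner ℝ x w) (Metric.sphere 0 1) v := by
        apply ContinuousWithinAt.sub (hf v hmem)
        exact (continuous_const.inner continuous_id).continuousWithinAt
      by_contra hcon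
      push Not at hcon
      have hneg : f v - inner ℝ x v < 0 := by linarith
      have hev : ∀ᶠ w in 𝓝[Metric.sphere (0 : E2) 1] v, f w - inner ℝ x w < 0 :=
        hcw.eventually (gt_mem_nhds hneg)
      rw [Metric.nhdsWithin_basis_ball.eventually_iff] at hev
      obtain ⟨ε, hε, hball⟩ := hev
      obtain ⟨J, hJ⟩ := dir_dense v hv ε hε
      obtain ⟨i, hi⟩ := hJ (J + 1) (by omega)
      have h1 := hx J i
      have h2 : dir (3 ^ (J + 1)) i ∈ Metric.ball v ε ∩ Metric.sphere (0 : E2) 1 := by
        constructor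
        · rw [Metric.mem_ball, dist_eq_norm]
          exact hi
        · rw [mem_sphere_zero_iff_norm]
          exact dir_norm _ _
      have h3 := hball h2
      simp only at h1
      linarith
    · intro x hx
      rw [Set.mem_iInter]
      intro j i
      exact hx _ (dir_norm _ _)
  have hmeas := tendsto_measure_iInter_atTop (μ := (volume : Measure E2)) (s := S)
    (fun j => (hcomp j).measurableSet.nullMeasurableSet) hanti
    ⟨0, (hcomp 0).measure_lt_top.ne⟩
  rw [hinter] at hmeas
  have hfin : volume (Wu f) ≠ ⊤ := by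
    rw [← hinter]
    exact (lt_of_le_of_lt (measure_mono (Set.iInter_subset S 0)) (hcomp 0).measure_lt_top).ne
  exact (ENNReal.tendsto_toReal hfin).comp hmeas

theorem Q_anti {f : E2 → ℝ} (j : ℕ) :
    Wu f ⊆ Q (dir (3 ^ j)) (fun i => f (dir (3 ^ j) i)) := by
  intro x hx i
  exact hx _ (dir_norm _ _)

end Pool.Agent.Lib.MP_1dedaf_gt.LB
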