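import Pool.Agent.Lib.MP_1dedaf_gt.Mg.G052
import Pool.Agent.Lib.MP_1dedaf_gt.Mg.G040
import Pool.Agent.Lib.MP_1dedaf_gt.Mg.G009
import Pool.Agent.Lib.MP_1dedaf_gt.LB.A5
import Pool.Agent.Lib.MP_1dedaf_gt.Mg.G007

/-!
# TASK LB E6a: areas of polygons with regular normals

(`ar_polygon`) `sg_sum_k` with tilt `0`: `∑ k i * sg k 0 i = 2 Z k 0 = 2 ar (Q k)`, `sg k 0 i = hi i - lo i` (`facets_of_len`).
(`len_eq`) definitions of `hi`, `lo`. (`hs_len`) `2 cos δ • u i = u (i+1) + u (i-1)` (`dir_inner` and `rot_decomp`, or coordinates), so by subadditivity `hs K (2 cos δ • u i) ≤ hs K (u (i+1)) + hs K (u (i-1))`, and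
`λ hs K v ≤ hs K (λ v)` for every real `λ` (for `λ < 0`: `hs K (λ v) = |λ| hs K (-v) ≥ - |λ| hs K v` since `0 = hs K 0 ≤ hs K v + hs K (-v)`); use `len_eq`.
-/

set_option autoImplicit false

open MeasureTheory Set Filter Topology

namespace Pool.Agent.Lib.MP_1dedaf_gt.LB

private lemma E6a_dl_pos (n : ℕ) (h3 : 3 ≤ n) : 0 < dl n := by
  unfold dl
  have : (0 : ℝ) < n := by positivity
  have := Real.pi_pos
  positivity

private lemma E6a_sin_pos (n : ℕ) (h3 : 3 ≤ n) : 0 < Real.sin (dl n) := by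
  apply Real.sin_pos_of_pos_of_lt_pi (E6a_dl_pos n h3)
  unfold dl
  have h : (3 : ℝ) ≤ n := by exact_mod_cast h3
  have hpi := Real.pi_pos
  rw [div_lt_iff₀ (by linarith)]
  nlinarith

theorem ar_polygon (n : ℕ) [NeZero n] (hn : Odd n) (h3 : 3 ≤ n) {k : ZMod n → ℝ} (hk : Fat (dir n) k)
    (hl : ∀ i, lo n k i ≤ hi n k i) : ar (Q (dir n) k) = (1 / 2) * ∑ i, k i * (hi n k i - lo n k i) := by
  have h1 := sg_sum_k (dir_adm n hn h3) hk (0 : E2)
  have h2 : Z (dir n) k 0 = ar (Q (dir n) k) := by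
    simp [Z, ar, Measure.real]
  have h3' : ∀ i, sg (dir n) k 0 i = hi n k i - lo n k i := by
    intro i
    have h4 := facets_of_len n hn h3 hl i
    unfold sg
    rw [h4]
    simp [Measure.real, Real.volume_Icc, ENNReal.toReal_ofReal (sub_nonneg.mpr (hl i))]
  rw [h2] at h1
  simp only [inner_zero_left, zero_mul, integral_zero, add_zero] at h1
  rw [Finset.sum_congr rfl (fun i _ => by rw [h3' i])] at h1
  linarith

theorem len_eq (n : ℕ) (k : ZMod n → ℝ) (i : ZMod n) :
    hi n k i - lo n k i = (k (i + 1) + k (i - 1) - 2 * Real.cos (dl n) * k i) / Real.sin (dl n) := by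
  unfold hi lo
  ring

theorem hs_len (n : ℕ) [NeZero n] (hn : Odd n) (h3 : 3 ≤ n) {K : Set E2} (hK : Body K) (i : ZMod n) :
    lo n (fun i => hs K (dir n i)) i ≤ hi n (fun i => hs K (dir n i)) i := by
  have hsin := E6a_sin_pos n h3
  rw [← sub_nonneg, len_eq]
  apply div_nonneg _ hsin.le
  have hc : (2 * Real.cos (dl n)) • dir n i = dir n (i + 1) + dir n (i - 1) := by
    have h := dir_comb n (i - 1) 2 1
    have e1 : (i - 1 + ((1 : ℕ) : ZMod n)) = i := by push_cast; ring
    have e2 : (i - 1 + ((2 : ℕ) : ZMod n)) = i + 1 := by push_cast; ring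
    rw [e1, e2] at h
    have e3 : Real.sin (((2 : ℕ) : ℝ) * dl n) = Real.sin (dl n) * (2 * Real.cos (dl n)) := by
      push_cast
      rw [Real.sin_two_mul]
      ring
    have e4 : Real.sin ((((2 : ℕ) : ℝ) - ((1 : ℕ) : ℝ)) * dl n) = Real.sin (dl n) := by
      congr 1
      push_cast
      ring
    have e5 : Real.sin (((1 : ℕ) : ℝ) * dl n) = Real.sin (dl n) := by
      congr 1
      push_cast
      ring
    rw [e3, e4, e5, mul_smul, ← smul_add] at h
    have h' := smul_right_injective E2 hsin.ne' h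
    rw [h', add_comm]
  have h0 : hs K 0 = 0 := by
    have := hs_smul hK (le_refl (0 : ℝ)) (0 : E2)
    simpa using this
  have hneg : ∀ v : E2, 0 ≤ hs K v + hs K (-v) := by
    intro v
    have := hs_add_le hK v (-v)
    rw [add_neg_cancel, h0] at this
    exact this
  have hlam : ∀ (r : ℝ) (v : E2), r * hs K v ≤ hs K (r • v) := by
    intro r v
    rcases le_total 0 r with hr | hr
    · rw [hs_smul hK hr]
    · have h1 : hs K (r • v) = (-r) * hs K (-v) := by
        rw [← hs_smul hK (neg_nonneg.mpr hr), smul_neg, neg_smul, neg_neg]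
      rw [h1]
      have := mul_nonneg (neg_nonneg.mpr hr) (hneg v)
      linarith
  have h1 := hlam (2 * Real.cos (dl n)) (dir n i)
  rw [hc] at h1
  have h2 := hs_add_le hK (dir n (i + 1)) (dir n (i - 1))
  linarith

end Pool.Agent.Lib.MP_1dedaf_gt.LB
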