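import Pool.Agent.Lib.MP_1dedaf_gt.Mg.G052
import Pool.Agent.Lib.MP_1dedaf_gt.Mg.G051
import Pool.Agent.Lib.MP_1dedaf_gt.Mg.G007
import Pool.Agent.Lib.MP_1dedaf_gt.LB.D2
import Pool.Agent.Lib.MP_1dedaf_gt.LB.E6a

/-!
# TASK LB E6b: the area of s A + r B is a quadratic polynomial

Proof. Let `n = 3^(j+1)`, `kA i = hs A (u i)`, `kB i = hs B (u i)`, `ℓ k i = hi - lo` (linear in `k` by `len_eq`). For `s, r > 0` `s kA + r kB` are the support numbers of the body `s A + r B`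
(`smul_body`, `add_body`), so by `hs_len`, `ar_polygon`: `P_j(s,r) := ar (Q (s kA + r kB)) = (1/2) ∑ (s kA + r kB) i (s ℓ kA i + r ℓ kB i) = s² P_A + 2 s r m_j + r² P_B`, `P_A = ar (Q kA)`, `P_B = ar (Q kB)`,
`m_j = (1/4) ∑ (kA i ℓ kB i + kB i ℓ kA i)`. `s = r = 1`: `2 m_j = ar (Q (kA + kB)) - P_A - P_B`. By `ar_tendsto` and `Wu_hs` `P_A → ar A`, `P_B → ar B`, `2 m_j → 2 MV A B`, `P_j(s,r) → ar (s A + r B)`.
-/

set_option autoImplicit false

open MeasureTheory Set Filter Topology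

namespace Pool.Agent.Lib.MP_1dedaf_gt.LB

open scoped Pointwise

private lemma E6b_dir_ne (n : ℕ) (i : ZMod n) : dir n i ≠ 0 := by
  intro h
  have h1 := dir_norm n i
  rw [h, norm_zero] at h1
  exact zero_ne_one h1

private lemma E6b_fat (n : ℕ) {K : Set E2} (hK : Body K) : Fat (dir n) (fun i => hs K (dir n i)) :=
  ⟨0, fun i => by rw [inner_zero_left]; exact hs_pos hK (E6b_dir_ne n i)⟩

private lemma E6b_ar (n : ℕ) [NeZero n] (hn : Odd n) (h3 : 3 ≤ n) {K : Set E2} (hK : Body K) :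
    ar (Q (dir n) (fun i => hs K (dir n i))) = (1 / 2) * ∑ i, hs K (dir n i) *
      ((hs K (dir n (i + 1)) + hs K (dir n (i - 1)) - 2 * Real.cos (dl n) * hs K (dir n i)) /
        Real.sin (dl n)) := by
  rw [ar_polygon n hn h3 (E6b_fat n hK) (fun i => hs_len n hn h3 hK i)]
  congr 1
  refine Finset.sum_congr rfl fun i _ => ?_
  rw [len_eq]

private lemma E6b_comb {A B : Set E2} (hA : Body A) (hB : Body B) {s r : ℝ} (hs0 : 0 < s)
    (hr0 : 0 < r) : Body (s • A + r • B) ∧ ∀ u, hs (s • A + r • B) u = s * hs A u + r * hs B u := by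
  obtain ⟨h1, h2⟩ := smul_body hA hs0
  obtain ⟨h3, h4⟩ := smul_body hB hr0
  obtain ⟨h5, h6⟩ := add_body h1 h3
  exact ⟨h5, fun u => by rw [h6, h2, h4]⟩

private lemma E6b_poly (n : ℕ) [NeZero n] (hn : Odd n) (h3 : 3 ≤ n) {A B : Set E2} (hA : Body A)
    (hB : Body B) {s r : ℝ} (hs0 : 0 < s) (hr0 : 0 < r) :
    ar (Q (dir n) (fun i => hs (s • A + r • B) (dir n i))) =
      s ^ 2 * ar (Q (dir n) (fun i => hs A (dir n i))) +
      s * r * ((1 / 2) * ∑ i, (hs A (dir n i) *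
        ((hs B (dir n (i + 1)) + hs B (dir n (i - 1)) - 2 * Real.cos (dl n) * hs B (dir n i)) /
        Real.sin (dl n)) + hs B (dir n i) *
        ((hs A (dir n (i + 1)) + hs A (dir n (i - 1)) - 2 * Real.cos (dl n) * hs A (dir n i)) /
        Real.sin (dl n)))) +
      r ^ 2 * ar (Q (dir n) (fun i => hs B (dir n i))) := by
  obtain ⟨h1, h2⟩ := E6b_comb hA hB hs0 hr0
  rw [E6b_ar n hn h3 h1, E6b_ar n hn h3 hA, E6b_ar n hn h3 hB]
  simp only [h2, Finset.mul_sum]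
  rw [← Finset.sum_add_distrib, ← Finset.sum_add_distrib]
  refine Finset.sum_congr rfl fun i _ => ?_
  ring

private lemma E6b_poly2 (n : ℕ) [NeZero n] (hn : Odd n) (h3 : 3 ≤ n) {A B : Set E2} (hA : Body A)
    (hB : Body B) {s r : ℝ} (hs0 : 0 < s) (hr0 : 0 < r) :
    ar (Q (dir n) (fun i => hs (s • A + r • B) (dir n i))) =
      s ^ 2 * ar (Q (dir n) (fun i => hs A (dir n i))) +
      s * r * (ar (Q (dir n) (fun i => hs (A + B) (dir n i))) -
        ar (Q (dir n) (fun i => hs A (dir n i))) - ar (Q (dir n) (fun i => hs B (dir n i)))) +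
      r ^ 2 * ar (Q (dir n) (fun i => hs B (dir n i))) := by
  have h1 := E6b_poly n hn h3 hA hB hs0 hr0
  have h2 := E6b_poly n hn h3 hA hB (s := 1) (r := 1) one_pos one_pos
  rw [one_smul, one_smul] at h2
  rw [h1, h2]
  ring

private lemma E6b_lim {K : Set E2} (hK : Body K) : Tendsto (fun j : ℕ =>
    ar (Q (dir (3 ^ (j + 1))) (fun i => hs K (dir (3 ^ (j + 1)) i)))) atTop (𝓝 (ar K)) := by
  have h := ar_tendsto (f := hs K) (hs_cont hK).continuousOn
  rwa [Wu_hs hK] at h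

theorem ar_comb {A B : Set E2} (hA : Body A) (hB : Body B) {s r : ℝ} (hs0 : 0 < s) (hr0 : 0 < r) :
    ar (s • A + r • B) = s ^ 2 * ar A + 2 * s * r * MV A B + r ^ 2 * ar B := by
  have hAB : Body (A + B) := (add_body hA hB).1
  have hD : Body (s • A + r • B) := (E6b_comb hA hB hs0 hr0).1
  have l1 := E6b_lim hA
  have l2 := E6b_lim hB
  have l3 := E6b_lim hAB
  have l4 := E6b_lim hD
  have l5 := ((l1.const_mul (s ^ 2)).add (((l3.sub l1).sub l2).const_mul (s * r))).add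
    (l2.const_mul (r ^ 2))
  have h6 : ∀ j : ℕ, ar (Q (dir (3 ^ (j + 1))) (fun i => hs (s • A + r • B) (dir (3 ^ (j + 1)) i))) =
      s ^ 2 * ar (Q (dir (3 ^ (j + 1))) (fun i => hs A (dir (3 ^ (j + 1)) i))) +
      s * r * (ar (Q (dir (3 ^ (j + 1))) (fun i => hs (A + B) (dir (3 ^ (j + 1)) i))) -
        ar (Q (dir (3 ^ (j + 1))) (fun i => hs A (dir (3 ^ (j + 1)) i))) -
        ar (Q (dir (3 ^ (j + 1))) (fun i => hs B (dir (3 ^ (j + 1)) i)))) +
      r ^ 2 * ar (Q (dir (3 ^ (j + 1))) (fun i => hs B (dir (3 ^ (j + 1)) i))) := by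
    intro j
    have : NeZero (3 ^ (j + 1)) := ⟨by positivity⟩
    refine E6b_poly2 (3 ^ (j + 1)) (Odd.pow (by decide)) ?_ hA hB hs0 hr0
    calc 3 = 3 ^ 1 := rfl
      _ ≤ 3 ^ (j + 1) := Nat.pow_le_pow_right (by norm_num) (by omega)
  have l6 := tendsto_nhds_unique l4 (l5.congr fun j => (h6 j).symm)
  rw [l6, MV]
  ring

end Pool.Agent.Lib.MP_1dedaf_gt.LB
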