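import Pool.Agent.Lib.MP_1dedaf_gt.Mg.G052
import Pool.Agent.Lib.MP_1dedaf_gt.Mg.G051
import Pool.Agent.Lib.MP_1dedaf_gt.LB.E1a
import Pool.Agent.Lib.MP_1dedaf_gt.Mg.G053
import Pool.Agent.Lib.MP_1dedaf_gt.Mg.G054
import Pool.Agent.Lib.MP_1dedaf_gt.Mg.G046
import Pool.Agent.Lib.MP_1dedaf_gt.LB.E6b

/-!
# TASK LB E7: the mixed area as an integral

Proof. Let `ψ` be a continuous function with `ψ = h_B / h_A` on the circle (`exists_ext`), `0 ≤ ψ ≤ c` on the circle, `a ε = ar (Wu (h_A exp (ε ψ)))`, so `a 0 = ar A`, `a' 0 = 2 ∫_A ψ(nu A)` (`ar_Wu_deriv`).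
For `ε > 0`: `A + ε B = Wu (h_A + ε h_B)` (`add_body`, `smul_body`, `Wu_hs`) and on the circle `h_A exp (ε ψ - c² ε²) ≤ h_A + ε h_B = h_A (1 + ε ψ) ≤ h_A exp (ε ψ)` (`log (1 + y) ≥ y - y²` for
`y ≥ 0`). So `exp (-c²ε²) • Wu (h_A exp (εψ)) ⊆ A + ε B ⊆ Wu (h_A exp (ε ψ))` and `exp (-2c²ε²) a ε ≤ ar (A + ε B) = ar A + 2 ε MV A B + ε² ar B ≤ a ε` (`ar_comb`). Subtract `ar A`, divide by `ε`, `ε → 0+`:
`2 MV A B = a' 0`. Finally `ψ(nu A x) = h_B/h_A (nu A x)` for almost every `x`.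
-/

set_option autoImplicit false

open MeasureTheory Set Filter Topology

namespace Pool.Agent.Lib.MP_1dedaf_gt.LB

open scoped Pointwise

private theorem E7_deriv_nonneg {F : ℝ → ℝ} {D : ℝ} (h : HasDerivAt F D 0) (h0 : F 0 = 0)
    (hF : ∀ ε > 0, 0 ≤ F ε) : 0 ≤ D := by
  have h1 := h.tendsto_slope_zero_right
  refine ge_of_tendsto h1 ?_
  filter_upwards [self_mem_nhdsWithin] with t ht
  have ht' : 0 < t := ht
  rw [h0, zero_add, sub_zero, smul_eq_mul]
  exact mul_nonneg (inv_nonneg.2 ht'.le) (hF t ht')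

private theorem E7_exp {y : ℝ} (hy : 0 ≤ y) : Real.exp (y - y ^ 2) ≤ 1 + y := by
  have h1 : 1 - y + y ^ 2 ≤ Real.exp (-(y - y ^ 2)) := by
    have := Real.add_one_le_exp (-(y - y ^ 2))
    linarith
  have h2 : Real.exp (y - y ^ 2) * Real.exp (-(y - y ^ 2)) = 1 := by
    rw [← Real.exp_add, add_neg_cancel, Real.exp_zero]
  have h3 : 0 < Real.exp (y - y ^ 2) := Real.exp_pos _
  have h4 : Real.exp (y - y ^ 2) * (1 - y + y ^ 2) ≤ 1 := by
    calc Real.exp (y - y ^ 2) * (1 - y + y ^ 2)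
        ≤ Real.exp (y - y ^ 2) * Real.exp (-(y - y ^ 2)) := mul_le_mul_of_nonneg_left h1 h3.le
      _ = 1 := h2
  have h5 : 0 < 1 - y + y ^ 2 := by nlinarith [sq_nonneg (y - 1)]
  have h6 : 1 ≤ (1 + y) * (1 - y + y ^ 2) := by
    have : (1 + y) * (1 - y + y ^ 2) = 1 + y ^ 3 := by ring
    rw [this]
    have : 0 ≤ y ^ 3 := by positivity
    linarith
  exact le_of_mul_le_mul_right (h4.trans h6) h5

theorem MV_eq {A B : Set E2} (hA : Body A) (hB : Body B) : MV A B = ∫ x in A, hs B (nu A x) / hs A (nu A x) := by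
  have hApos : ∀ u : E2, ‖u‖ = 1 → 0 < hs A u := fun u hu => hs_pos hA (by
    rintro rfl
    simp at hu)
  have hBpos : ∀ u : E2, ‖u‖ = 1 → 0 < hs B u := fun u hu => hs_pos hB (by
    rintro rfl
    simp at hu)
  have hAc : ContinuousOn (hs A) (Metric.sphere 0 1) := (hs_cont hA).continuousOn
  have hq : ContinuousOn (fun u => hs B u / hs A u) (Metric.sphere (0 : E2) 1) := by
    refine (hs_cont hB).continuousOn.div hAc fun u hu => ?_
    have : ‖u‖ = 1 := by simpa using hu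
    exact (hApos u this).ne'
  obtain ⟨ψ, hψ, hψe⟩ := exists_ext hq
  have hder := ar_Wu_deriv hAc hApos hψ
  rw [Wu_hs hA] at hder
  set d : ℝ := 2 * ∫ x in A, ψ (nu A x) with hd
  set a : ℝ → ℝ := fun ε => ar (Wu (fun u => hs A u * Real.exp (ε * ψ u))) with ha
  have ha0 : a 0 = ar A := by
    have : (fun u => hs A u * Real.exp (0 * ψ u)) = hs A := by
      funext u
      simp
    simp only [ha]
    rw [this, Wu_hs hA]
  -- the bound of `ψ`
  obtain ⟨c, hc⟩ : ∃ c : ℝ, ∀ u : E2, ‖u‖ = 1 → ψ u ≤ c := by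
    have hcpt : IsCompact (Metric.sphere (0 : E2) 1) := isCompact_sphere 0 1
    obtain ⟨c, hc⟩ := (hcpt.image hψ).bddAbove
    exact ⟨c, fun u hu => hc ⟨u, by simpa using hu, rfl⟩⟩
  have hψ0 : ∀ u : E2, ‖u‖ = 1 → 0 ≤ ψ u := fun u hu => by
    rw [hψe u hu]
    exact div_nonneg (hBpos u hu).le (hApos u hu).le
  have hψm : ∀ u : E2, ‖u‖ = 1 → hs A u * ψ u = hs B u := fun u hu => by
    rw [hψe u hu, mul_div_cancel₀ _ (hApos u hu).ne']
  have hW : ∀ ε : ℝ, Body (Wu (fun u => hs A u * Real.exp (ε * ψ u))) := fun ε =>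
    Wu_body (hAc.mul (by fun_prop)) fun u hu => mul_pos (hApos u hu) (Real.exp_pos _)
  have hup : ∀ ε > 0, ar A + 2 * ε * MV A B + ε ^ 2 * ar B ≤ a ε := by
    intro ε hε
    have h1 := ar_comb hA hB one_pos hε
    rw [one_smul] at h1
    have h2 : A + ε • B ⊆ Wu (fun u => hs A u * Real.exp (ε * ψ u)) := by
      intro x hx u hu
      obtain ⟨hb1, hb2⟩ := smul_body hB hε
      obtain ⟨hc1, hc2⟩ := add_body hA hb1
      have h3 := inner_le_hs hc1.comp hx u
      rw [hc2, hb2] at h3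
      have h4 : hs A u + ε * hs B u = hs A u * (1 + ε * ψ u) := by
        rw [← hψm u hu]
        ring
      have h5 : 1 + ε * ψ u ≤ Real.exp (ε * ψ u) := by
        have := Real.add_one_le_exp (ε * ψ u)
        linarith
      rw [h4] at h3
      exact h3.trans (mul_le_mul_of_nonneg_left h5 (hApos u hu).le)
    have h6 := ar_mono (hW ε) h2
    rw [h1] at h6
    simp only [ha]
    linarith
  have hlow : ∀ ε > 0, a ε ≤ Real.exp (2 * c ^ 2 * ε ^ 2) *
      (ar A + 2 * ε * MV A B + ε ^ 2 * ar B) := by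
    intro ε hε
    have h1 := ar_comb hA hB one_pos hε
    rw [one_smul] at h1
    obtain ⟨hb1, hb2⟩ := smul_body hB hε
    obtain ⟨hc1, hc2⟩ := add_body hA hb1
    set r := Real.exp (-(c ^ 2 * ε ^ 2)) with hr
    have hr0 : 0 < r := Real.exp_pos _
    have h2 : r • Wu (fun u => hs A u * Real.exp (ε * ψ u)) ⊆ A + ε • B := by
      rintro _ ⟨y, hy, rfl⟩
      rw [← Wu_hs hc1]
      intro u hu
      show inner ℝ (r • y) u ≤ hs (A + ε • B) u
      rw [hc2, hb2, inner_smul_left]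
      have h3 := hy u hu
      have h4 : hs A u + ε * hs B u = hs A u * (1 + ε * ψ u) := by
        rw [← hψm u hu]
        ring
      rw [h4]
      have hy0 : 0 ≤ ε * ψ u := mul_nonneg hε.le (hψ0 u hu)
      have h5 : (ε * ψ u) ^ 2 ≤ c ^ 2 * ε ^ 2 := by
        have h6 : ε * ψ u ≤ ε * c := mul_le_mul_of_nonneg_left (hc u hu) hε.le
        have h7 := pow_le_pow_left₀ hy0 h6 2
        linarith [h7, mul_pow ε c 2, mul_comm (ε ^ 2) (c ^ 2)]
      have h6 : r * Real.exp (ε * ψ u) ≤ 1 + ε * ψ u := by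
        rw [hr, ← Real.exp_add]
        refine le_trans (Real.exp_le_exp.2 ?_) (E7_exp hy0)
        linarith
      have h7 : r * inner ℝ y u ≤ r * (hs A u * Real.exp (ε * ψ u)) :=
        mul_le_mul_of_nonneg_left h3 hr0.le
      have h8 : r * (hs A u * Real.exp (ε * ψ u)) = hs A u * (r * Real.exp (ε * ψ u)) := by ring
      have h9 := mul_le_mul_of_nonneg_left h6 (hApos u hu).le
      simp only [conj_trivial]
      linarith
    have h3 := ar_mono hc1 h2
    rw [ar_smul hr0.le, h1] at h3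
    have h4 : r ^ 2 * Real.exp (2 * c ^ 2 * ε ^ 2) = 1 := by
      rw [hr, ← Real.exp_nat_mul, ← Real.exp_add, ← Real.exp_zero]
      congr 1
      push_cast
      ring
    have h5 := mul_le_mul_of_nonneg_left h3 (Real.exp_pos (2 * c ^ 2 * ε ^ 2)).le
    have h6 : Real.exp (2 * c ^ 2 * ε ^ 2) * (r ^ 2 * a ε) = a ε := by
      rw [← mul_assoc, mul_comm (Real.exp _) (r ^ 2), h4, one_mul]
    rw [h6] at h5
    refine h5.trans (le_of_eq ?_)
    ring
  -- derivatives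
  have hp : HasDerivAt (fun ε : ℝ => ar A + 2 * ε * MV A B + ε ^ 2 * ar B) (2 * MV A B) 0 := by
    have h1 : HasDerivAt (fun ε : ℝ => ar A + 2 * ε * MV A B + ε ^ 2 * ar B)
        (0 + 2 * 1 * MV A B + (2 : ℕ) * (0 : ℝ) ^ (2 - 1) * 1 * ar B) 0 :=
      ((hasDerivAt_const (0 : ℝ) (ar A)).add
        (((hasDerivAt_id (0 : ℝ)).const_mul 2).mul_const (MV A B))).add
        (((hasDerivAt_id (0 : ℝ)).pow 2).mul_const (ar B))
    refine h1.congr_deriv ?_
    norm_num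
  have he : HasDerivAt (fun ε : ℝ => Real.exp (2 * c ^ 2 * ε ^ 2)) 0 0 := by
    have h1 : HasDerivAt (fun ε : ℝ => 2 * c ^ 2 * ε ^ 2) (2 * c ^ 2 * ((2 : ℕ) * (0 : ℝ) ^ (2 - 1) * 1)) 0 :=
      ((hasDerivAt_id (0 : ℝ)).pow 2).const_mul (2 * c ^ 2)
    refine h1.exp.congr_deriv ?_
    norm_num
  have hg := he.mul hp
  have e1 : 0 ≤ d - 2 * MV A B := by
    refine E7_deriv_nonneg (hder.sub hp) ?_ fun ε hε => ?_
    · simp only [Pi.sub_apply]
      rw [ha0]
      ring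
    · have := hup ε hε
      simp only [Pi.sub_apply, sub_nonneg]
      exact this
  have e2 : 0 ≤ (0 * (ar A + 2 * 0 * MV A B + 0 ^ 2 * ar B) +
      Real.exp (2 * c ^ 2 * 0 ^ 2) * (2 * MV A B)) - d := by
    refine E7_deriv_nonneg (hg.sub hder) ?_ fun ε hε => ?_
    · simp only [Pi.sub_apply, Pi.mul_apply]
      rw [ha0]
      norm_num
    · have := hlow ε hε
      simp only [Pi.sub_apply, Pi.mul_apply, sub_nonneg]
      exact this
  have e3 : (0 * (ar A + 2 * 0 * MV A B + 0 ^ 2 * ar B) +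
      Real.exp (2 * c ^ 2 * 0 ^ 2) * (2 * MV A B)) = 2 * MV A B := by
    norm_num
  rw [e3] at e2
  have e4 : ∫ x in A, ψ (nu A x) = ∫ x in A, hs B (nu A x) / hs A (nu A x) := by
    refine setIntegral_congr_ae hA.comp.measurableSet ?_
    filter_upwards [good_ae hA] with x hx _
    exact hψe _ (nu_norm hA hx)
  rw [← e4]
  linarith

end Pool.Agent.Lib.MP_1dedaf_gt.LB
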