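import Pool.Agent.Lib.MP_1dedaf_gt.Mg.G052
import Pool.Agent.Lib.MP_1dedaf_gt.Mg.G040
import Pool.Agent.Lib.MP_1dedaf_gt.LB.E1a
import Pool.Agent.Lib.MP_1dedaf_gt.Mg.G053

/-!
# TASK LB E13b: bodies with prescribed normals

Proof. `A = {x | ∀ u ∈ P, <x, u> ≤ 1}` is closed, convex, contains `ball 0 1`. Bounded: `m x = max_{u ∈ P} <x, u>` (`P` is compact and not empty) is continuous (it is Lipschitz) and positive on the circle, so `≥ c > 0` there and `c ‖x‖ ≤ 1` on `A`.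
Let `x` be good for `A`, `y = (gauge A x)⁻¹ • x`, gauge `1`. If `<y,u> < 1` for all `u ∈ P` then by compactness `<y,u> ≤ 1 - c'` and `(1+ε) y ∈ A` for small `ε > 0`, a contradiction to gauge `1`. So `<y, u> = 1` for some `u ∈ P`; `hs A u ≤ 1` and
`hs A u ≥ <y,u> = 1`, so `<x, u> = gauge A x * hs A u` and `u = nu A x` by `nu_unique`.
-/

set_option autoImplicit false

open MeasureTheory Set Filter Topology

namespace Pool.Agent.Lib.MP_1dedaf_gt.LB

theorem body_of_normals {P : Set E2} (hc : IsClosed P) (hP : ∀ u ∈ P, ‖u‖ = 1) (hs0 : ∀ x : E2, x ≠ 0 → ∃ u ∈ P, 0 < inner ℝ x u) :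
    ∃ A : Set E2, Body A ∧ ∀ x, Good A x → nu A x ∈ P := by
  have hPc : IsCompact P := by
    have hsub : P ⊆ Metric.closedBall (0 : E2) 1 := by
      intro u hu
      simp [hP u hu]
    exact (isCompact_closedBall (0 : E2) 1).of_isClosed_subset hc hsub
  obtain ⟨e, he⟩ : ∃ e : E2, e ≠ 0 := exists_ne 0
  have hPne : P.Nonempty := by
    obtain ⟨u, hu, -⟩ := hs0 e he
    exact ⟨u, hu⟩
  -- the maximum over `P`
  have hmax : ∀ x : E2, ∃ u ∈ P, ∀ v ∈ P, inner ℝ x v ≤ inner ℝ x u := by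
    intro x
    have hcont : ContinuousOn (fun u : E2 => inner ℝ x u) P := by fun_prop
    obtain ⟨u, hu, hmx⟩ := hPc.exists_isMaxOn hPne hcont
    exact ⟨u, hu, fun v hv => hmx hv⟩
  have hcontS : Continuous (fun x : E2 => sSup ((fun u : E2 => (inner ℝ x u : ℝ)) '' P)) := by
    apply hPc.continuous_sSup (f := fun x u : E2 => (inner ℝ x u : ℝ))
    show Continuous (fun p : E2 × E2 => (inner ℝ p.1 p.2 : ℝ))
    fun_prop
  have hsup : ∀ x u : E2, u ∈ P → (∀ v ∈ P, inner ℝ x v ≤ inner ℝ x u) →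
      sSup ((fun u : E2 => (inner ℝ x u : ℝ)) '' P) = inner ℝ x u := by
    intro x u hu hmx
    apply le_antisymm
    · apply csSup_le (hPne.image _)
      rintro _ ⟨v, hv, rfl⟩
      exact hmx v hv
    · apply le_csSup
      · exact ⟨inner ℝ x u, by rintro _ ⟨v, hv, rfl⟩; exact hmx v hv⟩
      · exact ⟨u, hu, rfl⟩
  have hsphere : (Metric.sphere (0 : E2) 1).Nonempty := NormedSpace.sphere_nonempty.2 zero_le_one
  obtain ⟨x0, hx0, hmin⟩ := (isCompact_sphere (0 : E2) 1).exists_isMinOn hsphere hcontS.continuousOn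
  have hx0n : ‖x0‖ = 1 := by simpa using hx0
  obtain ⟨u0, hu0, hmx0⟩ := hmax x0
  have hx00 : x0 ≠ 0 := by
    intro h
    rw [h, norm_zero] at hx0n
    exact zero_ne_one hx0n
  have hcpos : 0 < (inner ℝ x0 u0 : ℝ) := by
    obtain ⟨u, hu, hpos⟩ := hs0 x0 hx00
    exact lt_of_lt_of_le hpos (hmx0 u hu)
  set c : ℝ := inner ℝ x0 u0 with hcdef
  have hlow : ∀ x : E2, x ≠ 0 → ∃ u ∈ P, c * ‖x‖ ≤ inner ℝ x u := by
    intro x hx
    have hxn : 0 < ‖x‖ := norm_pos_iff.2 hx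
    have hmem : (‖x‖)⁻¹ • x ∈ Metric.sphere (0 : E2) 1 := by
      simp [norm_smul, hxn.ne']
    have h1 := hmin hmem
    obtain ⟨u, hu, hmx⟩ := hmax ((‖x‖)⁻¹ • x)
    have h2 : sSup ((fun u : E2 => (inner ℝ x0 u : ℝ)) '' P) ≤
      sSup ((fun u : E2 => (inner ℝ ((‖x‖)⁻¹ • x) u : ℝ)) '' P) := h1
    rw [hsup _ u0 hu0 hmx0, hsup _ u hu hmx, real_inner_smul_left] at h2
    refine ⟨u, hu, ?_⟩
    have h3 : c * ‖x‖ ≤ (‖x‖⁻¹ * inner ℝ x u) * ‖x‖ := mul_le_mul_of_nonneg_right h2 hxn.le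
    have h4 : (‖x‖⁻¹ * (inner ℝ x u : ℝ)) * ‖x‖ = inner ℝ x u := by
      field_simp
    rwa [h4] at h3
  set A : Set E2 := {x : E2 | ∀ u ∈ P, (inner ℝ x u : ℝ) ≤ 1} with hA
  have hclosed : IsClosed A := by
    have : A = ⋂ u ∈ P, {x : E2 | (inner ℝ x u : ℝ) ≤ 1} := by
      ext x
      simp [hA]
    rw [this]
    apply isClosed_biInter
    intro u hu
    exact isClosed_le (by fun_prop) continuous_const
  have hconv : Convex ℝ A := by
    intro x hx y hy a b ha hb hab u hu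
    have h1 := hx u hu
    have h2 := hy u hu
    rw [inner_add_left, real_inner_smul_left, real_inner_smul_left]
    nlinarith
  have hbdd : A ⊆ Metric.closedBall (0 : E2) (c⁻¹) := by
    intro x hx
    rw [mem_closedBall_zero_iff]
    by_cases hx0' : x = 0
    · rw [hx0', norm_zero]
      exact inv_nonneg.2 hcpos.le
    · obtain ⟨u, hu, hle⟩ := hlow x hx0'
      have h1 := hx u hu
      have h2 : c * ‖x‖ ≤ 1 := le_trans hle h1
      rw [← one_div, le_div_iff₀ hcpos]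
      linarith
  have hcomp : IsCompact A := (isCompact_closedBall (0 : E2) (c⁻¹)).of_isClosed_subset hclosed hbdd
  have hzero : (0 : E2) ∈ interior A := by
    rw [mem_interior]
    refine ⟨Metric.ball (0 : E2) 1, ?_, Metric.isOpen_ball, by simp⟩
    intro x hx u hu
    rw [mem_ball_zero_iff] at hx
    have h1 := real_inner_le_norm x u
    rw [hP u hu, mul_one] at h1
    linarith
  have hbody : Body A := ⟨hconv, hcomp, hzero⟩
  refine ⟨A, hbody, ?_⟩
  intro x hx
  have hg : 0 < gauge A x := gauge_pos' hbody hx.1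
  set y : E2 := (gauge A x)⁻¹ • x with hy
  have hy0 : y ≠ 0 := smul_ne_zero (inv_ne_zero hg.ne') hx.1
  have hgy : gauge A y = 1 := by
    rw [hy, gauge_smul_of_nonneg (inv_nonneg.2 hg.le), smul_eq_mul]
    exact inv_mul_cancel₀ hg.ne'
  have hyA : y ∈ A := (gauge_le_one_iff' hbody y).1 hgy.le
  obtain ⟨u, hu, hmx⟩ := hmax y
  have hmpos : 0 < (inner ℝ y u : ℝ) := by
    obtain ⟨v, hv, hpos⟩ := hs0 y hy0
    exact lt_of_lt_of_le hpos (hmx v hv)
  have hyu : (inner ℝ y u : ℝ) = 1 := by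
    apply le_antisymm (hyA u hu)
    by_contra hlt
    push Not at hlt
    have hmem : (inner ℝ y u : ℝ)⁻¹ • y ∈ A := by
      intro v hv
      rw [real_inner_smul_left]
      have h1 := hmx v hv
      have h2 := mul_le_mul_of_nonneg_left h1 (inv_nonneg.2 hmpos.le)
      rwa [inv_mul_cancel₀ hmpos.ne'] at h2
    have h1 := (gauge_le_one_iff' hbody _).2 hmem
    rw [gauge_smul_of_nonneg (inv_nonneg.2 hmpos.le), hgy, smul_eq_mul, mul_one] at h1
    have h2 : 1 < (inner ℝ y u : ℝ)⁻¹ := (one_lt_inv₀ hmpos).2 hlt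
    linarith
  have hAu : hs A u = 1 := by
    apply le_antisymm
    · exact hs_le ⟨y, hyA⟩ (fun z hz => hz u hu)
    · rw [← hyu]
      exact inner_le_hs hcomp hyA u
  have hxu : (inner ℝ x u : ℝ) = gauge A x * hs A u := by
    rw [hAu, mul_one]
    have h1 : x = gauge A x • y := by
      rw [hy, smul_smul, mul_inv_cancel₀ hg.ne', one_smul]
    conv_lhs => rw [h1]
    rw [real_inner_smul_left, hyu, mul_one]
  rw [← nu_unique hbody hx (hP u hu) hxu]
  exact hu

end Pool.Agent.Lib.MP_1dedaf_gt.LB
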