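import Pool.Agent.Lib.MP_1dedaf_gt.Mg.G001
import Pool.Agent.Lib.MP_1dedaf_gt.Mg.G016

/-!
# TASK LB B1: L-concavity

Proof (helper86). (1) Pairwise submodularity gives the lattice inequality `M (x ⊓ y) + M (x ⊔ y) ≤ M x + M y`: with
`x = z + ∑_{i ∈ I} a_i e_i`, `y = z + ∑_{j ∈ J} b_j e_j`, `z = x ⊓ y`, `I, J` disjoint, `a, b ≥ 0`, sum the pairwise inequalities over
`I × J` (telescoping, induction on `I` and `J`).
(2) For `α ≥ 0`, lattice inequality for `p` and `q + α`, and translation: `M p + M q ≥ M (p ⊓ (q + α)) + M ((p - α) ⊔ q)`.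
The new pair `p' = p ⊓ (q+α)`, `q' = (p-α) ⊔ q` has `p' + q' = p + q`, and `d = p - q` is changed to `d'_i = d_i` if `d_i ≤ α`,
`d'_i = 2α - d_i` if `d_i > α`. With `α = (max_i d_i^+)/2` all `d'_i ≤ (max d^+)/2` and the `d_i ≤ 0` are unchanged. The same with
`p, q` exchanged. So both steps together replace `(p,q)` by a pair with the same sum, `max |d'| ≤ (max |d|)/2` and not larger `M p + M q`.
(3) Iterate: pairs `(p_N, q_N) → ((p+q)/2, (p+q)/2)`, continuity gives `M p + M q ≥ 2 M ((p+q)/2)`.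
(4) `concaveOn_of_mid` for `-M` (apply P1 to `L = -M`). Here everything is stated for `L = -M`.
-/

set_option autoImplicit false

open MeasureTheory Set Filter Topology

namespace Pool.Agent.Lib.MP_1dedaf_gt.LB

private theorem B1_one {ι : Type} [DecidableEq ι] {L : (ι → ℝ) → ℝ}
    (hp : ∀ (s : ι → ℝ) (i j : ι), i ≠ j → ∀ a b : ℝ, 0 ≤ a → 0 ≤ b →
      L (s + Pi.single i a) + L (s + Pi.single j b) ≤ L (s + Pi.single i a + Pi.single j b) + L s)
    (s : ι → ℝ) (i : ι) (a : ℝ) (ha : 0 ≤ a) (b : ι → ℝ) (hb : ∀ j, 0 ≤ b j) (J : Finset ι) (hJ : i ∉ J) :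
    L (s + Pi.single i a) + L (s + ∑ j ∈ J, Pi.single j (b j)) ≤
      L (s + Pi.single i a + ∑ j ∈ J, Pi.single j (b j)) + L s := by
  induction J using Finset.induction_on with
  | empty => simp
  | insert j J hj ih =>
    have hij : i ≠ j := fun h => hJ (h ▸ Finset.mem_insert_self _ _)
    have hiJ : i ∉ J := fun h => hJ (Finset.mem_insert_of_mem h)
    have h1 := ih hiJ
    have h2 := hp (s + ∑ j ∈ J, Pi.single j (b j)) i j hij a (b j) ha (hb j)
    rw [Finset.sum_insert hj]
    have e1 : s + (Pi.single j (b j) + ∑ j ∈ J, Pi.single j (b j)) =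
        s + ∑ j ∈ J, Pi.single j (b j) + Pi.single j (b j) := by abel
    have e2 : s + Pi.single i a + (Pi.single j (b j) + ∑ j ∈ J, Pi.single j (b j)) =
        s + ∑ j ∈ J, Pi.single j (b j) + Pi.single i a + Pi.single j (b j) := by abel
    have e3 : s + Pi.single i a + ∑ j ∈ J, Pi.single j (b j) =
        s + ∑ j ∈ J, Pi.single j (b j) + Pi.single i a := by abel
    rw [e1, e2]
    rw [e3] at h1
    linarith

private theorem B1_many {ι : Type} [DecidableEq ι] {L : (ι → ℝ) → ℝ}
    (hp : ∀ (s : ι → ℝ) (i j : ι), i ≠ j → ∀ a b : ℝ, 0 ≤ a → 0 ≤ b →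
      L (s + Pi.single i a) + L (s + Pi.single j b) ≤ L (s + Pi.single i a + Pi.single j b) + L s)
    (s : ι → ℝ) (a b : ι → ℝ) (ha : ∀ j, 0 ≤ a j) (hb : ∀ j, 0 ≤ b j) (I J : Finset ι) (hIJ : Disjoint I J) :
    L (s + ∑ j ∈ I, Pi.single j (a j)) + L (s + ∑ j ∈ J, Pi.single j (b j)) ≤
      L (s + ∑ j ∈ I, Pi.single j (a j) + ∑ j ∈ J, Pi.single j (b j)) + L s := by
  induction I using Finset.induction_on with
  | empty => simp; linarith
  | insert i I hi ih =>
    rw [Finset.disjoint_insert_left] at hIJ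
    have h1 := ih hIJ.2
    have h2 := B1_one hp (s + ∑ j ∈ I, Pi.single j (a j)) i (a i) (ha i) b hb J hIJ.1
    rw [Finset.sum_insert hi]
    have e1 : s + (Pi.single i (a i) + ∑ j ∈ I, Pi.single j (a j)) =
        s + ∑ j ∈ I, Pi.single j (a j) + Pi.single i (a i) := by abel
    rw [e1]
    linarith

private theorem B1_lattice {ι : Type} [Fintype ι] [DecidableEq ι] {L : (ι → ℝ) → ℝ}
    (hp : ∀ (s : ι → ℝ) (i j : ι), i ≠ j → ∀ a b : ℝ, 0 ≤ a → 0 ≤ b →
      L (s + Pi.single i a) + L (s + Pi.single j b) ≤ L (s + Pi.single i a + Pi.single j b) + L s)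
    (x y : ι → ℝ) : L x + L y ≤ L (x ⊔ y) + L (x ⊓ y) := by
  classical
  have key := B1_many hp (x ⊓ y) (fun i => x i - min (x i) (y i)) (fun i => y i - min (x i) (y i))
    (fun i => sub_nonneg.2 (min_le_left _ _)) (fun i => sub_nonneg.2 (min_le_right _ _))
    (Finset.univ.filter fun i => y i < x i) (Finset.univ.filter fun i => ¬ y i < x i)
    (Finset.disjoint_filter_filter_not _ _ _)
  have e1 : x ⊓ y + ∑ j ∈ Finset.univ.filter (fun i => y i < x i), Pi.single j (x j - min (x j) (y j)) = x := by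
    ext k
    rw [Pi.add_apply, Finset.sum_apply, Pi.inf_apply]
    simp only [Pi.single_apply, Finset.sum_ite_eq, Finset.mem_filter, Finset.mem_univ, true_and]
    rcases lt_or_ge (y k) (x k) with h | h
    · rw [if_pos h]; ring
    · rw [if_neg (not_lt.2 h)]; simp [h]
  have e2 : x ⊓ y + ∑ j ∈ Finset.univ.filter (fun i => ¬ y i < x i), Pi.single j (y j - min (x j) (y j)) = y := by
    ext k
    rw [Pi.add_apply, Finset.sum_apply, Pi.inf_apply]
    simp only [Pi.single_apply, Finset.sum_ite_eq, Finset.mem_filter, Finset.mem_univ, true_and]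
    rcases lt_or_ge (y k) (x k) with h | h
    · rw [if_neg (not_not.2 h)]; simp [h.le]
    · rw [if_pos (not_lt.2 h)]; ring
  have e3 : x + ∑ j ∈ Finset.univ.filter (fun i => ¬ y i < x i), Pi.single j (y j - min (x j) (y j)) = x ⊔ y := by
    ext k
    rw [Pi.add_apply, Finset.sum_apply, Pi.sup_apply]
    simp only [Pi.single_apply, Finset.sum_ite_eq, Finset.mem_filter, Finset.mem_univ, true_and]
    rcases lt_or_ge (y k) (x k) with h | h
    · rw [if_neg (not_not.2 h)]; simp [h.le]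
    · rw [if_pos (not_lt.2 h)]; simp [h]
  rw [e1, e2, e3] at key
  exact key

private theorem B1_step {ι : Type} [Fintype ι] [DecidableEq ι] {L : (ι → ℝ) → ℝ} (c : ℝ)
    (ht : ∀ (s : ι → ℝ) (r : ℝ), L (fun i => s i + r) = L s + c * r)
    (hp : ∀ (s : ι → ℝ) (i j : ι), i ≠ j → ∀ a b : ℝ, 0 ≤ a → 0 ≤ b →
      L (s + Pi.single i a) + L (s + Pi.single j b) ≤ L (s + Pi.single i a + Pi.single j b) + L s)
    (p q : ι → ℝ) (α : ℝ) :
    L p + L q ≤ L (fun i => min (p i) (q i + α)) + L (fun i => max (p i - α) (q i)) := by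
  have h := B1_lattice hp p (fun i => q i + α)
  have h1 : p ⊔ (fun i => q i + α) = fun i => max (p i - α) (q i) + α := by
    ext i
    rw [Pi.sup_apply, ← max_add_add_right]
    simp
  have h2 : p ⊓ (fun i => q i + α) = fun i => min (p i) (q i + α) := by
    ext i
    rw [Pi.inf_apply]
  rw [h1, h2, ht, ht] at h
  linarith

private theorem B1_halve {ι : Type} [Fintype ι] [DecidableEq ι] {L : (ι → ℝ) → ℝ} (c : ℝ)
    (ht : ∀ (s : ι → ℝ) (r : ℝ), L (fun i => s i + r) = L s + c * r)
    (hp : ∀ (s : ι → ℝ) (i j : ι), i ≠ j → ∀ a b : ℝ, 0 ≤ a → 0 ≤ b →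
      L (s + Pi.single i a) + L (s + Pi.single j b) ≤ L (s + Pi.single i a + Pi.single j b) + L s)
    (p q : ι → ℝ) (m : ℝ) (hm : ∀ i, |p i - q i| ≤ m) :
    ∃ p' q' : ι → ℝ, (∀ i, p' i + q' i = p i + q i) ∧ (∀ i, |p' i - q' i| ≤ m / 2) ∧
      L p + L q ≤ L p' + L q' := by
  refine ⟨fun i => max (max (p i - m / 2) (q i) - m / 2) (min (p i) (q i + m / 2)),
    fun i => min (max (p i - m / 2) (q i)) (min (p i) (q i + m / 2) + m / 2), fun i => ?_, fun i => ?_, ?_⟩
  · obtain ⟨h1, h2⟩ := abs_le.1 (hm i)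
    beta_reduce
    rcases le_total (p i - m / 2) (q i) with h | h
    · rw [max_eq_right h, min_eq_left (by linarith : p i ≤ q i + m / 2)]
      rcases le_total (q i - m / 2) (p i) with h' | h'
      · rw [max_eq_right h', min_eq_left (by linarith)]
      · rw [max_eq_left h', min_eq_right (by linarith)]; ring
    · rw [max_eq_left h, min_eq_right (by linarith : q i + m / 2 ≤ p i)]
      rw [max_eq_right (by linarith), min_eq_left (by linarith)]; ring
  · obtain ⟨h1, h2⟩ := abs_le.1 (hm i)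
    beta_reduce
    rcases le_total (p i - m / 2) (q i) with h | h
    · rw [max_eq_right h, min_eq_left (by linarith : p i ≤ q i + m / 2)]
      rcases le_total (q i - m / 2) (p i) with h' | h'
      · rw [max_eq_right h', min_eq_left (by linarith), abs_le]
        constructor <;> linarith
      · rw [max_eq_left h', min_eq_right (by linarith), abs_le]
        constructor <;> linarith
    · rw [max_eq_left h, min_eq_right (by linarith : q i + m / 2 ≤ p i)]
      rw [max_eq_right (by linarith), min_eq_left (by linarith), abs_le]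
      constructor <;> linarith
  · have s1 := B1_step c ht hp p q (m / 2)
    have s2 := B1_step c ht hp (fun i => max (p i - m / 2) (q i)) (fun i => min (p i) (q i + m / 2)) (m / 2)
    linarith

theorem lconcave {ι : Type} [Fintype ι] [DecidableEq ι] {L : (ι → ℝ) → ℝ} (hc : Continuous L) (c : ℝ)
    (ht : ∀ (s : ι → ℝ) (r : ℝ), L (fun i => s i + r) = L s + c * r)
    (hp : ∀ (s : ι → ℝ) (i j : ι), i ≠ j → ∀ a b : ℝ, 0 ≤ a → 0 ≤ b →
      L (s + Pi.single i a) + L (s + Pi.single j b) ≤ L (s + Pi.single i a + Pi.single j b) + L s) :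
    ConcaveOn ℝ univ L := by
  refine concaveOn_of_mid convex_univ hc.continuousOn fun p _ q _ => ?_
  have hit : ∀ N : ℕ, ∃ p' q' : ι → ℝ, (∀ i, p' i + q' i = p i + q i) ∧
      (∀ i, |p' i - q' i| ≤ ‖p - q‖ * (1 / 2) ^ N) ∧ L p + L q ≤ L p' + L q' := by
    intro N
    induction N with
    | zero =>
      refine ⟨p, q, fun i => rfl, fun i => ?_, le_rfl⟩
      have := norm_le_pi_norm (p - q) i
      rw [Pi.sub_apply, Real.norm_eq_abs] at this
      simpa using this
    | succ N ih =>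
      obtain ⟨p', q', h1, h2, h3⟩ := ih
      obtain ⟨p'', q'', g1, g2, g3⟩ := B1_halve c ht hp p' q' _ h2
      refine ⟨p'', q'', fun i => by rw [g1, h1], fun i => ?_, h3.trans g3⟩
      have := g2 i
      rw [pow_succ]
      linarith
  choose P Q h1 h2 h3 using hit
  have hz : Tendsto (fun N : ℕ => ‖p - q‖ * (1 / 2 : ℝ) ^ N) atTop (𝓝 0) := by
    have := (tendsto_pow_atTop_nhds_zero_of_lt_one (by norm_num : (0 : ℝ) ≤ 1 / 2)
      (by norm_num : (1 / 2 : ℝ) < 1)).const_mul ‖p - q‖
    simpa using this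
  have hd : ∀ i, Tendsto (fun N => P N i - Q N i) atTop (𝓝 0) := fun i =>
    squeeze_zero_norm (fun N => by rw [Real.norm_eq_abs]; exact h2 N i) hz
  have hP : Tendsto P atTop (𝓝 ((1 / 2 : ℝ) • (p + q))) := by
    rw [tendsto_pi_nhds]
    intro i
    have h := ((hd i).const_add (p i + q i)).const_mul (1 / 2 : ℝ)
    have e : ∀ N, (1 / 2 : ℝ) * (p i + q i + (P N i - Q N i)) = P N i := by
      intro N
      have := h1 N i
      linarith
    simp only [e] at h
    simpa using h
  have hQ : Tendsto Q atTop (𝓝 ((1 / 2 : ℝ) • (p + q))) := by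
    rw [tendsto_pi_nhds]
    intro i
    have h := ((hd i).const_sub (p i + q i)).const_mul (1 / 2 : ℝ)
    have e : ∀ N, (1 / 2 : ℝ) * (p i + q i - (P N i - Q N i)) = Q N i := by
      intro N
      have := h1 N i
      linarith
    simp only [e] at h
    simpa using h
  have hlim : Tendsto (fun N => L (P N) + L (Q N)) atTop
      (𝓝 (L ((1 / 2 : ℝ) • (p + q)) + L ((1 / 2 : ℝ) • (p + q)))) :=
    ((hc.tendsto _).comp hP).add ((hc.tendsto _).comp hQ)
  have := ge_of_tendsto' hlim h3
  linarith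

end Pool.Agent.Lib.MP_1dedaf_gt.LB
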