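import Pool.Agent.Lib.MP_1dedaf_gt.Mg.G001
import Pool.Agent.Lib.MP_1dedaf_gt.Mg.G009
import Pool.Agent.Lib.MP_1dedaf_gt.LB.A7a
import Pool.Agent.Lib.MP_1dedaf_gt.LB.A7
import Pool.Agent.Lib.MP_1dedaf_gt.LB.A8a

/-!
# TASK LB A9a: the logarithmic tangent inequality for Psi

Proof. Write `φ T = G u k T` for `T : ι → ℝ`. Call `i` active if `S i > 0`.
(a) For `δ > 0` let `S^δ i = S i` (active), `δ` (otherwise). Then `Psi u S^δ ≤ φ S`: for Fat `k'`
`G u k' S^δ ≤ G u k' S` (`G_anti`) and `G u k' S ≤ G u k S` by `mass_max`.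
(b) Let `L s = Psi u (exp s)`, `s^δ = log S^δ`, `s' = log S'`, `0 < τ ≤ 1`. `s^δ` is the convex combination of
`s^δ - τ (s' - s^δ)` (weight `1/(1+τ)`) and `s'` (weight `τ/(1+τ)`), so `τ L s' ≤ (1+τ) L s^δ - L (s^δ - τ (s' - s^δ))`, and
`L (s^δ - τ(s' - s^δ)) ≥ φ (T^{δ,τ})`, `T^{δ,τ} i = (S^δ i)^{1+τ} (S' i)^{-τ}` (`le_psi`). As `δ → 0` (`τ` fixed) `T^{δ,τ} → T^τ`, where
`T^τ i = S i exp (τ λ i)`, `λ i = log (S i / S' i)` for active `i` and `T^τ i = 0` otherwise; `φ` is continuous
(`Z_cont`). So `τ Psi u S' ≤ (1+τ) φ S - φ (T^τ)`.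
(c) `opt_env`: `φ T ≥ φ S - ∑ (T i - S i) k i`, so
`τ Psi u S' ≤ τ φ S + ∑ S i k i (exp (τ λ i) - 1)`; divide by `τ`, `τ → 0`.
-/

set_option autoImplicit false

open MeasureTheory Set Filter Topology

namespace Pool.Agent.Lib.MP_1dedaf_gt.LB

variable {ι : Type} [Fintype ι]

theorem psi_log_tangent {u : ι → E2} (hu : Adm u)
    (hL : ConcaveOn ℝ univ (fun s : ι → ℝ => Psi u (fun i => Real.exp (s i))))
    {S k : ι → ℝ} (h : Opt u S k) (hS : ∀ i, 0 ≤ S i) {S' : ι → ℝ} (hS' : ∀ i, 0 < S' i) :
    Psi u S' ≤ G u k S + ∑ i, S i * k i * Real.log (S i / S' i) := by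
  classical
  -- (a)
  have ha : ∀ δ : ℝ, 0 < δ → Psi u (fun i => if 0 < S i then S i else δ) ≤ G u k S := by
    intro δ hδ
    refine csSup_le ⟨_, k, h.fat, rfl⟩ ?_
    rintro r ⟨k', hk', rfl⟩
    refine (G_anti hu (fun i => ?_) hk').trans (mass_max hu h.fat h.mass hk')
    by_cases hi : 0 < S i
    · rw [if_pos hi]
    · rw [if_neg hi]
      exact (not_lt.1 hi).trans hδ.le
  -- (b)
  have hb : ∀ τ : ℝ, 0 < τ → ∀ δ : ℝ, 0 < δ → τ * (Psi u S' - G u k S) ≤
      ∑ i, (Real.exp ((1 + τ) * Real.log (if 0 < S i then S i else δ) - τ * Real.log (S' i)) -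
        S i) * k i := by
    intro τ hτ δ hδ
    have hpos : ∀ i, 0 < (if 0 < S i then S i else δ) := by
      intro i
      split_ifs with hi
      · exact hi
      · exact hδ
    have hτ1 : 0 < 1 + τ := by linarith
    have h1 := hL.2 (mem_univ (fun i => (1 + τ) * Real.log (if 0 < S i then S i else δ) -
      τ * Real.log (S' i))) (mem_univ (fun i => Real.log (S' i)))
      (show (0 : ℝ) ≤ 1 / (1 + τ) by positivity) (show (0 : ℝ) ≤ τ / (1 + τ) by positivity) (by
        rw [← add_div, div_self hτ1.ne'])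
    have e1 : (1 / (1 + τ)) • (fun i => (1 + τ) * Real.log (if 0 < S i then S i else δ) -
        τ * Real.log (S' i)) + (τ / (1 + τ)) • (fun i => Real.log (S' i)) =
        fun i => Real.log (if 0 < S i then S i else δ) := by
      funext i
      simp only [Pi.add_apply, Pi.smul_apply, smul_eq_mul]
      field_simp
      ring
    rw [e1] at h1
    have e2 : (fun i => Real.exp (Real.log (S' i))) = S' := by
      funext i
      exact Real.exp_log (hS' i)
    have e3 : (fun i => Real.exp (Real.log (if 0 < S i then S i else δ))) =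
        fun i => if 0 < S i then S i else δ := by
      funext i
      exact Real.exp_log (hpos i)
    simp only [smul_eq_mul] at h1
    rw [e2, e3] at h1
    have h2 := le_psi hu (S := fun i => Real.exp ((1 + τ) *
      Real.log (if 0 < S i then S i else δ) - τ * Real.log (S' i)))
      (fun i => Real.exp_pos _) h.fat
    have h3 := opt_env hu h (fun i => Real.exp ((1 + τ) *
      Real.log (if 0 < S i then S i else δ) - τ * Real.log (S' i)))
    have h4 := ha δ hδ
    have h5 : Psi u (fun i => Real.exp ((1 + τ) * Real.log (if 0 < S i then S i else δ) -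
        τ * Real.log (S' i))) + τ * Psi u S' ≤
        (1 + τ) * Psi u (fun i => if 0 < S i then S i else δ) := by
      have h6 := mul_le_mul_of_nonneg_left h1 hτ1.le
      have h7 : (1 + τ) * (1 / (1 + τ) * Psi u (fun i => Real.exp ((1 + τ) *
          Real.log (if 0 < S i then S i else δ) - τ * Real.log (S' i))) +
          τ / (1 + τ) * Psi u S') = Psi u (fun i => Real.exp ((1 + τ) *
          Real.log (if 0 < S i then S i else δ) - τ * Real.log (S' i))) + τ * Psi u S' := by
        field_simp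
      rw [h7] at h6
      exact h6
    have h8 := mul_le_mul_of_nonneg_left h4 hτ1.le
    nlinarith [h2, h3, h5, h8]
  -- (c)
  have hc : ∀ τ : ℝ, 0 < τ → τ * (Psi u S' - G u k S) ≤
      ∑ i, (S i * Real.exp (τ * Real.log (S i / S' i)) - S i) * k i := by
    intro τ hτ
    have hlim : Tendsto (fun δ : ℝ => ∑ i, (Real.exp ((1 + τ) *
        Real.log (if 0 < S i then S i else δ) - τ * Real.log (S' i)) - S i) * k i) (𝓝[>] 0)
        (𝓝 (∑ i, (S i * Real.exp (τ * Real.log (S i / S' i)) - S i) * k i)) := by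
      refine tendsto_finsetSum _ fun i _ => ?_
      refine Tendsto.mul_const _ (Tendsto.sub_const ?_ _)
      by_cases hi : 0 < S i
      · simp only [if_pos hi]
        have e : Real.exp ((1 + τ) * Real.log (S i) - τ * Real.log (S' i)) =
            S i * Real.exp (τ * Real.log (S i / S' i)) := by
          rw [Real.log_div hi.ne' (hS' i).ne']
          have : (1 + τ) * Real.log (S i) - τ * Real.log (S' i) =
            Real.log (S i) + τ * (Real.log (S i) - Real.log (S' i)) := by ring
          rw [this, Real.exp_add, Real.exp_log hi]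
        rw [e]
        exact tendsto_const_nhds
      · have h0 : S i = 0 := le_antisymm (not_lt.1 hi) (hS i)
        simp only [if_neg hi]
        rw [h0, zero_mul]
        refine Real.tendsto_exp_atBot.comp ?_
        refine tendsto_atBot_add_const_right _ _ ?_
        exact Real.tendsto_log_nhdsGT_zero.const_mul_atBot (by linarith)
    refine ge_of_tendsto hlim ?_
    filter_upwards [self_mem_nhdsWithin] with δ hδ
    exact hb τ hτ δ hδ
  -- (d)
  have hd : Tendsto (fun τ : ℝ => ∑ i, S i * k i *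
      (τ⁻¹ • (Real.exp ((0 + τ) * Real.log (S i / S' i)) - Real.exp (0 * Real.log (S i / S' i)))))
      (𝓝[>] 0) (𝓝 (∑ i, S i * k i * Real.log (S i / S' i))) := by
    refine tendsto_finsetSum _ fun i _ => ?_
    refine Tendsto.const_mul _ ?_
    have hder : HasDerivAt (fun t : ℝ => Real.exp (t * Real.log (S i / S' i)))
        (Real.log (S i / S' i)) 0 := by
      have h1 : HasDerivAt (fun t : ℝ => t * Real.log (S i / S' i))
          (Real.log (S i / S' i)) 0 := by
        simpa using (hasDerivAt_id (0 : ℝ)).mul_const (Real.log (S i / S' i))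
      have h2 := h1.exp
      simpa using h2
    exact hder.tendsto_slope_zero_right
  have he : Psi u S' - G u k S ≤ ∑ i, S i * k i * Real.log (S i / S' i) := by
    refine ge_of_tendsto hd ?_
    filter_upwards [self_mem_nhdsWithin] with τ hτ
    have hτ0 : 0 < τ := hτ
    have h1 := mul_le_mul_of_nonneg_left (hc τ hτ0) (inv_nonneg.2 hτ0.le)
    rw [← mul_assoc, inv_mul_cancel₀ hτ0.ne', one_mul] at h1
    refine h1.trans (le_of_eq ?_)
    rw [Finset.mul_sum]
    refine Finset.sum_congr rfl fun i _ => ?_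
    rw [smul_eq_mul, zero_add, zero_mul, Real.exp_zero]
    ring
  linarith

end Pool.Agent.Lib.MP_1dedaf_gt.LB
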