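import Pool.Agent.Lib.MP_1dedaf_gt.Mg.G052
import Pool.Agent.Lib.MP_1dedaf_gt.Mg.G059
import Pool.Agent.Lib.MP_1dedaf_gt.Mg.G058

/-!
# TASK LB F2: the planar theorem from the kernel inequality

Proof. `thmA'` says `ThmA t` for `0 < t < 1` (unfold `LC`), then `planar_full`.
-/

set_option autoImplicit false

open MeasureTheory Set Filter Topology

namespace Pool.Agent.Lib.MP_1dedaf_gt.LB

theorem planar_result (hker : Ker) {t : ℝ} (ht0 : 0 < t) (ht1 : t < 1) {K C : Set E2} (hc : Convex ℝ K) (hK : IsCompact K)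
    (hi : (interior K).Nonempty) (h0 : (∫ x in K, x ∂volume) = 0) (hc' : Convex ℝ C) (hC : IsCompact C) (hi' : (interior C).Nonempty)
    (h0' : (∫ x in C, x ∂volume) = 0) :
    ar K ^ (1 - t) * ar C ^ t ≤ ar (LC t K C) ∧ (ar (LC t K C) = ar K ^ (1 - t) * ar C ^ t ↔ Dec K C) := by
  refine planar_full ht0 ht1 ?_ hc hK hi h0 hc' hC hi' h0'
  intro K' C' hK' hC' mK mC hmK hmC
  exact thmA' hker hK' hC' ht0 ht1 hmK hmC

end Pool.Agent.Lib.MP_1dedaf_gt.LB
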